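import Pool.Agent.Lib.MP_47effe_an.B.Nh

/-! Closeness of families of matrices along a filter. -/

namespace QWEP

open Filter Topology

variable {D : Type} {κ : D → Type} [∀ d, Fintype (κ d)] [∀ d, DecidableEq (κ d)] [∀ d, Nonempty (κ d)]

/-- The families `f`, `f'` of matrices are close in the normalized Hilbert-Schmidt norm along `l`. -/
def Ap (l : Filter D) (f f' : ∀ d, Matrix (κ d) (κ d) ℂ) : Prop := Tendsto (fun d => nh (f d - f' d)) l (𝓝 0)

variable {l : Filter D} {f f' f'' g g' : ∀ d, Matrix (κ d) (κ d) ℂ}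

private theorem un (h : f ∈ unitary (∀ d, Matrix (κ d) (κ d) ℂ)) (d : D) :
    f d ∈ unitary (Matrix (κ d) (κ d) ℂ) := by
  rw [Unitary.mem_iff] at h ⊢
  exact ⟨congrFun h.1 d, congrFun h.2 d⟩

theorem Ap.refl (f : ∀ d, Matrix (κ d) (κ d) ℂ) : Ap l f f := by
  unfold Ap
  simp only [sub_self, nh_zero]
  exact tendsto_const_nhds

theorem Ap.symm (h : Ap l f f') : Ap l f' f := by
  unfold Ap at h ⊢
  refine h.congr fun d => ?_
  rw [← nh_neg, neg_sub]

theorem Ap.trans (h : Ap l f f') (h' : Ap l f' f'') : Ap l f f'' := by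
  unfold Ap at h h' ⊢
  have h1 := h.add h'
  rw [add_zero] at h1
  refine squeeze_zero (fun d => nh_nonneg _) (fun d => ?_) h1
  have e : f d - f'' d = (f d - f' d) + (f' d - f'' d) := by abel
  rw [e]
  exact nh_add_le _ _

theorem Ap.smul (c : ℂ) (h : Ap l f f') : Ap l (c • f) (c • f') := by
  unfold Ap at h ⊢
  have h1 := h.const_mul ‖c‖
  rw [mul_zero] at h1
  refine h1.congr fun d => ?_
  rw [Pi.smul_apply, Pi.smul_apply, ← smul_sub, nh_smul]

theorem Ap.star (h : Ap l f f') : Ap l (star f) (star f') := by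
  unfold Ap at h ⊢
  refine h.congr fun d => ?_
  rw [Pi.star_apply, Pi.star_apply, ← star_sub, nh_star]

theorem Ap.mul (h : Ap l f f') (h' : Ap l g g') (hf : f' ∈ unitary (∀ d, Matrix (κ d) (κ d) ℂ))
    (hg : g ∈ unitary (∀ d, Matrix (κ d) (κ d) ℂ)) : Ap l (f * g) (f' * g') := by
  unfold Ap at h h' ⊢
  have h1 := h.add h'
  rw [add_zero] at h1
  refine squeeze_zero (fun d => nh_nonneg _) (fun d => ?_) h1
  have e : (f * g) d - (f' * g') d = (f d - f' d) * g d + f' d * (g d - g' d) := by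
    rw [Pi.mul_apply, Pi.mul_apply, sub_mul, mul_sub]
    abel
  rw [e]
  refine (nh_add_le _ _).trans ?_
  rw [nh_mul_right (un hg d), nh_mul_left (un hf d)]

theorem Ap.ntr (h : Ap l f f') : Tendsto (fun d => QWEP.ntr (f d) - QWEP.ntr (f' d)) l (𝓝 0) := by
  unfold Ap at h
  refine squeeze_zero_norm (fun d => ?_) h
  rw [← ntr_sub]
  exact norm_ntr_le _

end QWEP
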