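import Pool.Agent.Lib.MP_47effe_an.B.App

/-! Bounded families of matrices. -/

namespace QWEP

open Filter Topology

variable {D : Type} {κ : D → Type} [∀ d, Fintype (κ d)] [∀ d, DecidableEq (κ d)] [∀ d, Nonempty (κ d)]

private theorem bdd_key {κ : Type} [Fintype κ] (w : κ → ℂ) :
    ((∑ i, ‖w i‖ ^ 2 : ℝ) : ℂ) = dotProduct (star w) w := by
  push_cast
  simp only [dotProduct, Pi.star_apply]
  exact Finset.sum_congr rfl fun i _ => (Complex.conj_mul' _).symm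

private theorem bdd_cs {κ : Type} [Fintype κ] (v w : κ → ℂ) :
    ‖dotProduct (star v) w‖ ^ 2 ≤ (∑ i, ‖v i‖ ^ 2) * ∑ i, ‖w i‖ ^ 2 := by
  have h1 : ‖dotProduct (star v) w‖ ≤ ∑ i, ‖v i‖ * ‖w i‖ := by
    rw [dotProduct]
    refine (norm_sum_le _ _).trans_eq ?_
    refine Finset.sum_congr rfl fun i _ => ?_
    rw [Pi.star_apply, norm_mul, norm_star]
  have h2 := Finset.sum_mul_sq_le_sq_mul_sq Finset.univ (fun i => ‖v i‖) fun i => ‖w i‖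
  exact (pow_le_pow_left₀ (norm_nonneg _) h1 2).trans h2

theorem bd_star {κ : Type} [Fintype κ] [DecidableEq κ] {K : ℝ} {X : Matrix κ κ ℂ} (h : Bd K X) : Bd K (star X) := by
  intro v
  obtain ⟨u, hu⟩ : ∃ u, u = (star X).mulVec v := ⟨_, rfl⟩
  rw [← hu]
  have e1 : ((∑ i, ‖u i‖ ^ 2 : ℝ) : ℂ) = dotProduct (star v) (X.mulVec u) := by
    rw [bdd_key]
    nth_rewrite 1 [hu]
    rw [Matrix.star_eq_conjTranspose, Matrix.star_mulVec, Matrix.conjTranspose_conjTranspose,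
      ← Matrix.dotProduct_mulVec]
  have e2 : ∑ i, ‖u i‖ ^ 2 = ‖dotProduct (star v) (X.mulVec u)‖ := by
    rw [← e1, Complex.norm_real, Real.norm_of_nonneg (Finset.sum_nonneg fun i _ => sq_nonneg _)]
  have e3 := bdd_cs v (X.mulVec u)
  rw [← e2] at e3
  have e4 := h u
  have hv : 0 ≤ ∑ i, ‖v i‖ ^ 2 := Finset.sum_nonneg fun i _ => sq_nonneg _
  have hu0 : 0 ≤ ∑ i, ‖u i‖ ^ 2 := Finset.sum_nonneg fun i _ => sq_nonneg _
  rcases hu0.eq_or_lt with h0 | h0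
  · rw [← h0]
    positivity
  · have e5 := mul_le_mul_of_nonneg_left e4 hv
    have e6 : (∑ i, ‖u i‖ ^ 2) * (∑ i, ‖u i‖ ^ 2) ≤ (K ^ 2 * ∑ i, ‖v i‖ ^ 2) * ∑ i, ‖u i‖ ^ 2 := by
      nlinarith
    exact le_of_mul_le_mul_right e6 h0

theorem bd_mul {κ : Type} [Fintype κ] [DecidableEq κ] {K K' : ℝ} {X X' : Matrix κ κ ℂ} (h : Bd K X) (h' : Bd K' X') :
    Bd (K * K') (X * X') := by
  intro v
  rw [← Matrix.mulVec_mulVec, mul_pow, mul_assoc]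
  exact (h _).trans (mul_le_mul_of_nonneg_left (h' v) (sq_nonneg K))

private theorem bdd_lp {κ : Type} [Fintype κ] (v : κ → ℂ) :
    ‖(WithLp.toLp 2 v : EuclideanSpace ℂ κ)‖ ^ 2 = ∑ i, ‖v i‖ ^ 2 := by
  rw [EuclideanSpace.norm_sq_eq]

private theorem bdd_nrm {κ : Type} [Fintype κ] {K : ℝ} (hK : 0 ≤ K) {X : Matrix κ κ ℂ} (h : Bd K X) (v : κ → ℂ) :
    ‖(WithLp.toLp 2 (X.mulVec v) : EuclideanSpace ℂ κ)‖ ≤ K * ‖(WithLp.toLp 2 v : EuclideanSpace ℂ κ)‖ := by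
  have h1 := h v
  rw [← bdd_lp, ← bdd_lp, ← mul_pow] at h1
  exact (pow_le_pow_iff_left₀ (norm_nonneg _) (mul_nonneg hK (norm_nonneg _)) two_ne_zero).1 h1

theorem bd_add {κ : Type} [Fintype κ] [DecidableEq κ] {K K' : ℝ} (hK : 0 ≤ K) (hK' : 0 ≤ K') {X X' : Matrix κ κ ℂ} (h : Bd K X)
    (h' : Bd K' X') : Bd (K + K') (X + X') := by
  intro v
  rw [← bdd_lp, ← bdd_lp, ← mul_pow, Matrix.add_mulVec]
  refine pow_le_pow_left₀ (norm_nonneg _) ?_ 2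
  have h1 := norm_add_le (WithLp.toLp 2 (X.mulVec v) : EuclideanSpace ℂ κ) (WithLp.toLp 2 (X'.mulVec v))
  have h2 := bdd_nrm hK h v
  have h3 := bdd_nrm hK' h' v
  have h4 : (WithLp.toLp 2 (X.mulVec v + X'.mulVec v) : EuclideanSpace ℂ κ) =
      WithLp.toLp 2 (X.mulVec v) + WithLp.toLp 2 (X'.mulVec v) := rfl
  rw [h4]
  linarith

theorem bd_smul {κ : Type} [Fintype κ] [DecidableEq κ] {K : ℝ} (r : ℂ) {X : Matrix κ κ ℂ} (h : Bd K X) : Bd (‖r‖ * K) (r • X) := by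
  intro v
  have h1 : ∑ i, ‖((r • X).mulVec v) i‖ ^ 2 = ‖r‖ ^ 2 * ∑ i, ‖(X.mulVec v) i‖ ^ 2 := by
    rw [Matrix.smul_mulVec, Finset.mul_sum]
    refine Finset.sum_congr rfl fun i _ => ?_
    rw [Pi.smul_apply, norm_smul, mul_pow]
  rw [h1, mul_pow, mul_assoc]
  exact mul_le_mul_of_nonneg_left (h v) (sq_nonneg _)

theorem nh_mul_bd {κ : Type} [Fintype κ] [DecidableEq κ] {K : ℝ} {X : Matrix κ κ ℂ} (h : Bd K X) (M : Matrix κ κ ℂ) :
    nh (X * M) ≤ |K| * nh M := by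
  have h1 : ∑ i, ∑ j, ‖(X * M) i j‖ ^ 2 ≤ K ^ 2 * ∑ i, ∑ j, ‖M i j‖ ^ 2 := by
    rw [Finset.sum_comm, Finset.sum_comm (f := fun i j => ‖M i j‖ ^ 2), Finset.mul_sum]
    refine Finset.sum_le_sum fun j _ => ?_
    exact h fun i => M i j
  rw [nh, nh, ← Real.sqrt_sq_eq_abs, ← Real.sqrt_mul (sq_nonneg K), ← mul_div_assoc]
  exact Real.sqrt_le_sqrt (div_le_div_of_nonneg_right h1 (Nat.cast_nonneg _))

theorem nh_mul_bd' {κ : Type} [Fintype κ] [DecidableEq κ] {K : ℝ} {X : Matrix κ κ ℂ} (h : Bd K X) (M : Matrix κ κ ℂ) :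
    nh (M * X) ≤ |K| * nh M := by
  rw [← nh_star (M * X), star_mul, ← nh_star M]
  exact nh_mul_bd (bd_star h) _

theorem Ap.mul' {l : Filter D} {f f' g g' : ∀ d, Matrix (κ d) (κ d) ℂ} (h : Ap l f f') (h' : Ap l g g')
    (hf : ∃ K, ∀ d, Bd K (f' d)) (hg : ∃ K, ∀ d, Bd K (g d)) : Ap l (f * g) (f' * g') := by
  obtain ⟨K, hK⟩ := hf
  obtain ⟨K', hK'⟩ := hg
  unfold Ap at h h' ⊢
  have h1 := (h.const_mul |K'|).add (h'.const_mul |K|)
  rw [mul_zero, mul_zero, add_zero] at h1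
  refine squeeze_zero (fun d => nh_nonneg _) (fun d => ?_) h1
  have e : (f * g) d - (f' * g') d = (f d - f' d) * g d + f' d * (g d - g' d) := by
    rw [Pi.mul_apply, Pi.mul_apply, sub_mul, mul_sub]
    abel
  rw [e]
  exact (nh_add_le _ _).trans (add_le_add (nh_mul_bd' (hK' d) _) (nh_mul_bd (hK d) _))

private theorem bdd_let {ι : Type} {Z : ι → ∀ d, Matrix (κ d) (κ d) ℂ} (hZ : ∀ i, ∃ K, ∀ d, Bd K (Z i d))
    (q : ι × Bool) : ∃ K, ∀ d, Bd K ((if q.2 then star (Z q.1) else Z q.1) d) := by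
  obtain ⟨K, hK⟩ := hZ q.1
  refine ⟨K, fun d => ?_⟩
  split_ifs
  · exact bd_star (hK d)
  · exact hK d

private theorem bdd_word {ι : Type} {Z : ι → ∀ d, Matrix (κ d) (κ d) ℂ} (hZ : ∀ i, ∃ K, ∀ d, Bd K (Z i d))
    (w : List (ι × Bool)) : ∃ K, ∀ d, Bd K (ev star Z w d) := by
  induction w with
  | nil =>
    refine ⟨1, fun d => ?_⟩
    rw [ev_nil]
    exact bd_unitary (one_mem _)
  | cons q w ih =>
    obtain ⟨K, hK⟩ := bdd_let hZ q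
    obtain ⟨K', hK'⟩ := ih
    refine ⟨K * K', fun d => ?_⟩
    rw [ev_cons, Pi.mul_apply]
    exact bd_mul (hK d) (hK' d)

theorem ap_word {ι : Type} {l : Filter D} {Z Z' : ι → ∀ d, Matrix (κ d) (κ d) ℂ} (h : ∀ i, Ap l (Z i) (Z' i))
    (hZ : ∀ i, ∃ K, ∀ d, Bd K (Z i d)) (hZ' : ∀ i, ∃ K, ∀ d, Bd K (Z' i d)) (w : List (ι × Bool)) :
    Ap l (ev star Z w) (ev star Z' w) := by
  induction w with
  | nil =>
    rw [ev_nil, ev_nil]
    exact Ap.refl _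
  | cons q w ih =>
    rw [ev_cons, ev_cons]
    refine Ap.mul' ?_ ih (bdd_let hZ' q) (bdd_word hZ w)
    split_ifs
    · exact (h q.1).star
    · exact h q.1

end QWEP
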