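import Pool.Agent.Lib.MP_47effe_an.B.Nh

/-! The flip and its conjugates. -/

namespace QWEP

open Matrix

variable {ν : Type} [Fintype ν] [DecidableEq ν]

/-- The flip of `ℂ^ν ⊗ ℂ^ν`. -/
def flp (ν : Type) [DecidableEq ν] : Matrix (ν × ν) (ν × ν) ℂ := fun a b => if a.1 = b.2 ∧ a.2 = b.1 then 1 else 0

/-- `U ⊗ 1`. -/
def am (U : Matrix ν ν ℂ) : Matrix (ν × ν) (ν × ν) ℂ := Matrix.kronecker U (1 : Matrix ν ν ℂ)

omit [Fintype ν] in
private theorem flp_apply (a b : ν × ν) : flp ν a b = if a = b.swap then 1 else 0 := by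
  unfold flp
  rcases a with ⟨a1, a2⟩
  rcases b with ⟨b1, b2⟩
  simp [Prod.ext_iff]

omit [Fintype ν] in
private theorem flp_star_aux : star (flp ν) = flp ν := by
  ext a b
  rw [Matrix.star_apply]
  unfold flp
  by_cases h : a.1 = b.2 ∧ a.2 = b.1
  · rw [if_pos h, if_pos ⟨h.2.symm, h.1.symm⟩]
    simp
  · rw [if_neg h, if_neg (fun h' => h ⟨h'.2.symm, h'.1.symm⟩)]
    simp

theorem flp_star : star (flp ν) = flp ν := flp_star_aux

private theorem flp_mul (M : Matrix (ν × ν) (ν × ν) ℂ) (a b : ν × ν) : (flp ν * M) a b = M a.swap b := by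
  rw [Matrix.mul_apply, Finset.sum_eq_single a.swap]
  · rw [flp_apply, if_pos (by simp), one_mul]
  · intro c _ hc
    rw [flp_apply, if_neg, zero_mul]
    intro h
    exact hc (by rw [h]; simp)
  · intro h
    exact absurd (Finset.mem_univ _) h

private theorem mul_flp (M : Matrix (ν × ν) (ν × ν) ℂ) (a b : ν × ν) : (M * flp ν) a b = M a b.swap := by
  rw [Matrix.mul_apply, Finset.sum_eq_single b.swap]
  · rw [flp_apply, if_pos rfl, mul_one]
  · intro c _ hc
    rw [flp_apply, if_neg hc, mul_zero]
  · intro h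
    exact absurd (Finset.mem_univ _) h

theorem flp_sq : flp ν * flp ν = 1 := by
  ext a b
  rw [flp_mul, flp_apply, Matrix.one_apply]
  congr 1
  simp [Prod.swap_inj]

private theorem flp_kron (A B : Matrix ν ν ℂ) :
    flp ν * Matrix.kronecker A B = Matrix.kronecker B A * flp ν := by
  ext a b
  rw [flp_mul, mul_flp]
  simp [Matrix.kronecker, Matrix.kroneckerMap_apply, mul_comm]

theorem am_mul (U U' : Matrix ν ν ℂ) : am U * am U' = am (U * U') := by
  unfold am
  have h := Matrix.mul_kronecker_mul U U' (1 : Matrix ν ν ℂ) (1 : Matrix ν ν ℂ)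
  rw [mul_one] at h
  exact h.symm

omit [Fintype ν] in
private theorem am_star (U : Matrix ν ν ℂ) : star (am U) = am (star U) := by
  unfold am
  rw [Matrix.star_eq_conjTranspose, Matrix.star_eq_conjTranspose]
  have h := Matrix.conjTranspose_kronecker U (1 : Matrix ν ν ℂ)
  rw [Matrix.conjTranspose_one] at h
  exact h

omit [Fintype ν] in
private theorem am_one : am (1 : Matrix ν ν ℂ) = 1 := by
  unfold am
  exact Matrix.one_kronecker_one

theorem am_unitary {U : Matrix ν ν ℂ} (h : U ∈ unitary (Matrix ν ν ℂ)) : am U ∈ unitary (Matrix (ν × ν) (ν × ν) ℂ) := by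
  rw [Unitary.mem_iff] at h ⊢
  rw [am_star, am_mul, am_mul, h.1, h.2, am_one]
  exact ⟨rfl, rfl⟩

theorem nh_am_sub [Nonempty ν] (U U' : Matrix ν ν ℂ) : nh (am U - am U') = nh (U - U') := by
  have h1 : am U - am U' = am (U - U') := by
    ext a b
    simp [am, Matrix.kronecker, Matrix.kroneckerMap_apply, sub_mul]
  rw [h1]
  unfold nh
  congr 1
  have h2 : ∑ i : ν × ν, ∑ j : ν × ν, ‖am (U - U') i j‖ ^ 2 =
      (∑ i, ∑ j, ‖(U - U') i j‖ ^ 2) * Fintype.card ν := by
    have h3 : ∀ i j : ν × ν, ‖am (U - U') i j‖ ^ 2 =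
        ‖(U - U') i.1 j.1‖ ^ 2 * (if i.2 = j.2 then 1 else 0) := by
      intro i j
      simp only [am, Matrix.kronecker, Matrix.kroneckerMap_apply, Matrix.one_apply]
      split_ifs <;> simp
    simp only [h3]
    rw [Fintype.sum_prod_type]
    simp only [Fintype.sum_prod_type]
    rw [Finset.sum_mul]
    refine Finset.sum_congr rfl fun i _ => ?_
    rw [Finset.sum_comm, Finset.sum_mul]
    refine Finset.sum_congr rfl fun j _ => ?_
    simp only [mul_ite, mul_one, mul_zero, Finset.sum_ite_eq, Finset.mem_univ, if_true,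
      Finset.sum_const, Finset.card_univ, nsmul_eq_mul]
    ring
  have hc : (Fintype.card ν : ℝ) ≠ 0 := by
    exact_mod_cast Fintype.card_ne_zero
  rw [h2, Fintype.card_prod]
  push_cast
  field_simp

theorem ntr_flip {U U' : Matrix ν ν ℂ} (h : U ∈ unitary (Matrix ν ν ℂ)) (h' : U' ∈ unitary (Matrix ν ν ℂ)) :
    ntr (am U * flp ν * star (am U) * (am U' * flp ν * star (am U'))) = ntr (U * star U') * ntr (star U * U') := by
  have h1 : am U * flp ν * star (am U) * (am U' * flp ν * star (am U')) =
      Matrix.kronecker (U * star U') (star U * U') := by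
    have e1 : star (am U) * am U' = am (star U * U') := by rw [am_star, am_mul]
    have e2 : flp ν * am (star U * U') * flp ν = Matrix.kronecker (1 : Matrix ν ν ℂ) (star U * U') := by
      unfold am
      rw [flp_kron, Matrix.mul_assoc, flp_sq, Matrix.mul_one]
    calc am U * flp ν * star (am U) * (am U' * flp ν * star (am U'))
        = am U * (flp ν * (star (am U) * am U') * flp ν) * star (am U') := by
          simp only [Matrix.mul_assoc]
      _ = am U * Matrix.kronecker (1 : Matrix ν ν ℂ) (star U * U') * am (star U') := by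
          rw [e1, e2, am_star]
      _ = Matrix.kronecker (U * star U') (star U * U') := by
          unfold am
          have k1 := Matrix.mul_kronecker_mul U (1 : Matrix ν ν ℂ) (1 : Matrix ν ν ℂ) (star U * U')
          rw [mul_one, one_mul] at k1
          have k2 := Matrix.mul_kronecker_mul U (star U') (star U * U') (1 : Matrix ν ν ℂ)
          rw [mul_one] at k2
          have k1' : Matrix.kronecker U (1 : Matrix ν ν ℂ) * Matrix.kronecker (1 : Matrix ν ν ℂ) (star U * U') =
            Matrix.kronecker U (star U * U') := k1.symm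
          have k2' : Matrix.kronecker U (star U * U') * Matrix.kronecker (star U') (1 : Matrix ν ν ℂ) =
            Matrix.kronecker (U * star U') (star U * U') := k2.symm
          rw [k1', k2']
  rw [h1]
  unfold ntr
  have h2 : Matrix.trace (Matrix.kronecker (U * star U') (star U * U')) =
      Matrix.trace (U * star U') * Matrix.trace (star U * U') :=
    Matrix.trace_kronecker _ _
  rw [h2, Fintype.card_prod]
  push_cast
  ring

end QWEP
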