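import Mathlib

namespace QWEP

open Matrix Kronecker

private def mX : Matrix (Fin 2) (Fin 2) ℂ := !![0, 1; 1, 0]

private def mZ : Matrix (Fin 2) (Fin 2) ℂ := !![1, 0; 0, -1]

private theorem mX_star : mXᴴ = mX := by
  ext i j
  fin_cases i <;> fin_cases j <;> simp [mX]

private theorem mZ_star : mZᴴ = mZ := by
  ext i j
  fin_cases i <;> fin_cases j <;> simp [mZ]

private theorem mX_sq : mX * mX = 1 := by
  ext i j
  fin_cases i <;> fin_cases j <;> simp [mX]

private theorem mZ_sq : mZ * mZ = 1 := by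
  ext i j
  fin_cases i <;> fin_cases j <;> simp [mZ]

private theorem mXZ : mX * mZ = -(mZ * mX) := by
  ext i j
  fin_cases i <;> fin_cases j <;> simp [mX, mZ]

private theorem kron_neg_right {κ : Type} (A : Matrix κ κ ℂ) (B : Matrix (Fin 2) (Fin 2) ℂ) :
    A ⊗ₖ (-B) = -(A ⊗ₖ B) := by
  ext ⟨i, i'⟩ ⟨j, j'⟩
  simp [Matrix.kroneckerMap_apply]

private theorem kron_neg_left {κ : Type} (A : Matrix κ κ ℂ) (B : Matrix (Fin 2) (Fin 2) ℂ) :
    (-A) ⊗ₖ B = -(A ⊗ₖ B) := by
  ext ⟨i, i'⟩ ⟨j, j'⟩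
  simp [Matrix.kroneckerMap_apply]

private theorem exists_gam_fin (n : ℕ) : ∃ (κ : Type) (_ : Fintype κ) (_ : DecidableEq κ) (_ : Nonempty κ)
    (γ : Fin n → Matrix κ κ ℂ), (∀ k, star (γ k) = γ k) ∧ (∀ k, γ k * γ k = 1) ∧
      ∀ k l, k ≠ l → γ k * γ l = -(γ l * γ k) := by
  induction n with
  | zero =>
    exact ⟨Unit, inferInstance, inferInstance, inferInstance, fun k => k.elim0, fun k => k.elim0,
      fun k => k.elim0, fun k => k.elim0⟩
  | succ n ih =>
    obtain ⟨κ, i1, i2, i3, γ, h1, h2, h3⟩ := ih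
    refine ⟨κ × Fin 2, inferInstance, inferInstance, inferInstance,
      Fin.cons ((1 : Matrix κ κ ℂ) ⊗ₖ mX) (fun k => γ k ⊗ₖ mZ), ?_, ?_, ?_⟩
    · intro k
      refine Fin.cases ?_ (fun k => ?_) k
      · rw [Fin.cons_zero, star_eq_conjTranspose, conjTranspose_kronecker, conjTranspose_one, mX_star]
      · rw [Fin.cons_succ, star_eq_conjTranspose, conjTranspose_kronecker, mZ_star,
          ← star_eq_conjTranspose, h1]
    · intro k
      refine Fin.cases ?_ (fun k => ?_) k
      · rw [Fin.cons_zero, ← mul_kronecker_mul, mX_sq, one_mul, one_kronecker_one]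
      · rw [Fin.cons_succ, ← mul_kronecker_mul, mZ_sq, h2, one_kronecker_one]
    · intro k l
      refine Fin.cases ?_ (fun k => ?_) k
      · refine Fin.cases ?_ (fun l => ?_) l
        · intro h
          exact absurd rfl h
        · intro _
          rw [Fin.cons_zero, Fin.cons_succ, ← mul_kronecker_mul, ← mul_kronecker_mul, mXZ, one_mul,
            mul_one, kron_neg_right]
      · refine Fin.cases ?_ (fun l => ?_) l
        · intro _
          rw [Fin.cons_zero, Fin.cons_succ, ← mul_kronecker_mul, ← mul_kronecker_mul, mXZ, one_mul,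
            mul_one, kron_neg_right, neg_neg]
        · intro h
          have hkl : k ≠ l := fun e => h (by rw [e])
          rw [Fin.cons_succ, Fin.cons_succ, ← mul_kronecker_mul, ← mul_kronecker_mul, h3 k l hkl,
            kron_neg_left]

theorem exists_gam (K : Type) [Fintype K] : ∃ (κ : Type) (_ : Fintype κ) (_ : DecidableEq κ) (_ : Nonempty κ)
    (γ : K → Matrix κ κ ℂ), (∀ k, star (γ k) = γ k) ∧ (∀ k, γ k * γ k = 1) ∧ ∀ k l, k ≠ l → γ k * γ l = -(γ l * γ k) := by
  classical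
  obtain ⟨κ, i1, i2, i3, γ, h1, h2, h3⟩ := exists_gam_fin (Fintype.card K)
  exact ⟨κ, i1, i2, i3, fun k => γ (Fintype.equivFin K k), fun k => h1 _, fun k => h2 _,
    fun k l hkl => h3 _ _ fun e => hkl ((Fintype.equivFin K).injective e)⟩

end QWEP
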