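import Pool.Agent.Lib.MP_47effe_an.Defs

/-!
# Tensor products of matrices over a finite set
-/

namespace QWEP

variable {K μ : Type} [Fintype K] [DecidableEq K] [Fintype μ] [DecidableEq μ]

/-- The tensor product of the matrices `M k`. -/
def pt (M : K → Matrix μ μ ℂ) : Matrix (K → μ) (K → μ) ℂ := fun a b => ∏ k, M k (a k) (b k)

/-- The matrix `M` in the tensor factor `k`. -/
def site (k : K) (M : Matrix μ μ ℂ) : Matrix (K → μ) (K → μ) ℂ := pt (Function.update (fun _ => 1) k M)

theorem pt_mul (M M' : K → Matrix μ μ ℂ) : pt M * pt M' = pt fun k => M k * M' k := by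
  ext a b
  rw [Matrix.mul_apply]
  change ∑ c : K → μ, (∏ k, M k (a k) (c k)) * ∏ k, M' k (c k) (b k) = ∏ k, (M k * M' k) (a k) (b k)
  simp only [Matrix.mul_apply, ← Finset.prod_mul_distrib]
  rw [Finset.prod_univ_sum, Fintype.piFinset_univ]

theorem pt_star (M : K → Matrix μ μ ℂ) : star (pt M) = pt fun k => star (M k) := by
  ext a b
  change star (∏ k, M k (b k) (a k)) = ∏ k, star (M k (b k) (a k))
  exact map_prod (starRingEnd ℂ) _ _

theorem pt_one : pt (fun _ : K => (1 : Matrix μ μ ℂ)) = 1 := by
  ext a b
  change ∏ k, (1 : Matrix μ μ ℂ) (a k) (b k) = (1 : Matrix (K → μ) (K → μ) ℂ) a b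
  by_cases h : a = b
  · subst h
    simp
  · obtain ⟨k, hk⟩ := Function.ne_iff.1 h
    rw [Matrix.one_apply_ne h]
    exact Finset.prod_eq_zero (Finset.mem_univ k) (Matrix.one_apply_ne hk)

theorem pt_unitary {M : K → Matrix μ μ ℂ} (h : ∀ k, M k ∈ unitary (Matrix μ μ ℂ)) : pt M ∈ unitary (Matrix (K → μ) (K → μ) ℂ) := by
  rw [Unitary.mem_iff, pt_star, pt_mul, pt_mul]
  constructor
  · simp only [fun k => Unitary.star_mul_self_of_mem (h k)]
    exact pt_one
  · simp only [fun k => Unitary.mul_star_self_of_mem (h k)]
    exact pt_one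

theorem ntr_pt (M : K → Matrix μ μ ℂ) : ntr (pt M) = ∏ k, ntr (M k) := by
  have h1 : (pt M).trace = ∏ k, (M k).trace := by
    change ∑ a : K → μ, ∏ k, M k (a k) (a k) = ∏ k, ∑ i, M k i i
    rw [Finset.prod_univ_sum, Fintype.piFinset_univ]
  simp only [ntr]
  rw [h1, Finset.prod_div_distrib, Finset.prod_const, Finset.card_univ, Fintype.card_fun, Nat.cast_pow]

private theorem site_apply (k : K) (M : Matrix μ μ ℂ) (a b : K → μ) :
    site k M a b = M (a k) (b k) * ∏ i ∈ ({k}ᶜ : Finset K), (1 : Matrix μ μ ℂ) (a i) (b i) := by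
  change ∏ i, (Function.update (fun _ => (1 : Matrix μ μ ℂ)) k M : K → Matrix μ μ ℂ) i (a i) (b i) = _
  rw [Fintype.prod_eq_mul_prod_compl k, Function.update_self]
  congr 1
  refine Finset.prod_congr rfl fun i hi => ?_
  have h : i ≠ k := by simpa using hi
  rw [Function.update_of_ne h]

theorem site_add (k : K) (M M' : Matrix μ μ ℂ) : site k (M + M') = site k M + site k M' := by
  ext a b
  rw [Matrix.add_apply, site_apply, site_apply, site_apply, Matrix.add_apply, add_mul]

theorem site_one (k : K) : site k (1 : Matrix μ μ ℂ) = 1 := by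
  have h : Function.update (fun _ : K => (1 : Matrix μ μ ℂ)) k 1 = fun _ => 1 :=
    Function.update_eq_self k (fun _ : K => (1 : Matrix μ μ ℂ))
  rw [site, h, pt_one]

theorem site_star (k : K) (M : Matrix μ μ ℂ) : star (site k M) = site k (star M) := by
  rw [site, pt_star, site]
  congr 1
  funext i
  by_cases h : i = k
  · subst h
    rw [Function.update_self, Function.update_self]
  · rw [Function.update_of_ne h, Function.update_of_ne h, star_one]

theorem site_mul (k : K) (M M' : Matrix μ μ ℂ) : site k M * site k M' = site k (M * M') := by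
  rw [site, site, pt_mul, site]
  congr 1
  funext i
  by_cases h : i = k
  · subst h
    rw [Function.update_self, Function.update_self, Function.update_self]
  · rw [Function.update_of_ne h, Function.update_of_ne h, Function.update_of_ne h, one_mul]

theorem site_comm {k l : K} (h : k ≠ l) (M M' : Matrix μ μ ℂ) : site k M * site l M' = site l M' * site k M := by
  rw [site, site, pt_mul, pt_mul]
  congr 1
  funext i
  by_cases h1 : i = k
  · subst h1
    rw [Function.update_self, Function.update_of_ne h, one_mul, mul_one]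
  · rw [Function.update_of_ne h1, one_mul, mul_one]

theorem site_conj {W : Matrix μ μ ℂ} (hW : W ∈ unitary (Matrix μ μ ℂ)) (k : K) (M : Matrix μ μ ℂ) :
    pt (fun _ => W) * site k M * star (pt fun _ => W) = site k (W * M * star W) := by
  rw [site, pt_mul, pt_star, pt_mul, site]
  congr 1
  funext i
  by_cases h : i = k
  · subst h
    rw [Function.update_self, Function.update_self]
  · rw [Function.update_of_ne h, Function.update_of_ne h, mul_one, Unitary.mul_star_self_of_mem hW]

private theorem ntr_one [Nonempty μ] : ntr (1 : Matrix μ μ ℂ) = 1 := by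
  rw [ntr, Matrix.trace_one]
  exact div_self (Nat.cast_ne_zero.2 Fintype.card_ne_zero)

theorem ntr_site_mul [Nonempty μ] {k l : K} (h : k ≠ l) (M M' : Matrix μ μ ℂ) :
    ntr (site k M * site l M') = ntr M * ntr M' := by
  rw [site, site, pt_mul, ntr_pt, Fintype.prod_eq_mul k l h, Function.update_self, Function.update_of_ne h,
    Function.update_self, Function.update_of_ne h.symm, mul_one, one_mul]
  rintro i ⟨h1, h2⟩
  rw [Function.update_of_ne h1, Function.update_of_ne h2, mul_one, ntr_one]

theorem ntr_site [Nonempty μ] (k : K) (M : Matrix μ μ ℂ) : ntr (site k M) = ntr M := by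
  rw [site, ntr_pt, Fintype.prod_eq_single k, Function.update_self]
  intro i hi
  rw [Function.update_of_ne hi, ntr_one]

end QWEP
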