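import Pool.Agent.Lib.MP_47effe_an.B.Uni
import Pool.Agent.Lib.MP_47effe_an.B.Gam
import Pool.Agent.Lib.MP_47effe_an.B.Pt
import Pool.Agent.Lib.MP_47effe_an.B.Flip

/-! The model of the Bernoulli shift by Clifford signs and flips. -/

namespace QWEP

private theorem nh_eq_of {κ μ : Type} [Fintype κ] [DecidableEq κ] [Fintype μ] [DecidableEq μ]
    {M : Matrix κ κ ℂ} {M' : Matrix μ μ ℂ} (h : ntr (star M * M) = ntr (star M' * M')) : nh M = nh M' := by
  rw [← nh_sq, ← nh_sq] at h
  have h1 : nh M ^ 2 = nh M' ^ 2 := by exact_mod_cast h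
  exact (sq_eq_sq₀ (nh_nonneg M) (nh_nonneg M')).1 h1

private theorem nh_site {K μ : Type} [Fintype K] [DecidableEq K] [Fintype μ] [DecidableEq μ] [Nonempty μ]
    (k : K) (M : Matrix μ μ ℂ) : nh (site k M) = nh M := by
  apply nh_eq_of
  rw [site_star, site_mul, ntr_site]

/-- The lemma for one site product. -/
theorem nh_pt_sub {K μ : Type} [Fintype K] [DecidableEq K] [Fintype μ] [DecidableEq μ] [Nonempty μ] {W W' : Matrix μ μ ℂ}
    (h : W ∈ unitary (Matrix μ μ ℂ)) (h' : W' ∈ unitary (Matrix μ μ ℂ)) :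
    nh (pt (fun _ : K => W) - pt fun _ => W') ≤ Fintype.card K * nh (W - W') := by
  classical
  have hone : (1 : Matrix μ μ ℂ) ∈ unitary (Matrix μ μ ℂ) := one_mem _
  have hst : ∀ s : Finset K, nh (pt (fun _ : K => W) - pt fun k => if k ∈ s then W' else W) ≤
      s.card * nh (W - W') := by
    intro s
    induction s using Finset.induction_on with
    | empty =>
      simp [nh_zero]
    | insert k s hk ih =>
      have e1 : ∀ X : Matrix μ μ ℂ, pt (Function.update (fun l : K => if l ∈ s then W' else W) k X) =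
          pt (Function.update (fun l : K => if l ∈ s then W' else W) k 1) * site k X := by
        intro X
        unfold site
        rw [pt_mul]
        congr 1
        funext l
        by_cases hl : l = k
        · subst hl
          simp
        · simp [Function.update_of_ne hl]
      have e2 : (fun l : K => if l ∈ s then W' else W) =
          Function.update (fun l : K => if l ∈ s then W' else W) k W := by
        funext l
        by_cases hl : l = k
        · subst hl
          simp [hk]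
        · simp [Function.update_of_ne hl]
      have e3 : (fun l : K => if l ∈ insert k s then W' else W) =
          Function.update (fun l : K => if l ∈ s then W' else W) k W' := by
        funext l
        by_cases hl : l = k
        · subst hl
          simp
        · simp [Finset.mem_insert, hl]
      have hU : pt (Function.update (fun l : K => if l ∈ s then W' else W) k 1) ∈
          unitary (Matrix (K → μ) (K → μ) ℂ) := by
        apply pt_unitary
        intro l
        by_cases hl : l = k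
        · subst hl
          simp only [Function.update_self]
          exact hone
        · rw [Function.update_of_ne hl]
          split_ifs
          · exact h'
          · exact h
      have e4 : pt (fun l : K => if l ∈ s then W' else W) - pt (fun l : K => if l ∈ insert k s then W' else W) =
          pt (Function.update (fun l : K => if l ∈ s then W' else W) k 1) * site k (W - W') := by
        have e5 : site k W = site k (W - W') + site k W' := by
          rw [← site_add, sub_add_cancel]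
        conv_lhs => rw [e2, e3, e1 W, e1 W', e5]
        rw [mul_add, add_sub_cancel_right]
      have e6 : nh (pt (fun l : K => if l ∈ s then W' else W) -
          pt (fun l : K => if l ∈ insert k s then W' else W)) = nh (W - W') := by
        rw [e4, nh_mul_left hU, nh_site]
      have e7 := nh_add_le (pt (fun _ : K => W) - pt fun k => if k ∈ s then W' else W)
        (pt (fun l : K => if l ∈ s then W' else W) - pt (fun l : K => if l ∈ insert k s then W' else W))
      rw [sub_add_sub_cancel, e6] at e7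
      rw [Finset.card_insert_of_notMem hk]
      push_cast
      linarith
  have := hst Finset.univ
  simpa using this

section kr

variable {κ μ : Type} [Fintype κ] [DecidableEq κ] [Fintype μ] [DecidableEq μ]

private def kr (A : Matrix κ κ ℂ) (B : Matrix μ μ ℂ) : Matrix (κ × μ) (κ × μ) ℂ := Matrix.kronecker A B

private theorem kr_mul (A A' : Matrix κ κ ℂ) (B B' : Matrix μ μ ℂ) :
    kr A B * kr A' B' = kr (A * A') (B * B') := (Matrix.mul_kronecker_mul A A' B B').symm

private theorem kr_star (A : Matrix κ κ ℂ) (B : Matrix μ μ ℂ) : star (kr A B) = kr (star A) (star B) :=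
  Matrix.conjTranspose_kronecker A B

private theorem kr_one : kr (1 : Matrix κ κ ℂ) (1 : Matrix μ μ ℂ) = 1 := Matrix.one_kronecker_one

private theorem kr_neg (A : Matrix κ κ ℂ) (B : Matrix μ μ ℂ) : kr (-A) B = -kr A B := by
  ext i j
  simp [kr, Matrix.kronecker, Matrix.kroneckerMap]

private theorem kr_sub (A : Matrix κ κ ℂ) (B B' : Matrix μ μ ℂ) : kr A (B - B') = kr A B - kr A B' := by
  ext i j
  simp [kr, Matrix.kronecker, Matrix.kroneckerMap, mul_sub]

private theorem kr_add (A : Matrix κ κ ℂ) (B B' : Matrix μ μ ℂ) : kr A (B + B') = kr A B + kr A B' := by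
  ext i j
  simp [kr, Matrix.kronecker, Matrix.kroneckerMap, mul_add]

private theorem ntr_kr (A : Matrix κ κ ℂ) (B : Matrix μ μ ℂ) : ntr (kr A B) = ntr A * ntr B := by
  have h : (kr A B).trace = A.trace * B.trace := Matrix.trace_kronecker A B
  unfold ntr
  rw [h, Fintype.card_prod]
  push_cast
  rw [mul_div_mul_comm]

private theorem nh_kr [Nonempty κ] (B : Matrix μ μ ℂ) : nh (kr (1 : Matrix κ κ ℂ) B) = nh B := by
  apply nh_eq_of
  rw [kr_star, kr_mul, star_one, mul_one, ntr_kr, ntr_one, one_mul]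

end kr

section aux

variable {κ : Type} [Fintype κ] [DecidableEq κ]

private theorem ntr_add' (M M' : Matrix κ κ ℂ) : ntr (M + M') = ntr M + ntr M' := by
  unfold ntr
  rw [Matrix.trace_add, add_div]

private theorem ntr_smul' (c : ℂ) (M : Matrix κ κ ℂ) : ntr (c • M) = c * ntr M := by
  unfold ntr
  rw [Matrix.trace_smul, smul_eq_mul, mul_div_assoc]

private theorem ntr_sum' {ι : Type} (s : Finset ι) (M : ι → Matrix κ κ ℂ) :
    ntr (∑ k ∈ s, M k) = ∑ k ∈ s, ntr (M k) := by
  unfold ntr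
  rw [Matrix.trace_sum, Finset.sum_div]

private theorem nh_unitary [Nonempty κ] {U : Matrix κ κ ℂ} (hU : U ∈ unitary (Matrix κ κ ℂ)) : nh U = 1 := by
  have h1 : nh (1 : Matrix κ κ ℂ) = 1 := by
    have h2 := nh_sq (1 : Matrix κ κ ℂ)
    rw [star_one, mul_one, ntr_one] at h2
    have h3 : nh (1 : Matrix κ κ ℂ) ^ 2 = 1 := by exact_mod_cast h2
    exact (pow_eq_one_iff_of_nonneg (nh_nonneg _) (by norm_num)).1 h3
  rw [← h1, ← mul_one U, nh_mul_left hU]

private theorem norm_ntr_unitary [Nonempty κ] {U : Matrix κ κ ℂ} (hU : U ∈ unitary (Matrix κ κ ℂ)) :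
    ‖ntr U‖ ≤ 1 := (norm_ntr_le U).trans (nh_unitary hU).le

end aux

section model

variable {κ K μ : Type} [Fintype κ] [DecidableEq κ] [Fintype K] [DecidableEq K] [Fintype μ] [DecidableEq μ]

private def XX (γ : K → Matrix κ κ ℂ) (p : K) (M : Matrix μ μ ℂ) : Matrix (κ × (K → μ)) (κ × (K → μ)) ℂ :=
  kr (γ p) (site p M)

private theorem XX_anti {γ : K → Matrix κ κ ℂ} (h1 : ∀ k, γ k * γ k = 1)
    (h2 : ∀ k l, k ≠ l → γ k * γ l = -(γ l * γ k)) (p q : K) (M M' : Matrix μ μ ℂ) :
    XX γ p M * XX γ q M' + XX γ q M' * XX γ p M =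
      if p = q then kr 1 (site p (M * M' + M' * M)) else 0 := by
  unfold XX
  rw [kr_mul, kr_mul]
  split_ifs with h
  · subst h
    rw [h1, site_mul, site_mul, ← kr_add, ← site_add]
  · rw [h2 p q h, site_comm h, kr_neg, neg_add_cancel]

private theorem XX_star {γ : K → Matrix κ κ ℂ} (h0 : ∀ k, star (γ k) = γ k) (p : K) (M : Matrix μ μ ℂ) :
    star (XX γ p M) = XX γ p (star M) := by
  unfold XX
  rw [kr_star, h0, site_star]

private theorem XX_conj (γ : K → Matrix κ κ ℂ) (p : K) {W : Matrix μ μ ℂ} (hW : W ∈ unitary (Matrix μ μ ℂ))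
    (M : Matrix μ μ ℂ) :
    kr 1 (pt fun _ : K => W) * XX γ p M * star (kr (1 : Matrix κ κ ℂ) (pt fun _ : K => W)) =
      XX γ p (W * M * star W) := by
  unfold XX
  rw [kr_star, kr_mul, kr_mul, star_one, one_mul, mul_one, site_conj hW]

end model

section model2

variable {κ μ J : Type} [Fintype κ] [DecidableEq κ] [Fintype J] [DecidableEq J] [Fintype μ] [DecidableEq μ]

private noncomputable def cc {N : ℕ} (γ : J × Fin N → Matrix κ κ ℂ) (j : J) (M : Matrix μ μ ℂ) :
    Matrix (κ × (J × Fin N → μ)) (κ × (J × Fin N → μ)) ℂ :=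
  (((√(N : ℝ))⁻¹ : ℝ) : ℂ) • ∑ k : Fin N, XX γ (j, k) M

private theorem cc_anti {N : ℕ} {γ : J × Fin N → Matrix κ κ ℂ} (h1 : ∀ k, γ k * γ k = 1)
    (h2 : ∀ k l, k ≠ l → γ k * γ l = -(γ l * γ k)) (j j' : J) (M M' : Matrix μ μ ℂ) :
    cc γ j M * cc γ j' M' + cc γ j' M' * cc γ j M =
      if j = j' then ((N : ℂ)⁻¹) • ∑ k : Fin N, kr 1 (site (j, k) (M * M' + M' * M)) else 0 := by
  have hs : (((√(N : ℝ))⁻¹ : ℝ) : ℂ) * (((√(N : ℝ))⁻¹ : ℝ) : ℂ) = (N : ℂ)⁻¹ := by
    rw [← Complex.ofReal_mul, ← mul_inv, Real.mul_self_sqrt (Nat.cast_nonneg N)]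
    simp
  unfold cc
  rw [smul_mul_smul_comm, smul_mul_smul_comm, hs, Finset.sum_mul_sum, Finset.sum_mul_sum, ← smul_add,
    Finset.sum_comm (s := Finset.univ) (t := Finset.univ) (f := fun k l : Fin N => XX γ (j', k) M' * XX γ (j, l) M),
    ← Finset.sum_add_distrib]
  have e : ∀ k : Fin N, (∑ l : Fin N, XX γ (j, k) M * XX γ (j', l) M' + ∑ l : Fin N, XX γ (j', l) M' * XX γ (j, k) M) =
      if j = j' then kr 1 (site (j, k) (M * M' + M' * M)) else 0 := by
    intro k
    rw [← Finset.sum_add_distrib]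
    simp only [XX_anti h1 h2]
    by_cases hj : j = j'
    · subst hj
      rw [if_pos rfl]
      simp
    · rw [if_neg hj]
      refine Finset.sum_eq_zero fun l _ => if_neg fun h => hj (Prod.ext_iff.1 h).1
  simp only [e]
  by_cases hj : j = j'
  · simp only [if_pos hj]
  · simp only [if_neg hj, Finset.sum_const_zero, smul_zero]

private theorem cc_star {N : ℕ} {γ : J × Fin N → Matrix κ κ ℂ} (h0 : ∀ k, star (γ k) = γ k) (j : J)
    (M : Matrix μ μ ℂ) : star (cc γ j M) = cc γ j (star M) := by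
  unfold cc
  rw [star_smul, star_sum]
  simp only [XX_star h0]
  congr 1
  exact Complex.conj_ofReal _

private theorem cc_conj {N : ℕ} (γ : J × Fin N → Matrix κ κ ℂ) (j : J) {W : Matrix μ μ ℂ}
    (hW : W ∈ unitary (Matrix μ μ ℂ)) (M : Matrix μ μ ℂ) :
    kr 1 (pt fun _ : J × Fin N => W) * cc γ j M * star (kr (1 : Matrix κ κ ℂ) (pt fun _ : J × Fin N => W)) =
      cc γ j (W * M * star W) := by
  unfold cc
  rw [mul_smul_comm, smul_mul_assoc, Finset.mul_sum, Finset.sum_mul]
  simp only [XX_conj γ _ hW]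

private theorem nh_D [Nonempty κ] [Nonempty μ] {N : ℕ} (hN : 0 < N) (j : J) {b : Matrix μ μ ℂ} (hb : star b = b)
    (h4 : ‖ntr (b * b)‖ ≤ 4) :
    nh (((N : ℂ)⁻¹) • ∑ k : Fin N, kr (1 : Matrix κ κ ℂ) (site (j, k) b)) ^ 2 ≤ 4 / N + ‖ntr b‖ ^ 2 := by
  have hN' : (0 : ℝ) < N := by exact_mod_cast hN
  obtain ⟨D, hD⟩ : ∃ D, D = ((N : ℂ)⁻¹) • ∑ k : Fin N, kr (1 : Matrix κ κ ℂ) (site (j, k) b) := ⟨_, rfl⟩
  rw [← hD]
  have hst : star D = D := by
    rw [hD, star_smul, star_sum]
    congr 1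
    · simp
    · refine Finset.sum_congr rfl fun k _ => ?_
      rw [kr_star, star_one, site_star, hb]
  have h1 := nh_sq D
  have h2 : ntr (star D * D) = ((N : ℂ)⁻¹ * (N : ℂ)⁻¹) *
      ∑ k : Fin N, ∑ l : Fin N, ntr (site (j, k) b * site (j, l) b) := by
    rw [hst, hD, smul_mul_smul_comm, Finset.sum_mul_sum, ntr_smul', ntr_sum']
    congr 1
    refine Finset.sum_congr rfl fun k _ => ?_
    rw [ntr_sum']
    refine Finset.sum_congr rfl fun l _ => ?_
    rw [kr_mul, mul_one, ntr_kr, ntr_one, one_mul]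
  have h3 : ∀ k l : Fin N, ‖ntr (site (j, k) b * site (j, l) b)‖ ≤ (if k = l then 4 else 0) + ‖ntr b‖ ^ 2 := by
    intro k l
    by_cases h : k = l
    · subst h
      rw [if_pos rfl, site_mul, ntr_site]
      have := sq_nonneg ‖ntr b‖
      linarith
    · have h' : (j, k) ≠ (j, l) := fun e => h (Prod.ext_iff.1 e).2
      rw [if_neg h, ntr_site_mul h', norm_mul, zero_add, sq]
  have h4 : ‖ntr (star D * D)‖ ≤ ((N : ℝ)⁻¹ * (N : ℝ)⁻¹) * (4 * N + N * N * ‖ntr b‖ ^ 2) := by
    rw [h2, norm_mul, norm_mul, norm_inv, Complex.norm_natCast]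
    refine mul_le_mul_of_nonneg_left ?_ (by positivity)
    refine (norm_sum_le _ _).trans ?_
    have h5 : ∀ k ∈ (Finset.univ : Finset (Fin N)), ‖∑ l : Fin N, ntr (site (j, k) b * site (j, l) b)‖ ≤
        4 + N * ‖ntr b‖ ^ 2 := by
      intro k _
      refine (norm_sum_le _ _).trans ?_
      refine (Finset.sum_le_sum fun l _ => h3 k l).trans ?_
      rw [Finset.sum_add_distrib, Finset.sum_ite_eq, if_pos (Finset.mem_univ k), Finset.sum_const,
        Finset.card_univ, Fintype.card_fin, nsmul_eq_mul]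
    refine (Finset.sum_le_sum h5).trans (le_of_eq ?_)
    rw [Finset.sum_const, Finset.card_univ, Fintype.card_fin, nsmul_eq_mul]
    ring
  have h5 : nh D ^ 2 ≤ ‖ntr (star D * D)‖ := by
    rw [← h1, Complex.norm_real]
    exact le_abs_self _
  refine h5.trans (h4.trans (le_of_eq ?_))
  field_simp

end model2

theorem exists_model {G : Type} [Group G] (hG : Hyperlinear G) (J : Type) [Fintype J] [DecidableEq J] (E : Finset G) {δ : ℝ}
    (hδ : 0 < δ) :
    ∃ (κ : Type) (_ : Fintype κ) (_ : DecidableEq κ) (_ : Nonempty κ) (c : J → Matrix κ κ ℂ) (V : G → Matrix κ κ ℂ),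
      (∀ j, star (c j) = c j) ∧ (∀ j, c j * c j = 1) ∧ (∀ g, V g ∈ unitary (Matrix κ κ ℂ)) ∧
        (∀ g ∈ E, ∀ h ∈ E, nh (V g * V h - V (g * h)) ≤ δ) ∧
          ∀ g ∈ E, ∀ h ∈ E, ∀ i j, (g, i) ≠ (h, j) →
            nh (V g * c i * star (V g) * (V h * c j * star (V h)) + V h * c j * star (V h) * (V g * c i * star (V g))) ≤ δ := by
  classical
  -- the parameters
  obtain ⟨N, hN⟩ := exists_nat_gt (8 / δ ^ 2)
  have hN0 : 0 < N := by
    have : (0 : ℝ) < N := lt_trans (by positivity) hN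
    exact_mod_cast this
  have hN' : (0 : ℝ) < N := by exact_mod_cast hN0
  obtain ⟨κ₀, i1, i2, i3, γ, g0, g1, g2⟩ := exists_gam (J × Fin N)
  obtain ⟨C, hC⟩ : ∃ C : ℝ, C = (Fintype.card (J × Fin N) : ℝ) := ⟨_, rfl⟩
  have hC0 : 0 ≤ C := by rw [hC]; positivity
  obtain ⟨δ', hδ'⟩ : ∃ δ' : ℝ, δ' = min (δ / 8) (δ / (C + 1)) := ⟨_, rfl⟩
  have hδ'0 : 0 < δ' := by rw [hδ']; exact lt_min (by positivity) (by positivity)
  have hδ'1 : δ' ≤ δ / 8 := by rw [hδ']; exact min_le_left _ _
  have hδ'2 : C * δ' ≤ δ := by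
    have h1 : δ' ≤ δ / (C + 1) := by rw [hδ']; exact min_le_right _ _
    have h2 : C * δ' ≤ C * (δ / (C + 1)) := mul_le_mul_of_nonneg_left h1 hC0
    have h3 : C * (δ / (C + 1)) ≤ δ := by
      rw [mul_div_assoc', div_le_iff₀ (by linarith)]
      nlinarith
    linarith
  obtain ⟨ν, j1, j2, j3, U, u1, u2, u3⟩ := exists_uni hG
    (E ∪ (E ×ˢ E).image fun p => p.1 * p.2⁻¹) hδ'0
  have hW : ∀ g, am (U g) ∈ unitary (Matrix (ν × ν) (ν × ν) ℂ) := fun g => am_unitary (u1 g)
  have hflp : flp ν ∈ unitary (Matrix (ν × ν) (ν × ν) ℂ) := by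
    rw [Unitary.mem_iff, flp_star, flp_sq]
    exact ⟨rfl, rfl⟩
  obtain ⟨a, ha⟩ : ∃ a : G → Matrix (ν × ν) (ν × ν) ℂ, a = fun g => am (U g) * flp ν * star (am (U g)) :=
    ⟨_, rfl⟩
  have hag : ∀ g, a g = am (U g) * flp ν * star (am (U g)) := fun g => by rw [ha]
  have haU : ∀ g, a g ∈ unitary (Matrix (ν × ν) (ν × ν) ℂ) := by
    intro g
    rw [hag]
    exact mul_mem (mul_mem (hW g) hflp) (Unitary.star_mem (hW g))
  have haS : ∀ g, star (a g) = a g := by
    intro g
    rw [hag, star_mul, star_mul, star_star, flp_star, mul_assoc]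
  refine ⟨κ₀ × (J × Fin N → ν × ν), inferInstance, inferInstance, inferInstance,
    fun j => cc γ j (flp ν), fun g => kr 1 (pt fun _ => am (U g)), ?_, ?_, ?_, ?_, ?_⟩
  · intro j
    rw [cc_star g0, flp_star]
  · intro j
    have h1 := cc_anti g1 g2 j j (flp ν) (flp ν)
    rw [if_pos rfl, flp_sq] at h1
    have h2 : ((N : ℂ)⁻¹) • ∑ k : Fin N, kr (1 : Matrix κ₀ κ₀ ℂ) (site (j, k) ((1 : Matrix (ν × ν) (ν × ν) ℂ) + 1)) =
        1 + 1 := by
      have h3 : ∀ k : Fin N, kr (1 : Matrix κ₀ κ₀ ℂ) (site (j, k) ((1 : Matrix (ν × ν) (ν × ν) ℂ) + 1)) = 1 + 1 := by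
        intro k
        rw [site_add, site_one, kr_add, kr_one]
      rw [Finset.sum_congr rfl fun k _ => h3 k, Finset.sum_const, Finset.card_univ, Fintype.card_fin,
        ← Nat.cast_smul_eq_nsmul ℂ, smul_smul, inv_mul_cancel₀ (by exact_mod_cast hN0.ne'), one_smul]
    rw [h2, ← two_smul ℂ, ← two_smul ℂ (1 : Matrix (κ₀ × (J × Fin N → ν × ν)) (κ₀ × (J × Fin N → ν × ν)) ℂ)] at h1
    exact smul_right_injective _ (two_ne_zero' ℂ) h1
  · intro g
    have h1 : (pt fun _ : J × Fin N => am (U g)) ∈ unitary (Matrix (J × Fin N → ν × ν) (J × Fin N → ν × ν) ℂ) :=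
      pt_unitary fun _ => hW g
    rw [Unitary.mem_iff] at h1 ⊢
    rw [kr_star, kr_mul, kr_mul, star_one, mul_one, h1.1, h1.2, kr_one]
    exact ⟨rfl, rfl⟩
  · intro g hg h hh
    have h1 : kr 1 (pt fun _ : J × Fin N => am (U g)) * kr 1 (pt fun _ => am (U h)) -
        kr 1 (pt fun _ => am (U (g * h))) = kr (1 : Matrix κ₀ κ₀ ℂ)
          ((pt fun _ : J × Fin N => am (U g * U h)) - pt fun _ => am (U (g * h))) := by
      rw [kr_mul, mul_one, pt_mul, am_mul, ← kr_sub]
    rw [h1, nh_kr]
    have h2 := nh_pt_sub (K := J × Fin N) (W := am (U g * U h)) (W' := am (U (g * h)))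
      (am_unitary (mul_mem (u1 g) (u1 h))) (hW _)
    rw [nh_am_sub, ← hC] at h2
    have h3 := u2 g (Finset.mem_union_left _ hg) h (Finset.mem_union_left _ hh)
    exact h2.trans ((mul_le_mul_of_nonneg_left h3 hC0).trans hδ'2)
  · intro g hg h hh i j hne
    rw [cc_conj γ i (hW g), cc_conj γ j (hW h), ← hag, ← hag, cc_anti g1 g2]
    by_cases hij : i = j
    · subst hij
      rw [if_pos rfl]
      have hgh : g ≠ h := fun e => hne (by rw [e])
      have hP : a g * a h ∈ unitary (Matrix (ν × ν) (ν × ν) ℂ) := mul_mem (haU g) (haU h)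
      have hQ : a h * a g ∈ unitary (Matrix (ν × ν) (ν × ν) ℂ) := mul_mem (haU h) (haU g)
      have hb : star (a g * a h + a h * a g) = a g * a h + a h * a g := by
        rw [star_add, star_mul, star_mul, haS, haS, add_comm]
      have h4 : ‖ntr ((a g * a h + a h * a g) * (a g * a h + a h * a g))‖ ≤ 4 := by
        rw [mul_add, add_mul, add_mul, ntr_add', ntr_add', ntr_add']
        have k1 := norm_ntr_unitary (mul_mem hP hP)
        have k2 := norm_ntr_unitary (mul_mem hQ hP)
        have k3 := norm_ntr_unitary (mul_mem hP hQ)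
        have k4 := norm_ntr_unitary (mul_mem hQ hQ)
        refine (norm_add_le _ _).trans ?_
        have k5 := norm_add_le (ntr (a g * a h * (a g * a h))) (ntr (a h * a g * (a g * a h)))
        have k6 := norm_add_le (ntr (a g * a h * (a h * a g))) (ntr (a h * a g * (a h * a g)))
        linarith
      have h5 := nh_D (κ := κ₀) hN0 i hb h4
      have h6 : ‖ntr (a g * a h + a h * a g)‖ ≤ 4 * δ' := by
        rw [ntr_add', ntr_mul_comm' (a h) (a g), ← two_mul, norm_mul, hag g, hag h, ntr_flip (u1 g) (u1 h), norm_mul]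
        have m1 : ‖ntr (star (U g) * U h)‖ ≤ 1 := norm_ntr_unitary (mul_mem (Unitary.star_mem (u1 g)) (u1 h))
        have m2 : ‖ntr (U g * star (U h))‖ ≤ 2 * δ' := by
          have n0 : g * h⁻¹ ∈ E ∪ (E ×ˢ E).image fun p => p.1 * p.2⁻¹ :=
            Finset.mem_union_right _ (Finset.mem_image.2 ⟨(g, h), Finset.mem_product.2 ⟨hg, hh⟩, rfl⟩)
          have n1 := u2 (g * h⁻¹) n0 h (Finset.mem_union_left _ hh)
          rw [inv_mul_cancel_right] at n1
          have n2 := u3 (g * h⁻¹) n0 (fun e => hgh (mul_inv_eq_one.1 e))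
          have n3 : (U (g * h⁻¹) * U h - U g) * star (U h) = U (g * h⁻¹) - U g * star (U h) := by
            rw [sub_mul, mul_assoc, (Unitary.mem_iff.1 (u1 h)).2, mul_one]
          have n4 : nh (U (g * h⁻¹) - U g * star (U h)) ≤ δ' := by
            rw [← n3, nh_mul_right (Unitary.star_mem (u1 h))]
            exact n1
          have n5 : ntr (U g * star (U h)) = ntr (U (g * h⁻¹)) - ntr (U (g * h⁻¹) - U g * star (U h)) := by
            rw [ntr_sub]; ring
          rw [n5]
          have n6 := norm_ntr_le (U (g * h⁻¹) - U g * star (U h))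
          refine (norm_sub_le _ _).trans ?_
          linarith
        have m3 : ‖ntr (U g * star (U h))‖ * ‖ntr (star (U g) * U h)‖ ≤ 2 * δ' * 1 :=
          mul_le_mul m2 m1 (norm_nonneg _) (by linarith)
        have m4 : ‖(2 : ℂ)‖ = 2 := by simp
        rw [m4]
        linarith
      have h7 : 4 / (N : ℝ) ≤ δ ^ 2 / 2 := by
        rw [div_lt_iff₀ (by positivity)] at hN
        rw [div_le_div_iff₀ hN' (by norm_num)]
        linarith
      have h8 : ‖ntr (a g * a h + a h * a g)‖ ^ 2 ≤ δ ^ 2 / 2 := by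
        have q1 : ‖ntr (a g * a h + a h * a g)‖ ≤ δ / 2 := by linarith
        have q2 := pow_le_pow_left₀ (norm_nonneg _) q1 2
        refine q2.trans ?_
        nlinarith [sq_nonneg δ]
      refine le_of_sq_le_sq ?_ hδ.le
      linarith
    · rw [if_neg hij, nh_zero]
      exact hδ.le

end QWEP
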