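import Pool.Agent.Lib.MP_47effe_an.B.App
import Pool.Agent.Lib.MP_47effe_an.Two

/-!
# Bernoulli shifts: words in the crossed product
-/

namespace QWEP

open Filter Topology

variable {D : Type} {κ : D → Type} [∀ d, Fintype (κ d)] [∀ d, DecidableEq (κ d)] [∀ d, Nonempty (κ d)]

private def cwp {G T : Type} (c : T → ∀ d, Matrix (κ d) (κ d) ℂ) (V : G → ∀ d, Matrix (κ d) (κ d) ℂ)
    (p : G × T) : ∀ d, Matrix (κ d) (κ d) ℂ := V p.1 * c p.2 * star (V p.1)

private def csh {G T : Type} [Group G] (g : G) (L : List (G × T)) : List (G × T) :=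
  L.map fun p => (g * p.1, p.2)

section

variable {G T : Type} [Group G] {l : Filter D} {c : T → ∀ d, Matrix (κ d) (κ d) ℂ}
  {V : G → ∀ d, Matrix (κ d) (κ d) ℂ}

private theorem cwp_unitary (hc : ∀ t, star (c t) = c t) (hc1 : ∀ t, c t * c t = 1)
    (hV : ∀ g, V g ∈ unitary (∀ d, Matrix (κ d) (κ d) ℂ)) (p : G × T) :
    cwp c V p ∈ unitary (∀ d, Matrix (κ d) (κ d) ℂ) := by
  have h : c p.2 ∈ unitary (∀ d, Matrix (κ d) (κ d) ℂ) := by
    rw [Unitary.mem_iff, hc, hc1]
    exact ⟨rfl, rfl⟩
  exact mul_mem (mul_mem (hV _) h) (Unitary.star_mem (hV _))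

private theorem cwp_star (hc : ∀ t, star (c t) = c t) (p : G × T) : star (cwp c V p) = cwp c V p := by
  unfold cwp
  rw [star_mul, star_mul, star_star, hc, mul_assoc]

private theorem cwl_unitary (hc : ∀ t, star (c t) = c t) (hc1 : ∀ t, c t * c t = 1)
    (hV : ∀ g, V g ∈ unitary (∀ d, Matrix (κ d) (κ d) ℂ)) (L : List (G × T)) :
    (L.map (cwp c V)).prod ∈ unitary (∀ d, Matrix (κ d) (κ d) ℂ) := by
  induction L with
  | nil =>
    rw [List.map_nil, List.prod_nil]
    exact one_mem _
  | cons p L ih =>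
    rw [List.map_cons, List.prod_cons]
    exact mul_mem (cwp_unitary hc hc1 hV p) ih

private theorem cwl_star (hc : ∀ t, star (c t) = c t) (L : List (G × T)) :
    star (L.map (cwp c V)).prod = (L.reverse.map (cwp c V)).prod := by
  induction L with
  | nil =>
    rw [List.reverse_nil, List.map_nil, List.prod_nil, star_one]
  | cons p L ih =>
    rw [List.map_cons, List.prod_cons, star_mul, ih, cwp_star hc, List.reverse_cons, List.map_append,
      List.prod_append, List.map_singleton, List.prod_singleton]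

private theorem cw_one (hV : ∀ g, V g ∈ unitary (∀ d, Matrix (κ d) (κ d) ℂ))
    (hVm : ∀ g h, Ap l (V g * V h) (V (g * h))) : Ap l (V 1) 1 := by
  have h1 := hVm 1 1
  rw [mul_one] at h1
  have h2 := Ap.mul h1 (Ap.refl (star (V 1))) (hV 1) (Unitary.star_mem (hV 1))
  rwa [mul_assoc, (Unitary.mem_iff.1 (hV 1)).2, mul_one] at h2

private theorem cw_inv (hV : ∀ g, V g ∈ unitary (∀ d, Matrix (κ d) (κ d) ℂ))
    (hVm : ∀ g h, Ap l (V g * V h) (V (g * h))) (g : G) : Ap l (star (V g)) (V g⁻¹) := by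
  have h1 := hVm g g⁻¹
  rw [mul_inv_cancel] at h1
  have h2 := h1.trans (cw_one hV hVm)
  have h3 := Ap.mul (Ap.refl (star (V g))) h2 (Unitary.star_mem (hV g)) (mul_mem (hV g) (hV g⁻¹))
  rw [← mul_assoc, (Unitary.mem_iff.1 (hV g)).1, one_mul, mul_one] at h3
  exact h3.symm

private theorem cw_letter (hc : ∀ t, star (c t) = c t) (hc1 : ∀ t, c t * c t = 1)
    (hV : ∀ g, V g ∈ unitary (∀ d, Matrix (κ d) (κ d) ℂ))
    (hVm : ∀ g h, Ap l (V g * V h) (V (g * h))) (g : G) (p : G × T) :
    Ap l (V g * cwp c V p) (cwp c V (g * p.1, p.2) * V g) := by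
  have hcu : c p.2 ∈ unitary (∀ d, Matrix (κ d) (κ d) ℂ) := by
    rw [Unitary.mem_iff, hc, hc1]
    exact ⟨rfl, rfl⟩
  have h1 : Ap l (V (g * p.1)) (V g * V p.1) := (hVm g p.1).symm
  have h2 : Ap l (star (V (g * p.1))) (star (V g * V p.1)) := h1.star
  have h3 : Ap l (V (g * p.1) * c p.2) (V g * V p.1 * c p.2) :=
    Ap.mul h1 (Ap.refl _) (mul_mem (hV _) (hV _)) hcu
  have h4 : Ap l (V (g * p.1) * c p.2 * star (V (g * p.1)))
      (V g * V p.1 * c p.2 * star (V g * V p.1)) :=
    Ap.mul h3 h2 (mul_mem (mul_mem (hV _) (hV _)) hcu) (Unitary.star_mem (hV _))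
  have h5 : Ap l (V (g * p.1) * c p.2 * star (V (g * p.1)) * V g)
      (V g * V p.1 * c p.2 * star (V g * V p.1) * V g) :=
    Ap.mul h4 (Ap.refl _) (mul_mem (mul_mem (mul_mem (hV _) (hV _)) hcu)
      (Unitary.star_mem (mul_mem (hV _) (hV _)))) (hV _)
  have h6 : V g * V p.1 * c p.2 * star (V g * V p.1) * V g = V g * cwp c V p := by
    unfold cwp
    rw [star_mul]
    simp only [mul_assoc]
    rw [(Unitary.mem_iff.1 (hV g)).1, mul_one]
  rw [h6] at h5
  exact h5.symm

private theorem cw_list (hc : ∀ t, star (c t) = c t) (hc1 : ∀ t, c t * c t = 1)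
    (hV : ∀ g, V g ∈ unitary (∀ d, Matrix (κ d) (κ d) ℂ))
    (hVm : ∀ g h, Ap l (V g * V h) (V (g * h))) (g : G) (L : List (G × T)) :
    Ap l (V g * (L.map (cwp c V)).prod) (((csh g L).map (cwp c V)).prod * V g) := by
  induction L with
  | nil =>
    unfold csh
    rw [List.map_nil, List.map_nil, List.map_nil, List.prod_nil, mul_one, one_mul]
    exact Ap.refl _
  | cons p L ih =>
    have hu := cwl_unitary hc hc1 hV
    have hp := cwp_unitary hc hc1 hV
    have e1 : ((csh g (p :: L)).map (cwp c V)).prod =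
        cwp c V (g * p.1, p.2) * ((csh g L).map (cwp c V)).prod := by
      unfold csh
      rw [List.map_cons, List.map_cons, List.prod_cons]
    rw [e1, List.map_cons, List.prod_cons, ← mul_assoc, mul_assoc (cwp c V (g * p.1, p.2))]
    have h1 := Ap.mul (cw_letter hc hc1 hV hVm g p) (Ap.refl (L.map (cwp c V)).prod)
      (mul_mem (hp _) (hV g)) (hu L)
    have h2 := Ap.mul (Ap.refl (cwp c V (g * p.1, p.2))) ih (hp _) (mul_mem (hV g) (hu L))
    rw [mul_assoc] at h1
    rw [mul_assoc] at h1 ⊢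
    exact h1.trans h2

end

section

variable {A G T : Type} [CStarAlgebra A] [Group G] (α : G →* (A ≃⋆ₐ[ℂ] A)) (e : T → A)

private def ca (p : G × T) : A := α p.1 (e p.2)

private theorem ca_list (g : G) (L : List (G × T)) :
    α g (L.map (ca α e)).prod = ((csh g L).map (ca α e)).prod := by
  induction L with
  | nil =>
    unfold csh
    rw [List.map_nil, List.map_nil, List.map_nil, List.prod_nil, map_one]
  | cons p L ih =>
    have e1 : ((csh g (p :: L)).map (ca α e)).prod =
        ca α e (g * p.1, p.2) * ((csh g L).map (ca α e)).prod := by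
      unfold csh
      rw [List.map_cons, List.map_cons, List.prod_cons]
    rw [e1, List.map_cons, List.prod_cons, map_mul, ih]
    congr 1
    unfold ca
    rw [map_mul]
    rfl

private theorem ca_star {e : T → A} (he : ∀ t, star (e t) = e t) (L : List (G × T)) :
    star (L.map (ca α e)).prod = (L.reverse.map (ca α e)).prod := by
  induction L with
  | nil =>
    rw [List.reverse_nil, List.map_nil, List.prod_nil, star_one]
  | cons p L ih =>
    have h1 : star (ca α e p) = ca α e p := by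
      unfold ca
      rw [← map_star, he]
    rw [List.map_cons, List.prod_cons, star_mul, ih, h1, List.reverse_cons, List.map_append,
      List.prod_append, List.map_singleton, List.prod_singleton]

end

theorem crw_list {A G T ι : Type} [CStarAlgebra A] [Group G] (α : G →* (A ≃⋆ₐ[ℂ] A)) {l : Filter D} (e : T → A)
    (he : ∀ t, star (e t) = e t) (c : T → ∀ d, Matrix (κ d) (κ d) ℂ) (hc : ∀ t, star (c t) = c t) (hc1 : ∀ t, c t * c t = 1)
    (V : G → ∀ d, Matrix (κ d) (κ d) ℂ) (hV : ∀ g, V g ∈ unitary (∀ d, Matrix (κ d) (κ d) ℂ))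
    (hVm : ∀ g h, Ap l (V g * V h) (V (g * h))) (z : ι → Cr α) (L : ι → List (G × T))
    (hL : ∀ i, (z i).x = ((L i).map fun p => α p.1 (e p.2)).prod) (w : List (ι × Bool)) :
    ∃ M : List (G × T), (ev Cr.st z w).x = (M.map fun p => α p.1 (e p.2)).prod ∧
      Ap l (ev star (fun i => ((L i).map fun p => V p.1 * c p.2 * star (V p.1)).prod * V (z i).g) w)
        ((M.map fun p => V p.1 * c p.2 * star (V p.1)).prod * V (ev Cr.st z w).g) := by
  have hL' : ∀ i, (z i).x = ((L i).map (ca α e)).prod := hL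
  have hu := cwl_unitary hc hc1 hV
  set Z : ι → ∀ d, Matrix (κ d) (κ d) ℂ := fun i => ((L i).map (cwp c V)).prod * V (z i).g with hZ
  have hZu : ∀ i, Z i ∈ unitary (∀ d, Matrix (κ d) (κ d) ℂ) := fun i => mul_mem (hu _) (hV _)
  have hevu : ∀ w : List (ι × Bool), ev star Z w ∈ unitary (∀ d, Matrix (κ d) (κ d) ℂ) := by
    intro w
    induction w with
    | nil =>
      rw [ev_nil]
      exact one_mem _
    | cons p w ih =>
      rw [ev_cons]
      refine mul_mem ?_ ih
      split_ifs
      · exact Unitary.star_mem (hZu _)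
      · exact hZu _
  have hletter : ∀ p : ι × Bool, ∃ M : List (G × T),
      (if p.2 then Cr.st (z p.1) else z p.1).x = (M.map (ca α e)).prod ∧
      Ap l (if p.2 then star (Z p.1) else Z p.1)
        ((M.map (cwp c V)).prod * V (if p.2 then Cr.st (z p.1) else z p.1).g) := by
    intro p
    by_cases hp : p.2 = true
    · refine ⟨csh (z p.1).g⁻¹ (L p.1).reverse, ?_, ?_⟩
      · rw [if_pos hp, Cr.st_x, hL', ca_star α he, ca_list]
      · rw [if_pos hp, if_pos hp, Cr.st_g]
        have h1 : star (Z p.1) = star (V (z p.1).g) * ((L p.1).reverse.map (cwp c V)).prod := by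
          rw [hZ]
          beta_reduce
          rw [star_mul, cwl_star hc]
        rw [h1]
        have h2 := Ap.mul (cw_inv hV hVm (z p.1).g) (Ap.refl ((L p.1).reverse.map (cwp c V)).prod)
          (hV _) (hu _)
        exact h2.trans (cw_list hc hc1 hV hVm _ _)
    · refine ⟨L p.1, ?_, ?_⟩
      · rw [if_neg hp, hL']
      · rw [if_neg hp, if_neg hp]
        exact Ap.refl _
  change ∃ M : List (G × T), (ev Cr.st z w).x = (M.map (ca α e)).prod ∧
      Ap l (ev star Z w) ((M.map (cwp c V)).prod * V (ev Cr.st z w).g)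
  induction w with
  | nil =>
    refine ⟨[], ?_, ?_⟩
    · rw [ev_nil, Cr.one_x, List.map_nil, List.prod_nil]
    · rw [ev_nil, ev_nil, Cr.one_g, List.map_nil, List.prod_nil, one_mul]
      exact (cw_one hV hVm).symm
  | cons p w ih =>
    obtain ⟨M', hM', hA'⟩ := ih
    obtain ⟨M, hM, hA⟩ := hletter p
    refine ⟨M ++ csh (if p.2 then Cr.st (z p.1) else z p.1).g M', ?_, ?_⟩
    · rw [ev_cons, Cr.mul_x, hM, hM', ca_list, List.map_append, List.prod_append]
    · rw [ev_cons, ev_cons, Cr.mul_g, List.map_append, List.prod_append]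
      generalize (if p.2 then Cr.st (z p.1) else z p.1).g = g1 at *
      generalize (ev Cr.st z w).g = g2 at *
      have h1 := Ap.mul hA hA' (mul_mem (hu _) (hV _)) (hevu w)
      have h2 := Ap.mul (cw_list hc hc1 hV hVm g1 M') (Ap.refl (V g2)) (mul_mem (hu _) (hV _)) (hV g2)
      have h3 := Ap.mul (Ap.refl ((csh g1 M').map (cwp c V)).prod) (hVm g1 g2) (hu _)
        (mul_mem (hV _) (hV _))
      rw [mul_assoc (((csh g1 M').map (cwp c V)).prod)] at h2
      have h4 := Ap.mul (Ap.refl (M.map (cwp c V)).prod) (h2.trans h3) (hu _)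
        (mul_mem (mul_mem (hV _) (hu _)) (hV _))
      have h5 : (M.map (cwp c V)).prod * V g1 * ((M'.map (cwp c V)).prod * V g2) =
          (M.map (cwp c V)).prod * (V g1 * (M'.map (cwp c V)).prod * V g2) := by
        simp only [mul_assoc]
      rw [h5] at h1
      rw [mul_assoc]
      exact h1.trans h4

end QWEP
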