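import Pool.Agent.Lib.MP_47effe_an.Two

/-! Kaplansky density in the 2-norm: the cut of an element at norm one is its nearest point in the unit ball. -/

namespace QWEP

open scoped ComplexOrder InnerProductSpace

section kap

variable {A : Type} [CStarAlgebra A] {τ : A →ₗ[ℂ] ℂ}

private lemma k_cs (hτ : TracialState τ) (a b : A) : ‖τ (star a * b)‖ ≤ n2 τ a * n2 τ b := by
  obtain ⟨_, _, f, hf⟩ := exists_pos hτ
  have h1 : ∀ x, n2 τ x = ‖f.toPreGNS x‖ := fun x => by rw [gns_norm, hf]; rfl
  have h2 : τ (star a * b) = ⟪f.toPreGNS a, f.toPreGNS b⟫_ℂ := by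
    rw [PositiveLinearMap.preGNS_inner_def]
    simp [hf]
  rw [h1, h1, h2]
  exact norm_inner_le_norm _ _

private lemma k_smul (hτ : TracialState τ) (c : ℂ) (a : A) : n2 τ (c • a) = ‖c‖ * n2 τ a := by
  obtain ⟨_, _, f, hf⟩ := exists_pos hτ
  have h1 : ∀ x, n2 τ x = ‖f.toPreGNS x‖ := fun x => by rw [gns_norm, hf]; rfl
  rw [h1, h1, map_smul, norm_smul]

private lemma k_sq (hτ : TracialState τ) (x : A) : n2 τ x ^ 2 = (τ (star x * x)).re :=
  Real.sq_sqrt (Complex.nonneg_iff.1 (hτ.pos x)).1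

private lemma k_norm (hτ : TracialState τ) (x : A) : n2 τ x ≤ ‖x‖ := by
  have h1 := n2_left hτ x 1
  have h2 : n2 τ 1 = 1 := by
    rw [n2, star_one, one_mul, hτ.one]
    simp
  rwa [mul_one, h2, mul_one] at h1

private noncomputable def km (t : ℝ) : ℝ := max √t 1

private lemma km_one (t : ℝ) : 1 ≤ km t := le_max_right _ _

private lemma km_cont : Continuous km := Real.continuous_sqrt.max continuous_const

private noncomputable def kk (t : ℝ) : ℝ := √(km t - 1)

private lemma kk_cont : Continuous kk := Real.continuous_sqrt.comp (km_cont.sub continuous_const)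

private noncomputable def kf (t : ℝ) : ℝ := 1 / km t

private lemma kf_cont : Continuous kf :=
  continuous_const.div km_cont fun t => by have := km_one t; positivity

private noncomputable def kl (t : ℝ) : ℝ := kk t / km t

private lemma kl_cont : Continuous kl :=
  kk_cont.div km_cont fun t => by have := km_one t; positivity

private lemma kk_sq (t : ℝ) : kk t * kk t = km t - 1 :=
  Real.mul_self_sqrt (by have := km_one t; linarith)

private lemma km_key {t : ℝ} (ht : 0 ≤ t) : (km t - 1) * t = (km t - 1) * km t ^ 2 := by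
  unfold km
  rcases le_total 1 √t with h | h
  · rw [max_eq_left h, Real.sq_sqrt ht]
  · rw [max_eq_right h]
    ring

private lemma k_cut (hτ : TracialState τ) (S : StarSubalgebra ℂ A) {y : A} (hy : y ∈ S) {x : A} (hx : ‖x‖ ≤ 1) :
    ∃ z ∈ S.topologicalClosure, ‖z‖ ≤ 1 ∧ n2 τ (x - z) ≤ n2 τ (x - y) := by
  have hsa : IsSelfAdjoint (star y * y) := IsSelfAdjoint.star_mul_self y
  have hsp : ∀ t ∈ spectrum ℝ (star y * y), 0 ≤ t := spectrum_star_mul_self_nonneg
  set h := star y * y with hh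
  set K := cfc kk h with hK
  set L := cfc kl h with hL
  set Φ := cfc kf h with hΦ
  have sK : star K = K := (cfc_predicate kk h : IsSelfAdjoint K)
  have sL : star L = L := (cfc_predicate kl h : IsSelfAdjoint L)
  have sΦ : star Φ = Φ := (cfc_predicate kf h : IsSelfAdjoint Φ)
  have hid : h = cfc (fun t : ℝ => t) h := (cfc_id' ℝ h hsa).symm
  have e1 : L * K = 1 - Φ := by
    rw [hL, hK, ← cfc_mul kl kk h kl_cont.continuousOn kk_cont.continuousOn, hΦ,
      ← cfc_const_one ℝ h hsa, ← cfc_sub (fun _ : ℝ => (1 : ℝ)) kf h continuousOn_const kf_cont.continuousOn]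
    refine cfc_congr fun t _ => ?_
    have h1 := kk_sq t
    have h2 := km_one t
    have h3 : km t ≠ 0 := by positivity
    simp only [kl, kf]
    field_simp
    linarith
  have e1' : K * L = 1 - Φ := by
    rw [← e1, hL, hK]
    exact cfc_commute_cfc kk kl h
  have hprod : ∀ f g : ℝ → ℝ, Continuous f → Continuous g →
      cfc f h * h * cfc g h = cfc (fun t => f t * t * g t) h := by
    intro f g hf hg
    calc cfc f h * h * cfc g h = cfc f h * cfc (fun t : ℝ => t) h * cfc g h := by rw [← hid]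
      _ = cfc (fun t => f t * t) h * cfc g h := by
          rw [← cfc_mul f (fun t : ℝ => t) h hf.continuousOn continuousOn_id]
      _ = cfc (fun t => f t * t * g t) h :=
          (cfc_mul (fun t => f t * t) g h (hf.mul continuous_id).continuousOn hg.continuousOn).symm
  have eKK : K * K = cfc (fun t => kk t * kk t) h :=
    (cfc_mul kk kk h kk_cont.continuousOn kk_cont.continuousOn).symm
  have e2 : L * h * L = K * K := by
    rw [hL, hprod kl kl kl_cont kl_cont, eKK]
    refine cfc_congr fun t ht => ?_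
    have h1 := kk_sq t
    have h2 := km_one t
    have h3 : km t ≠ 0 := by positivity
    have h4 := km_key (hsp t ht)
    simp only [kl]
    have h5 : kk t / km t * t * (kk t / km t) = (kk t * kk t) * t / km t ^ 2 := by
      field_simp
    rw [h5, h1, h4, mul_div_assoc, div_self (pow_ne_zero 2 h3), mul_one]
  have e3 : (1 - Φ) * h * Φ = K * K := by
    have h6 : 1 - Φ = cfc (fun t => 1 - kf t) h := by
      rw [hΦ, ← cfc_const_one ℝ h hsa,
        ← cfc_sub (fun _ : ℝ => (1 : ℝ)) kf h continuousOn_const kf_cont.continuousOn]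
    rw [h6, hΦ, hprod (fun t => 1 - kf t) kf (continuous_const.sub kf_cont) kf_cont, eKK]
    refine cfc_congr fun t ht => ?_
    have h1 := kk_sq t
    have h2 := km_one t
    have h3 : km t ≠ 0 := by positivity
    have h4 := km_key (hsp t ht)
    simp only [kf]
    rw [h1]
    have h5 : (1 - 1 / km t) * t * (1 / km t) = (km t - 1) * t / km t ^ 2 := by
      field_simp
    rw [h5, h4, mul_div_assoc, div_self (pow_ne_zero 2 h3), mul_one]
  have e3' : Φ * h * (1 - Φ) = K * K := by
    have h6 := congrArg star e3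
    rw [star_mul, star_mul, star_sub, star_one, sΦ, star_mul K K, sK, hsa.star_eq] at h6
    rw [mul_assoc]
    exact h6
  have hz1 : ‖y * Φ‖ ≤ 1 := by
    have h1 : ‖y * Φ‖ * ‖y * Φ‖ ≤ 1 := by
      rw [← CStarRing.norm_star_mul_self]
      have h2 : star (y * Φ) * (y * Φ) = Φ * h * Φ := by
        rw [star_mul, sΦ, hh]
        simp only [mul_assoc]
      rw [h2, hΦ, hprod kf kf kf_cont kf_cont]
      refine norm_cfc_le zero_le_one fun t ht => ?_
      have h2 := km_one t
      have ht0 := hsp t ht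
      have h3 : t ≤ km t ^ 2 := by
        have h4 : √t ≤ km t := le_max_left _ _
        calc t = √t ^ 2 := (Real.sq_sqrt ht0).symm
          _ ≤ km t ^ 2 := pow_le_pow_left₀ (Real.sqrt_nonneg t) h4 2
      have h5 : kf t * t * kf t = t / km t ^ 2 := by
        simp only [kf]
        field_simp
      rw [h5, Real.norm_of_nonneg (by positivity), div_le_one (by positivity)]
      exact h3
    nlinarith [norm_nonneg (y * Φ)]
  refine ⟨y * Φ, ?_, hz1, ?_⟩
  · have hyc : y ∈ S.topologicalClosure := S.le_topologicalClosure hy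
    have hhc : h ∈ S.topologicalClosure := mul_mem (star_mem hyc) hyc
    haveI : IsClosed (S.topologicalClosure : Set A) := S.isClosed_topologicalClosure
    exact mul_mem hyc (cfc_mem (𝕜 := ℝ) (𝕜' := ℂ) kf hhc)
  · set z := y * Φ with hz
    set d := y - z with hd
    have hdy : d = y * (1 - Φ) := by rw [hd, hz, mul_sub, mul_one]
    have nK : n2 τ K ^ 2 = (τ (K * K)).re := by rw [k_sq hτ, sK]
    have nyL : n2 τ (y * L) = n2 τ K := by
      rw [n2, n2, sK, star_mul, sL]
      have h1 : L * star y * (y * L) = K * K := by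
        rw [← e2, hh]
        simp only [mul_assoc]
      rw [h1]
    have nxK : n2 τ (x * K) ≤ n2 τ K := by
      have h1 := n2_left hτ x K
      have h2 := n2_nonneg (τ := τ) K
      nlinarith
    have hKK : n2 τ (y * L) * n2 τ (x * K) ≤ (τ (K * K)).re := by
      rw [← nK, nyL, pow_two]
      exact mul_le_mul_of_nonneg_left nxK (n2_nonneg _)
    have c1 : (τ (star d * x)).re ≤ (τ (K * K)).re := by
      have h1 : τ (star d * x) = τ (star (y * L) * (x * K)) := by
        have h2 : star d * x = K * (L * star y * x) := by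
          rw [hdy, ← e1, star_mul, star_mul, sK, sL]
          simp only [mul_assoc]
        rw [h2, hτ.comm, star_mul, sL]
        simp only [mul_assoc]
      rw [h1]
      exact ((Complex.re_le_norm _).trans (k_cs hτ _ _)).trans hKK
    have c2 : (τ (star x * d)).re ≤ (τ (K * K)).re := by
      have h1 : τ (star x * d) = τ (star (x * K) * (y * L)) := by
        have h2 : star x * d = (star x * (y * L)) * K := by
          rw [hdy, ← e1]
          simp only [mul_assoc]
        rw [h2, hτ.comm, star_mul, sK]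
        simp only [mul_assoc]
      rw [h1]
      refine ((Complex.re_le_norm _).trans (k_cs hτ _ _)).trans ?_
      rw [mul_comm]
      exact hKK
    have c3 : star d * z = K * K := by
      rw [hdy, hz, star_mul, star_sub, star_one, sΦ, ← e3, hh]
      simp only [mul_assoc]
    have c4 : star z * d = K * K := by
      rw [hdy, hz, star_mul, sΦ, ← e3', hh]
      simp only [mul_assoc]
    have hexp : n2 τ (x - y) ^ 2 = n2 τ (x - z) ^ 2 + n2 τ d ^ 2 - (τ (star d * x)).re
        - (τ (star x * d)).re + (τ (star d * z)).re + (τ (star z * d)).re := by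
      rw [k_sq hτ, k_sq hτ, k_sq hτ]
      have h1 : star (x - y) * (x - y) = star (x - z) * (x - z) + star d * d - star d * x
          - star x * d + star d * z + star z * d := by
        rw [hd]
        simp only [star_sub, sub_mul, mul_sub]
        abel
      rw [h1]
      simp only [map_add, map_sub, Complex.add_re, Complex.sub_re]
    rw [c3, c4] at hexp
    have h5 : n2 τ (x - z) ^ 2 ≤ n2 τ (x - y) ^ 2 := by
      nlinarith [sq_nonneg (n2 τ d)]
    exact le_of_sq_le_sq h5 (n2_nonneg _)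

private lemma k_one (hτ : TracialState τ) (S : StarSubalgebra ℂ A)
    (hS : ∀ (y : A) (ε : ℝ), 0 < ε → ∃ y' ∈ S, n2 τ (y - y') ≤ ε) {x : A} (hx : ‖x‖ ≤ 1) {ε : ℝ} (hε : 0 < ε) :
    ∃ y ∈ S, ‖y‖ ≤ 1 ∧ n2 τ (x - y) ≤ ε := by
  obtain ⟨y, hy, hxy⟩ := hS x (ε / 2) (by linarith)
  obtain ⟨z, hz, hz1, hxz⟩ := k_cut hτ S hy hx
  obtain ⟨w, hw, hzw⟩ := Metric.mem_closure_iff.1 (show z ∈ closure (S : Set A) from hz) (ε / 4) (by linarith)
  rw [dist_eq_norm] at hzw
  have hw1 : ‖w‖ ≤ 1 + ε / 4 := by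
    have h1 : ‖w‖ ≤ ‖z‖ + ‖z - w‖ := by
      have := norm_sub_le z (z - w)
      rwa [sub_sub_cancel] at this
    linarith
  refine ⟨((1 / (1 + ε / 4) : ℝ) : ℂ) • w, S.smul_mem hw _, ?_, ?_⟩
  · rw [norm_smul, Complex.norm_real, Real.norm_of_nonneg (by positivity), one_div_mul_eq_div,
      div_le_one (by positivity)]
    exact hw1
  · have h1 : x - ((1 / (1 + ε / 4) : ℝ) : ℂ) • w =
        (x - z) + ((z - w) + ((1 - 1 / (1 + ε / 4) : ℝ) : ℂ) • w) := by
      have h2 : ((1 - 1 / (1 + ε / 4) : ℝ) : ℂ) • w = w - ((1 / (1 + ε / 4) : ℝ) : ℂ) • w := by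
        rw [Complex.ofReal_sub, sub_smul, Complex.ofReal_one, one_smul]
      rw [h2]
      abel
    have h3 : n2 τ (((1 - 1 / (1 + ε / 4) : ℝ) : ℂ) • w) ≤ ε / 4 := by
      refine (k_norm hτ _).trans ?_
      have h4 : 1 - 1 / (1 + ε / 4) = (ε / 4) / (1 + ε / 4) := by
        field_simp
        ring
      rw [norm_smul, Complex.norm_real, h4, Real.norm_of_nonneg (by positivity), div_mul_eq_mul_div,
        div_le_iff₀ (by positivity)]
      exact mul_le_mul_of_nonneg_left hw1 (by positivity)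
    rw [h1]
    have h5 := n2_add hτ (x - z) ((z - w) + ((1 - 1 / (1 + ε / 4) : ℝ) : ℂ) • w)
    have h6 := n2_add hτ (z - w) (((1 - 1 / (1 + ε / 4) : ℝ) : ℂ) • w)
    have h7 := k_norm hτ (z - w)
    linarith

end kap

theorem kap {A : Type} [CStarAlgebra A] {τ : A →ₗ[ℂ] ℂ} (hτ : TracialState τ) (S : StarSubalgebra ℂ A)
    (hS : ∀ (y : A) (ε : ℝ), 0 < ε → ∃ y' ∈ S, n2 τ (y - y') ≤ ε) (x : A) {ε : ℝ} (hε : 0 < ε) :
    ∃ y ∈ S, ‖y‖ ≤ ‖x‖ ∧ n2 τ (x - y) ≤ ε := by
  rcases eq_or_ne x 0 with hx | hx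
  · refine ⟨0, S.zero_mem, by simp, ?_⟩
    have := k_norm hτ (x - 0)
    rw [hx, sub_zero, norm_zero] at this
    rw [hx, sub_zero]
    linarith
  · have hc : 0 < ‖x‖ := norm_pos_iff.2 hx
    have hcc : ((‖x‖ : ℝ) : ℂ) ≠ 0 := by exact_mod_cast hc.ne'
    have h1 : ‖(((‖x‖⁻¹ : ℝ) : ℂ)) • x‖ ≤ 1 := by
      rw [norm_smul, Complex.norm_real, Real.norm_of_nonneg (by positivity), inv_mul_cancel₀ hc.ne']
    obtain ⟨y, hy, hy1, hxy⟩ := k_one hτ S hS h1 (ε := ε / ‖x‖) (by positivity)
    refine ⟨((‖x‖ : ℝ) : ℂ) • y, S.smul_mem hy _, ?_, ?_⟩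
    · rw [norm_smul, Complex.norm_real, norm_norm]
      nlinarith
    · have h2 : x - ((‖x‖ : ℝ) : ℂ) • y = ((‖x‖ : ℝ) : ℂ) • ((((‖x‖⁻¹ : ℝ) : ℂ)) • x - y) := by
        rw [smul_sub, smul_smul, Complex.ofReal_inv, mul_inv_cancel₀ hcc, one_smul]
      rw [h2, k_smul hτ, Complex.norm_real, norm_norm]
      calc ‖x‖ * n2 τ ((((‖x‖⁻¹ : ℝ) : ℂ)) • x - y) ≤ ‖x‖ * (ε / ‖x‖) :=
            mul_le_mul_of_nonneg_left hxy hc.le
        _ = ε := by field_simp

end QWEP
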