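import Pool.Agent.Lib.MP_47effe_an.B.Bdd
import Pool.Agent.Lib.MP_47effe_an.Two

/-!
# Words of linear combinations
-/

namespace QWEP

open Filter Topology

/-- Evaluation of noncommutative polynomials. -/
noncomputable def fa {P R : Type} [Ring R] [Algebra ℂ R] (a : P → R) : FreeAlgebra ℂ P →ₐ[ℂ] R := FreeAlgebra.lift ℂ a

variable {D : Type} {κ : D → Type} [∀ d, Fintype (κ d)] [∀ d, DecidableEq (κ d)] [∀ d, Nonempty (κ d)]

private theorem fa_ι {P R : Type} [Ring R] [Algebra ℂ R] (a : P → R) (x : P) : fa a (FreeAlgebra.ι ℂ x) = a x :=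
  FreeAlgebra.lift_ι_apply a x

private theorem fa_word {P R : Type} [Ring R] [Algebra ℂ R] (a : P → R) (L : List P) :
    fa a ((L.map (FreeAlgebra.ι ℂ)).prod) = (L.map a).prod := by
  induction L with
  | nil => rw [List.map_nil, List.map_nil, List.prod_nil, List.prod_nil, map_one]
  | cons x L ih => rw [List.map_cons, List.map_cons, List.prod_cons, List.prod_cons, map_mul, ih, fa_ι]

private theorem span_words {P : Type} (p : FreeAlgebra ℂ P) :
    p ∈ Submodule.span ℂ (Set.range fun L : List P => (L.map (FreeAlgebra.ι ℂ)).prod) := by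
  have key : ∀ p : FreeAlgebra ℂ P,
      ∀ q ∈ Submodule.span ℂ (Set.range fun L : List P => (L.map (FreeAlgebra.ι ℂ)).prod),
      p * q ∈ Submodule.span ℂ (Set.range fun L : List P => (L.map (FreeAlgebra.ι ℂ)).prod) := by
    intro p
    refine FreeAlgebra.induction ℂ P ?_ ?_ ?_ ?_ p
    · intro r q hq
      rw [← Algebra.smul_def]
      exact Submodule.smul_mem _ _ hq
    · intro x q hq
      induction hq using Submodule.span_induction with
      | mem q h =>
        obtain ⟨L, rfl⟩ := h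
        refine Submodule.subset_span ⟨x :: L, ?_⟩
        beta_reduce
        rw [List.map_cons, List.prod_cons]
      | zero => rw [mul_zero]; exact zero_mem _
      | add a b _ _ ha hb => rw [mul_add]; exact add_mem ha hb
      | smul r a _ ha => rw [mul_smul_comm]; exact Submodule.smul_mem _ _ ha
    · intro a b ha hb q hq
      rw [mul_assoc]
      exact ha _ (hb _ hq)
    · intro a b ha hb q hq
      rw [add_mul]
      exact add_mem (ha _ hq) (hb _ hq)
  have h := key p 1 (Submodule.subset_span ⟨[], rfl⟩)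
  rwa [mul_one] at h

theorem lin_tr {A P : Type} [CStarAlgebra A] {τ : A →ₗ[ℂ] ℂ} {l : Filter D} (a : P → A) (C : P → ∀ d, Matrix (κ d) (κ d) ℂ)
    (h : ∀ L : List P, Tendsto (fun d => ntr ((L.map C).prod d)) l (𝓝 (τ (L.map a).prod))) (p : FreeAlgebra ℂ P) :
    Tendsto (fun d => ntr (fa C p d)) l (𝓝 (τ (fa a p))) := by
  have hp := span_words p
  induction hp using Submodule.span_induction with
  | mem q hq =>
    obtain ⟨L, rfl⟩ := hq
    beta_reduce
    rw [fa_word, fa_word]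
    exact h L
  | zero =>
    rw [map_zero, map_zero, map_zero]
    have : (fun d => ntr ((0 : ∀ d, Matrix (κ d) (κ d) ℂ) d)) = fun _ => 0 := by
      funext d
      rw [Pi.zero_apply, ntr, Matrix.trace_zero, zero_div]
    rw [this]
    exact tendsto_const_nhds
  | add x y _ _ hx hy =>
    rw [map_add, map_add, map_add]
    refine (hx.add hy).congr fun d => ?_
    rw [Pi.add_apply, ntr, ntr, ntr, Matrix.trace_add, add_div]
  | smul r x _ hx =>
    rw [map_smul, map_smul, map_smul]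
    refine (hx.const_smul r).congr fun d => ?_
    rw [Pi.smul_apply, ntr, ntr, Matrix.trace_smul, smul_div_assoc]

theorem lin_star {A P : Type} [CStarAlgebra A] (a : P → A) (ha : ∀ p, star (a p) = a p) (C : P → ∀ d, Matrix (κ d) (κ d) ℂ)
    (hC : ∀ p, star (C p) = C p) (p : FreeAlgebra ℂ P) : ∃ p' : FreeAlgebra ℂ P, fa a p' = star (fa a p) ∧ fa C p' = star (fa C p) := by
  refine FreeAlgebra.induction ℂ P (motive := fun p => ∃ p' : FreeAlgebra ℂ P, fa a p' = star (fa a p) ∧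
    fa C p' = star (fa C p)) ?_ ?_ ?_ ?_ p
  · intro r
    refine ⟨algebraMap ℂ _ (star r), ?_, ?_⟩
    · rw [AlgHom.commutes, AlgHom.commutes, algebraMap_star_comm]
    · rw [AlgHom.commutes, AlgHom.commutes, algebraMap_star_comm]
  · intro x
    refine ⟨FreeAlgebra.ι ℂ x, ?_, ?_⟩
    · rw [fa_ι, ha]
    · rw [fa_ι, hC]
  · rintro x y ⟨x', h1, h2⟩ ⟨y', h3, h4⟩
    refine ⟨y' * x', ?_, ?_⟩
    · rw [map_mul, map_mul, star_mul, h1, h3]
    · rw [map_mul, map_mul, star_mul, h2, h4]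
  · rintro x y ⟨x', h1, h2⟩ ⟨y', h3, h4⟩
    refine ⟨x' + y', ?_, ?_⟩
    · rw [map_add, map_add, star_add, h1, h3]
    · rw [map_add, map_add, star_add, h2, h4]

private theorem un {f : ∀ d, Matrix (κ d) (κ d) ℂ} (h : f ∈ unitary (∀ d, Matrix (κ d) (κ d) ℂ)) (d : D) :
    f d ∈ unitary (Matrix (κ d) (κ d) ℂ) := by
  rw [Unitary.mem_iff] at h ⊢
  exact ⟨congrFun h.1 d, congrFun h.2 d⟩

theorem lin_bd {P : Type} (C : P → ∀ d, Matrix (κ d) (κ d) ℂ) (hC : ∀ p, C p ∈ unitary (∀ d, Matrix (κ d) (κ d) ℂ))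
    (p : FreeAlgebra ℂ P) : ∃ K : ℝ, 0 ≤ K ∧ ∀ d, Bd K (fa C p d) := by
  refine FreeAlgebra.induction ℂ P (motive := fun p => ∃ K : ℝ, 0 ≤ K ∧ ∀ d, Bd K (fa C p d)) ?_ ?_ ?_ ?_ p
  · intro r
    refine ⟨‖r‖ * 1, by positivity, fun d => ?_⟩
    have h1 : fa C (algebraMap ℂ _ r) d = r • (1 : Matrix (κ d) (κ d) ℂ) := by
      rw [AlgHom.commutes, Algebra.algebraMap_eq_smul_one, Pi.smul_apply, Pi.one_apply]
    rw [h1]
    exact bd_smul r (bd_unitary (one_mem _))
  · intro x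
    refine ⟨1, zero_le_one, fun d => ?_⟩
    rw [fa_ι]
    exact bd_unitary (un (hC x) d)
  · rintro x y ⟨K, hK, h1⟩ ⟨K', hK', h2⟩
    refine ⟨K * K', mul_nonneg hK hK', fun d => ?_⟩
    rw [map_mul, Pi.mul_apply]
    exact bd_mul (h1 d) (h2 d)
  · rintro x y ⟨K, hK, h1⟩ ⟨K', hK', h2⟩
    refine ⟨K + K', add_nonneg hK hK', fun d => ?_⟩
    rw [map_add, Pi.add_apply]
    exact bd_add hK hK' (h1 d) (h2 d)

private def BB (f : ∀ d, Matrix (κ d) (κ d) ℂ) : Prop := ∃ K : ℝ, ∀ d, Bd K (f d)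

private theorem BB.mul {f g : ∀ d, Matrix (κ d) (κ d) ℂ} (hf : BB f) (hg : BB g) : BB (f * g) := by
  obtain ⟨K, hK⟩ := hf
  obtain ⟨K', hK'⟩ := hg
  exact ⟨K * K', fun d => bd_mul (hK d) (hK' d)⟩

private theorem BB.st {f : ∀ d, Matrix (κ d) (κ d) ℂ} (hf : BB f) : BB (star f) := by
  obtain ⟨K, hK⟩ := hf
  exact ⟨K, fun d => bd_star (hK d)⟩

private theorem BB.un {f : ∀ d, Matrix (κ d) (κ d) ℂ} (hf : f ∈ unitary (∀ d, Matrix (κ d) (κ d) ℂ)) : BB f :=
  ⟨1, fun d => bd_unitary (QWEP.un hf d)⟩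

private theorem ap_add {l : Filter D} {f f' g g' : ∀ d, Matrix (κ d) (κ d) ℂ} (h : Ap l f f') (h' : Ap l g g') :
    Ap l (f + g) (f' + g') := by
  unfold Ap at h h' ⊢
  have h1 := h.add h'
  rw [add_zero] at h1
  refine squeeze_zero (fun d => nh_nonneg _) (fun d => ?_) h1
  have e : (f + g) d - (f' + g') d = (f d - f' d) + (g d - g' d) := by
    rw [Pi.add_apply, Pi.add_apply]
    abel
  rw [e]
  exact nh_add_le _ _

private def lwp {G T : Type} (c : T → ∀ d, Matrix (κ d) (κ d) ℂ) (V : G → ∀ d, Matrix (κ d) (κ d) ℂ)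
    (p : G × T) : ∀ d, Matrix (κ d) (κ d) ℂ := V p.1 * c p.2 * star (V p.1)

private noncomputable def lsh {G T : Type} [Group G] (g : G) : FreeAlgebra ℂ (G × T) →ₐ[ℂ] FreeAlgebra ℂ (G × T) :=
  FreeAlgebra.lift ℂ fun p => FreeAlgebra.ι ℂ (g * p.1, p.2)

private theorem lsh_ι {G T : Type} [Group G] (g : G) (p : G × T) :
    lsh g (FreeAlgebra.ι ℂ p) = FreeAlgebra.ι ℂ (g * p.1, p.2) :=
  FreeAlgebra.lift_ι_apply _ p

section

variable {G T : Type} [Group G] {l : Filter D} {c : T → ∀ d, Matrix (κ d) (κ d) ℂ}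
  {V : G → ∀ d, Matrix (κ d) (κ d) ℂ}

private theorem lwp_unitary (hc : ∀ t, star (c t) = c t) (hc1 : ∀ t, c t * c t = 1)
    (hV : ∀ g, V g ∈ unitary (∀ d, Matrix (κ d) (κ d) ℂ)) (p : G × T) :
    lwp c V p ∈ unitary (∀ d, Matrix (κ d) (κ d) ℂ) := by
  have h : c p.2 ∈ unitary (∀ d, Matrix (κ d) (κ d) ℂ) := by
    rw [Unitary.mem_iff, hc, hc1]
    exact ⟨rfl, rfl⟩
  exact mul_mem (mul_mem (hV _) h) (Unitary.star_mem (hV _))

private theorem lwp_star (hc : ∀ t, star (c t) = c t) (p : G × T) : star (lwp c V p) = lwp c V p := by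
  unfold lwp
  rw [star_mul, star_mul, star_star, hc, mul_assoc]

private theorem lw_one (hV : ∀ g, V g ∈ unitary (∀ d, Matrix (κ d) (κ d) ℂ))
    (hVm : ∀ g h, Ap l (V g * V h) (V (g * h))) : Ap l (V 1) 1 := by
  have h1 := hVm 1 1
  rw [mul_one] at h1
  have h2 := Ap.mul h1 (Ap.refl (star (V 1))) (hV 1) (Unitary.star_mem (hV 1))
  rwa [mul_assoc, (Unitary.mem_iff.1 (hV 1)).2, mul_one] at h2

private theorem lw_inv (hV : ∀ g, V g ∈ unitary (∀ d, Matrix (κ d) (κ d) ℂ))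
    (hVm : ∀ g h, Ap l (V g * V h) (V (g * h))) (g : G) : Ap l (star (V g)) (V g⁻¹) := by
  have h1 := hVm g g⁻¹
  rw [mul_inv_cancel] at h1
  have h2 := h1.trans (lw_one hV hVm)
  have h3 := Ap.mul (Ap.refl (star (V g))) h2 (Unitary.star_mem (hV g)) (mul_mem (hV g) (hV g⁻¹))
  rw [← mul_assoc, (Unitary.mem_iff.1 (hV g)).1, one_mul, mul_one] at h3
  exact h3.symm

private theorem lw_letter (hc : ∀ t, star (c t) = c t) (hc1 : ∀ t, c t * c t = 1)
    (hV : ∀ g, V g ∈ unitary (∀ d, Matrix (κ d) (κ d) ℂ))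
    (hVm : ∀ g h, Ap l (V g * V h) (V (g * h))) (g : G) (p : G × T) :
    Ap l (V g * lwp c V p) (lwp c V (g * p.1, p.2) * V g) := by
  have hcu : c p.2 ∈ unitary (∀ d, Matrix (κ d) (κ d) ℂ) := by
    rw [Unitary.mem_iff, hc, hc1]
    exact ⟨rfl, rfl⟩
  have h1 : Ap l (V (g * p.1)) (V g * V p.1) := (hVm g p.1).symm
  have h2 : Ap l (star (V (g * p.1))) (star (V g * V p.1)) := h1.star
  have h3 : Ap l (V (g * p.1) * c p.2) (V g * V p.1 * c p.2) :=
    Ap.mul h1 (Ap.refl _) (mul_mem (hV _) (hV _)) hcu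
  have h4 : Ap l (V (g * p.1) * c p.2 * star (V (g * p.1)))
      (V g * V p.1 * c p.2 * star (V g * V p.1)) :=
    Ap.mul h3 h2 (mul_mem (mul_mem (hV _) (hV _)) hcu) (Unitary.star_mem (hV _))
  have h5 : Ap l (V (g * p.1) * c p.2 * star (V (g * p.1)) * V g)
      (V g * V p.1 * c p.2 * star (V g * V p.1) * V g) :=
    Ap.mul h4 (Ap.refl _) (mul_mem (mul_mem (mul_mem (hV _) (hV _)) hcu)
      (Unitary.star_mem (mul_mem (hV _) (hV _)))) (hV _)
  have h6 : V g * V p.1 * c p.2 * star (V g * V p.1) * V g = V g * lwp c V p := by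
    unfold lwp
    rw [star_mul]
    simp only [mul_assoc]
    rw [(Unitary.mem_iff.1 (hV g)).1, mul_one]
  rw [h6] at h5
  exact h5.symm

private theorem lw_bb (hc : ∀ t, star (c t) = c t) (hc1 : ∀ t, c t * c t = 1)
    (hV : ∀ g, V g ∈ unitary (∀ d, Matrix (κ d) (κ d) ℂ)) (p : FreeAlgebra ℂ (G × T)) : BB (fa (lwp c V) p) := by
  obtain ⟨K, -, hK⟩ := lin_bd (lwp c V) (lwp_unitary hc hc1 hV) p
  exact ⟨K, hK⟩

private theorem lw_poly (hc : ∀ t, star (c t) = c t) (hc1 : ∀ t, c t * c t = 1)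
    (hV : ∀ g, V g ∈ unitary (∀ d, Matrix (κ d) (κ d) ℂ))
    (hVm : ∀ g h, Ap l (V g * V h) (V (g * h))) (g : G) (p : FreeAlgebra ℂ (G × T)) :
    Ap l (V g * fa (lwp c V) p) (fa (lwp c V) (lsh g p) * V g) := by
  have hb := lw_bb hc hc1 hV
  refine FreeAlgebra.induction ℂ (G × T) (motive := fun p =>
    Ap l (V g * fa (lwp c V) p) (fa (lwp c V) (lsh g p) * V g)) ?_ ?_ ?_ ?_ p
  · intro r
    rw [AlgHom.commutes, AlgHom.commutes, AlgHom.commutes, Algebra.commutes]
    exact Ap.refl _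
  · intro x
    rw [lsh_ι, fa_ι, fa_ι]
    exact lw_letter hc hc1 hV hVm g x
  · intro a b ha hb'
    rw [map_mul, map_mul, map_mul]
    have h1 := Ap.mul' ha (Ap.refl (fa (lwp c V) b)) ((hb _).mul (BB.un (hV g))) (hb b)
    have h2 := Ap.mul' (Ap.refl (fa (lwp c V) (lsh g a))) hb' (hb _) ((BB.un (hV g)).mul (hb b))
    rw [mul_assoc] at h1
    rw [mul_assoc] at h1 ⊢
    exact h1.trans h2
  · intro a b ha hb'
    rw [map_add, map_add, map_add, mul_add, add_mul]
    exact ap_add ha hb'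

end

section

variable {A G T : Type} [CStarAlgebra A] [Group G] (α : G →* (A ≃⋆ₐ[ℂ] A)) (e : T → A)

private def la (p : G × T) : A := α p.1 (e p.2)

private theorem la_poly (g : G) (p : FreeAlgebra ℂ (G × T)) :
    α g (fa (la α e) p) = fa (la α e) (lsh g p) := by
  refine FreeAlgebra.induction ℂ (G × T) (motive := fun p => α g (fa (la α e) p) = fa (la α e) (lsh g p)) ?_ ?_ ?_ ?_ p
  · intro r
    rw [AlgHom.commutes, AlgHom.commutes, AlgHom.commutes, Algebra.algebraMap_eq_smul_one, map_smul, map_one]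
  · intro x
    rw [lsh_ι, fa_ι, fa_ι]
    unfold la
    rw [map_mul]
    rfl
  · intro a b ha hb
    rw [map_mul, map_mul, map_mul, map_mul, ha, hb]
  · intro a b ha hb
    rw [map_add, map_add, map_add, map_add, ha, hb]

end

theorem lin_words {A G T ι : Type} [CStarAlgebra A] [Group G] (α : G →* (A ≃⋆ₐ[ℂ] A)) {l : Filter D} (e : T → A)
    (he : ∀ t, star (e t) = e t) (c : T → ∀ d, Matrix (κ d) (κ d) ℂ) (hc : ∀ t, star (c t) = c t) (hc1 : ∀ t, c t * c t = 1)
    (V : G → ∀ d, Matrix (κ d) (κ d) ℂ) (hV : ∀ g, V g ∈ unitary (∀ d, Matrix (κ d) (κ d) ℂ))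
    (hVm : ∀ g h, Ap l (V g * V h) (V (g * h))) (z : ι → Cr α) (p : ι → FreeAlgebra ℂ (G × T))
    (hp : ∀ i, (z i).x = fa (fun p : G × T => α p.1 (e p.2)) (p i)) (w : List (ι × Bool)) :
    ∃ r : FreeAlgebra ℂ (G × T), (ev Cr.st z w).x = fa (fun p : G × T => α p.1 (e p.2)) r ∧
      Ap l (ev star (fun i => fa (fun p : G × T => V p.1 * c p.2 * star (V p.1)) (p i) * V (z i).g) w)
        (fa (fun p : G × T => V p.1 * c p.2 * star (V p.1)) r * V (ev Cr.st z w).g) := by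
  have hp' : ∀ i, (z i).x = fa (la α e) (p i) := hp
  have hb := lw_bb hc hc1 hV
  have hbV : ∀ g, BB (V g) := fun g => BB.un (hV g)
  set Z : ι → ∀ d, Matrix (κ d) (κ d) ℂ := fun i => fa (lwp c V) (p i) * V (z i).g with hZ
  have hZb : ∀ i, BB (Z i) := fun i => (hb _).mul (hbV _)
  have hevb : ∀ w : List (ι × Bool), BB (ev star Z w) := by
    intro w
    induction w with
    | nil =>
      rw [ev_nil]
      exact BB.un (one_mem _)
    | cons q w ih =>
      rw [ev_cons]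
      refine BB.mul ?_ ih
      split_ifs
      · exact (hZb _).st
      · exact hZb _
  have hla : ∀ q : G × T, star (la α e q) = la α e q := by
    intro q
    unfold la
    rw [← map_star, he]
  have hletter : ∀ q : ι × Bool, ∃ r : FreeAlgebra ℂ (G × T),
      (if q.2 then Cr.st (z q.1) else z q.1).x = fa (la α e) r ∧
      Ap l (if q.2 then star (Z q.1) else Z q.1)
        (fa (lwp c V) r * V (if q.2 then Cr.st (z q.1) else z q.1).g) := by
    intro q
    by_cases hq : q.2 = true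
    · obtain ⟨p', h1, h2⟩ := lin_star (la α e) hla (lwp c V) (lwp_star hc) (p q.1)
      refine ⟨lsh (z q.1).g⁻¹ p', ?_, ?_⟩
      · rw [if_pos hq, Cr.st_x, hp', ← h1, la_poly]
      · rw [if_pos hq, if_pos hq, Cr.st_g]
        have h3 : star (Z q.1) = star (V (z q.1).g) * fa (lwp c V) p' := by
          rw [hZ]
          beta_reduce
          rw [star_mul, h2]
        rw [h3]
        have h4 := Ap.mul' (lw_inv hV hVm (z q.1).g) (Ap.refl (fa (lwp c V) p')) (hbV _) (hb _)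
        exact h4.trans (lw_poly hc hc1 hV hVm _ _)
    · refine ⟨p q.1, ?_, ?_⟩
      · rw [if_neg hq, hp']
      · rw [if_neg hq, if_neg hq]
        exact Ap.refl _
  change ∃ r : FreeAlgebra ℂ (G × T), (ev Cr.st z w).x = fa (la α e) r ∧
      Ap l (ev star Z w) (fa (lwp c V) r * V (ev Cr.st z w).g)
  induction w with
  | nil =>
    refine ⟨1, ?_, ?_⟩
    · rw [ev_nil, Cr.one_x, map_one]
    · rw [ev_nil, ev_nil, Cr.one_g, map_one, one_mul]
      exact (lw_one hV hVm).symm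
  | cons q w ih =>
    obtain ⟨r', hr', hA'⟩ := ih
    obtain ⟨r, hr, hA⟩ := hletter q
    refine ⟨r * lsh (if q.2 then Cr.st (z q.1) else z q.1).g r', ?_, ?_⟩
    · rw [ev_cons, Cr.mul_x, hr, hr', la_poly, map_mul]
    · rw [ev_cons, ev_cons, Cr.mul_g, map_mul]
      generalize (if q.2 then Cr.st (z q.1) else z q.1).g = g1 at *
      generalize (ev Cr.st z w).g = g2 at *
      have h1 := Ap.mul' hA hA' ((hb _).mul (hbV _)) (hevb w)
      have h2 := Ap.mul' (lw_poly hc hc1 hV hVm g1 r') (Ap.refl (V g2)) ((hb _).mul (hbV _)) (hbV g2)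
      have h3 := Ap.mul' (Ap.refl (fa (lwp c V) (lsh g1 r'))) (hVm g1 g2) (hb _) ((hbV _).mul (hbV _))
      rw [mul_assoc (fa (lwp c V) (lsh g1 r'))] at h2
      have h4 := Ap.mul' (Ap.refl (fa (lwp c V) r)) (h2.trans h3) (hb _)
        (((hbV _).mul (hb _)).mul (hbV _))
      have h5 : fa (lwp c V) r * V g1 * (fa (lwp c V) r' * V g2) =
          fa (lwp c V) r * (V g1 * fa (lwp c V) r' * V g2) := by
        simp only [mul_assoc]
      rw [h5] at h1
      rw [mul_assoc]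
      exact h1.trans h4

end QWEP
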