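import Pool.Agent.Lib.MP_47effe_an.B.Mca
import Pool.Agent.Lib.MP_47effe_an.B.App
import Pool.Agent.Lib.MP_47effe_an.Two

/-! Cutting families of matrices at the norm bound of the element they converge to. -/

namespace QWEP

open Filter Topology

variable {D : Type} {κ : D → Type} [∀ d, Fintype (κ d)] [∀ d, DecidableEq (κ d)] [∀ d, Nonempty (κ d)]

private theorem mcb_one {A : Type} [CStarAlgebra A] {τ : A →ₗ[ℂ] ℂ} (hτ : TracialState τ) : n2 τ (1 : A) = 1 := by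
  unfold n2
  rw [star_one, one_mul, hτ.one, Complex.one_re, Real.sqrt_one]

private theorem mcb_le {A : Type} [CStarAlgebra A] {τ : A →ₗ[ℂ] ℂ} (hτ : TracialState τ) (x : A) : ‖τ x‖ ≤ ‖x‖ := by
  have h1 := n2_apply hτ x
  have h2 := n2_left hτ x 1
  rw [mul_one, mcb_one hτ, mul_one] at h2
  exact h1.trans h2

private theorem mcb_pow {A : Type} [CStarAlgebra A] {τ : A →ₗ[ℂ] ℂ} (hτ : TracialState τ) {y : A} {b : ℝ}
    (hy : ‖y‖ ≤ b) (n : ℕ) : (τ ((star y * y) ^ (n + 1))).re ≤ b ^ 2 * b ^ (2 * n) := by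
  have h1 : (τ ((star y * y) ^ (n + 1))).re ≤ ‖τ ((star y * y) ^ (n + 1))‖ := Complex.re_le_norm _
  have h2 := mcb_le hτ ((star y * y) ^ (n + 1))
  have h3 : ‖(star y * y) ^ (n + 1)‖ ≤ ‖star y * y‖ ^ (n + 1) := norm_pow_le' _ (Nat.succ_pos n)
  have h4 : ‖star y * y‖ = ‖y‖ * ‖y‖ := CStarRing.norm_star_mul_self
  have h5 : ‖y‖ * ‖y‖ ≤ b ^ 2 := by
    rw [← sq]
    exact pow_le_pow_left₀ (norm_nonneg _) hy 2
  have h6 : ‖star y * y‖ ^ (n + 1) ≤ (b ^ 2) ^ (n + 1) := by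
    rw [h4]
    exact pow_le_pow_left₀ (mul_nonneg (norm_nonneg _) (norm_nonneg _)) h5 _
  have h7 : (b ^ 2) ^ (n + 1) = b ^ 2 * b ^ (2 * n) := by
    rw [pow_succ, ← pow_mul, mul_comm]
  rw [← h7]
  exact ((h1.trans h2).trans h3).trans h6

theorem matrix_cut {A : Type} [CStarAlgebra A] {τ : A →ₗ[ℂ] ℂ} (hτ : TracialState τ) {y : A} {b : ℝ} (hy : ‖y‖ ≤ b)
    {l : Filter D} (Y : ∀ d, Matrix (κ d) (κ d) ℂ)
    (hm : ∀ n : ℕ, Tendsto (fun d => ntr (((star Y * Y) ^ n) d)) l (𝓝 (τ ((star y * y) ^ n)))) :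
    ∃ F : ∀ d, Matrix (κ d) (κ d) ℂ, (∀ d, Bd b (F d)) ∧ Ap l Y F := by
  have hb : 0 ≤ b := (norm_nonneg y).trans hy
  choose F hF1 hF2 using fun d => exists_cut (Y d) hb
  refine ⟨F, hF1, ?_⟩
  unfold Ap
  rw [Metric.tendsto_nhds]
  intro ε hε
  have hb' : b < b + ε / 2 := by linarith
  have hb'0 : 0 < b + ε / 2 := by linarith
  have hq0 : 0 ≤ (b / (b + ε / 2)) ^ 2 := sq_nonneg _
  have hq1 : (b / (b + ε / 2)) ^ 2 < 1 := by
    have h1 : b / (b + ε / 2) < 1 := (div_lt_one hb'0).2 hb'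
    have h2 : 0 ≤ b / (b + ε / 2) := div_nonneg hb hb'0.le
    exact pow_lt_one₀ h2 h1 two_ne_zero
  have hlim : Tendsto (fun n : ℕ => b ^ 2 * ((b / (b + ε / 2)) ^ 2) ^ n) atTop (𝓝 0) := by
    have := (tendsto_pow_atTop_nhds_zero_of_lt_one hq0 hq1).const_mul (b ^ 2)
    rwa [mul_zero] at this
  have hε2 : 0 < ε ^ 2 / 2 := by positivity
  obtain ⟨n, hn⟩ := (hlim.eventually (gt_mem_nhds hε2)).exists
  have hlt : (τ ((star y * y) ^ (n + 1))).re / (b + ε / 2) ^ (2 * n) < ε ^ 2 / 2 := by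
    refine lt_of_le_of_lt ?_ hn
    have h1 := mcb_pow hτ hy n
    have h2 : 0 < (b + ε / 2) ^ (2 * n) := pow_pos hb'0 _
    rw [div_le_iff₀ h2]
    refine h1.trans (le_of_eq ?_)
    rw [← pow_mul, div_pow, mul_assoc, div_mul_cancel₀ _ h2.ne']
  have ht : Tendsto (fun d => (ntr ((star (Y d) * Y d) ^ (n + 1))).re / (b + ε / 2) ^ (2 * n)) l
      (𝓝 ((τ ((star y * y) ^ (n + 1))).re / (b + ε / 2) ^ (2 * n))) := by
    have h1 := (Complex.continuous_re.tendsto _).comp (hm (n + 1))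
    exact h1.div_const _
  filter_upwards [ht.eventually (gt_mem_nhds hlt)] with d hd
  have h3 := hF2 d (b + ε / 2) hb' n
  have h4 : (b + ε / 2 - b) ^ 2 = ε ^ 2 / 4 := by ring
  have h5 : nh (Y d - F d) ^ 2 < ε ^ 2 := by
    rw [h4] at h3
    have : 0 < ε ^ 2 := by positivity
    linarith
  rw [Real.dist_eq, sub_zero, abs_of_nonneg (nh_nonneg _)]
  exact lt_of_pow_lt_pow_left₀ 2 hε.le h5

end QWEP
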