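import Pool.Agent.Lib.MP_47effe_an.Two
import Pool.Agent.Lib.MP_47effe_an.Main

/-!
# Crossed products and microstates: the traces of words are continuous in the 2-norm on bounded families
-/

namespace QWEP

private theorem norm_aut {A : Type} [CStarAlgebra A] (θ : A ≃⋆ₐ[ℂ] A) (x : A) : ‖θ x‖ ≤ ‖x‖ :=
  NonUnitalStarAlgHom.norm_apply_le (θ : A →⋆ₐ[ℂ] A) x

private theorem norm_one_le' {A : Type} [CStarAlgebra A] : ‖(1 : A)‖ ≤ 1 := by
  rcases subsingleton_or_nontrivial A with h | h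
  · rw [Subsingleton.elim (1 : A) 0, norm_zero]
    exact zero_le_one
  · rw [CStarRing.norm_one]

private theorem prt_aux {A G ι : Type} [CStarAlgebra A] [Group G] {τ : A →ₗ[ℂ] ℂ} {α : G →* (A ≃⋆ₐ[ℂ] A)} (hτ : TracialState τ)
    (hα : ∀ g x, τ (α g x) = τ x) {B η : ℝ} (hB : 1 ≤ B) (hη : 0 ≤ η) (z z' : ι → Cr α) (hg : ∀ i, (z i).g = (z' i).g)
    (hz : ∀ i, ‖(z i).x‖ ≤ B) (hz' : ∀ i, ‖(z' i).x‖ ≤ B) (h : ∀ i, n2 τ ((z i).x - (z' i).x) ≤ η) (w : List (ι × Bool)) :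
    ‖(ev Cr.st z w).x‖ ≤ B ^ w.length ∧
    n2 τ ((ev Cr.st z w).x - (ev Cr.st z' w).x) ≤ w.length * B ^ w.length * η := by
  have hB0 : 0 ≤ B := zero_le_one.trans hB
  induction w with
  | nil =>
    rw [ev_nil, ev_nil]
    refine ⟨?_, ?_⟩
    · rw [List.length_nil, pow_zero]
      exact norm_one_le'
    · rw [sub_self, List.length_nil]
      simp [n2]
  | cons p w ih =>
    obtain ⟨ih1, ih2⟩ := ih
    obtain ⟨s, hs⟩ : ∃ s : Cr α, s = if p.2 then Cr.st (z p.1) else z p.1 := ⟨_, rfl⟩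
    obtain ⟨s', hs'⟩ : ∃ s' : Cr α, s' = if p.2 then Cr.st (z' p.1) else z' p.1 := ⟨_, rfl⟩
    have hsg : s.g = s'.g := by
      rw [hs, hs']
      split_ifs
      · rw [Cr.st_g, Cr.st_g, hg]
      · exact hg _
    have hs1 : ‖s.x‖ ≤ B := by
      rw [hs]
      split_ifs
      · rw [Cr.st_x]
        refine (norm_aut _ _).trans ?_
        rw [norm_star]
        exact hz _
      · exact hz _
    have hs1' : ‖s'.x‖ ≤ B := by
      rw [hs']
      split_ifs
      · rw [Cr.st_x]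
        refine (norm_aut _ _).trans ?_
        rw [norm_star]
        exact hz' _
      · exact hz' _
    have hs2 : n2 τ (s.x - s'.x) ≤ η := by
      rw [hs, hs']
      split_ifs
      · rw [Cr.st_x, Cr.st_x, hg, ← map_sub, ← star_sub, n2_map (hα _), n2_star hτ]
        exact h _
      · exact h _
    have hpow : 0 ≤ B ^ w.length := pow_nonneg hB0 _
    rw [ev_cons, ev_cons, ← hs, ← hs', Cr.mul_x, Cr.mul_x, ← hsg, List.length_cons, pow_succ]
    refine ⟨?_, ?_⟩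
    · refine (norm_mul_le _ _).trans ?_
      rw [mul_comm (B ^ w.length) B]
      exact mul_le_mul hs1 ((norm_aut _ _).trans ih1) (norm_nonneg _) hB0
    · have e : s.x * α s.g (ev Cr.st z w).x - s'.x * α s.g (ev Cr.st z' w).x =
          (s.x - s'.x) * α s.g (ev Cr.st z w).x + s'.x * α s.g ((ev Cr.st z w).x - (ev Cr.st z' w).x) := by
        rw [map_sub, sub_mul, mul_sub]
        abel
      rw [e]
      refine (n2_add hτ _ _).trans ?_
      have h1 : n2 τ ((s.x - s'.x) * α s.g (ev Cr.st z w).x) ≤ η * B ^ w.length :=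
        (n2_right hτ _ _).trans (mul_le_mul hs2 ((norm_aut _ _).trans ih1) (norm_nonneg _) hη)
      have h2 : n2 τ (s'.x * α s.g ((ev Cr.st z w).x - (ev Cr.st z' w).x)) ≤ B * (w.length * B ^ w.length * η) := by
        refine (n2_left hτ _ _).trans ?_
        rw [n2_map (hα _)]
        exact mul_le_mul hs1' ih2 (n2_nonneg _) hB0
      have h3 : η * B ^ w.length ≤ B * (B ^ w.length * η) := by
        have h4 : 0 ≤ B ^ w.length * η := mul_nonneg hpow hη
        nlinarith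
      push_cast
      calc n2 τ ((s.x - s'.x) * α s.g (ev Cr.st z w).x) + n2 τ (s'.x * α s.g ((ev Cr.st z w).x - (ev Cr.st z' w).x))
          ≤ B * (B ^ w.length * η) + B * (w.length * B ^ w.length * η) := add_le_add (h1.trans h3) h2
        _ = ((w.length : ℝ) + 1) * (B ^ w.length * B) * η := by ring

theorem prt {A G ι : Type} [CStarAlgebra A] [Group G] {τ : A →ₗ[ℂ] ℂ} {α : G →* (A ≃⋆ₐ[ℂ] A)} (hτ : TracialState τ)
    (hα : ∀ g x, τ (α g x) = τ x) {B η : ℝ} (hB : 1 ≤ B) (hη : 0 ≤ η) (z z' : ι → Cr α) (hg : ∀ i, (z i).g = (z' i).g)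
    (hz : ∀ i, ‖(z i).x‖ ≤ B) (hz' : ∀ i, ‖(z' i).x‖ ≤ B) (h : ∀ i, n2 τ ((z i).x - (z' i).x) ≤ η) (w : List (ι × Bool)) :
    ‖τ (ev Cr.st z w).x - τ (ev Cr.st z' w).x‖ ≤ w.length * B ^ w.length * η := by
  rw [← map_sub]
  exact (n2_apply hτ _).trans (prt_aux hτ hα hB hη z z' hg hz hz' h w).2

end QWEP
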