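import Pool.Agent.Lib.MP_47effe_an.B.Main
import Pool.Agent.Lib.MP_47effe_an.B.Kap
import Pool.Agent.Lib.MP_47effe_an.B.Mcb
import Pool.Agent.Lib.MP_47effe_an.B.Prt
import Pool.Agent.Lib.MP_47effe_an.B.Lin

/-!
# Bernoulli shifts of hyperlinear groups: all elements
-/

namespace QWEP

open Filter Topology

variable {A G J : Type} [CStarAlgebra A] [Group G] {τ : A →ₗ[ℂ] ℂ} {α : G →* (A ≃⋆ₐ[ℂ] A)}

/-- Covariant microstates for Bernoulli shifts. -/
theorem cov_dense (hτ : TracialState τ) (hα : ∀ g x, τ (α g x) = τ x) {e : J × Bool → A} (he : Bernoulli α e)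
    (hd : ∀ (y : A) (ε : ℝ), 0 < ε →
      ∃ y' ∈ Algebra.adjoin ℂ (Set.range fun p : G × (J × Bool) => α p.1 (e p.2)), n2 τ (y - y') ≤ ε)
    (hG : Hyperlinear G) : Cov α τ := by
  classical
  intro ι hι z N ε hε
  obtain ⟨B, hB1, hB⟩ : ∃ B : ℝ, 1 ≤ B ∧ ∀ i, ‖(z i).x‖ ≤ B := by
    obtain ⟨B0, hB0⟩ := (Set.finite_range fun i => ‖(z i).x‖).bddAbove
    exact ⟨max 1 B0, le_max_left _ _, fun i => (hB0 ⟨i, rfl⟩).trans (le_max_right _ _)⟩
  obtain ⟨D, l, hl, κ, _, _, _, c, W, hc, hc1, hW, hWm, hCc⟩ := exists_net J hG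
  obtain ⟨hCu, hsg⟩ := words_on hτ he c W hc hc1 hW hWm hCc
  have hCs : ∀ p : G × (J × Bool), star (W p.1 * c p.2 * star (W p.1)) = W p.1 * c p.2 * star (W p.1) := by
    intro p
    rw [star_mul, star_mul, star_star, hc, mul_assoc]
  have has : ∀ p : G × (J × Bool), star (α p.1 (e p.2)) = α p.1 (e p.2) := by
    intro p
    rw [← map_star, he.star]
  let S : StarSubalgebra ℂ A :=
    { (fa fun p : G × (J × Bool) => α p.1 (e p.2)).range with
      star_mem' := by
        rintro _ ⟨p, rfl⟩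
        obtain ⟨p', h1, -⟩ := lin_star (fun p : G × (J × Bool) => α p.1 (e p.2)) has
          (fun p => W p.1 * c p.2 * star (W p.1)) hCs p
        exact ⟨p', h1⟩ }
  have hS : ∀ (y : A) (ε : ℝ), 0 < ε → ∃ y' ∈ S, n2 τ (y - y') ≤ ε := by
    intro y ε hε
    obtain ⟨y', hy', h1⟩ := hd y ε hε
    rw [Algebra.adjoin_range_eq_range_freeAlgebra_lift] at hy'
    exact ⟨y', hy', h1⟩
  have hη : 0 < ε / 2 / (N * B ^ N + 1) := by positivity
  choose y hyS hyn hyη using fun i => kap hτ S hS (z i).x hη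
  have hyS' : ∀ i, ∃ p, fa (fun p : G × (J × Bool) => α p.1 (e p.2)) p = y i := fun i => hyS i
  choose p hp using hyS'
  have hm : ∀ i (n : ℕ), Tendsto (fun d => ntr (((star (fa (fun p : G × (J × Bool) => W p.1 * c p.2 * star (W p.1)) (p i)) *
      fa (fun p : G × (J × Bool) => W p.1 * c p.2 * star (W p.1)) (p i)) ^ n) d)) l (𝓝 (τ ((star (y i) * y i) ^ n))) := by
    intro i n
    obtain ⟨p', h1, h2⟩ := lin_star (fun p : G × (J × Bool) => α p.1 (e p.2)) has
      (fun p => W p.1 * c p.2 * star (W p.1)) hCs (p i)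
    have h3 := lin_tr (fun p : G × (J × Bool) => α p.1 (e p.2)) (fun p => W p.1 * c p.2 * star (W p.1)) hsg ((p' * p i) ^ n)
    rw [map_pow, map_pow, map_mul, map_mul, h1, h2, hp] at h3
    exact h3
  choose F hFb hFp using fun i => matrix_cut hτ (hyn i) (fa (fun p : G × (J × Bool) => W p.1 * c p.2 * star (W p.1)) (p i)) (hm i)
  have hWd : ∀ g d, W g d ∈ unitary (Matrix (κ d) (κ d) ℂ) := by
    intro g d
    have h2 := Unitary.mem_iff.1 (hW g)
    exact Unitary.mem_iff.2 ⟨congrFun h2.1 d, congrFun h2.2 d⟩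
  have hW1 : Ap l (W 1) 1 := by
    have h1 : ∀ d, nh (W 1 d - 1) = nh (W 1 d * W 1 d - W 1 d) := by
      intro d
      have h3 := nh_mul_left (hWd 1 d) (W 1 d - 1)
      rw [mul_sub, mul_one] at h3
      exact h3.symm
    have h2 := hWm 1 1
    have h4 : (1 : G) * 1 = 1 := one_mul 1
    rw [h4] at h2
    refine Tendsto.congr (fun d => (h1 d).symm) h2
  have hWb : ∀ g, ∃ K, ∀ d, Bd K (W g d) := fun g => ⟨1, fun d => bd_unitary (hWd g d)⟩
  obtain ⟨Z, hZ⟩ : ∃ Z : ι → ∀ d, Matrix (κ d) (κ d) ℂ, Z = fun i => F i * W (z i).g := ⟨_, rfl⟩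
  obtain ⟨Z', hZ'⟩ : ∃ Z' : ι → ∀ d, Matrix (κ d) (κ d) ℂ, Z' = fun i =>
    fa (fun p : G × (J × Bool) => W p.1 * c p.2 * star (W p.1)) (p i) * W (z i).g := ⟨_, rfl⟩
  have hZb : ∀ i d, Bd ‖(z i).x‖ (Z i d) := by
    intro i d
    have h1 := bd_mul (hFb i d) (bd_unitary (hWd (z i).g d))
    rw [mul_one] at h1
    rw [hZ]
    exact h1
  have hYb : ∀ i, ∃ K, ∀ d, Bd K (fa (fun p : G × (J × Bool) => W p.1 * c p.2 * star (W p.1)) (p i) d) := by
    intro i
    obtain ⟨K, -, hK⟩ := lin_bd (fun p : G × (J × Bool) => W p.1 * c p.2 * star (W p.1)) hCu (p i)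
    exact ⟨K, hK⟩
  have hZ'b : ∀ i, ∃ K, ∀ d, Bd K (Z' i d) := by
    intro i
    obtain ⟨K, hK⟩ := hYb i
    refine ⟨K * 1, fun d => ?_⟩
    rw [hZ']
    exact bd_mul (hK d) (bd_unitary (hWd (z i).g d))
  have hZZ : ∀ i, Ap l (Z i) (Z' i) := by
    intro i
    rw [hZ, hZ']
    exact Ap.mul' (hFp i).symm (Ap.refl _) (hYb i) (hWb _)
  obtain ⟨z', hz'⟩ : ∃ z' : ι → Cr α, z' = fun i => ⟨y i, (z i).g⟩ := ⟨_, rfl⟩
  have hev : ∀ (w : List (ι × Bool)) (d : D), ev star Z w d = ev star (fun i => Z i d) w := by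
    intro w d
    induction w with
    | nil => rfl
    | cons p w ih =>
      rw [ev_cons, ev_cons, ← ih, Pi.mul_apply]
      congr 1
      split_ifs <;> rfl
  have hword : ∀ w : List (ι × Bool), (ev Cr.st z' w).g = 1 →
      Tendsto (fun d => ntr (ev star (fun i => Z i d) w)) l (𝓝 (τ (ev Cr.st z' w).x)) := by
    intro w hw
    obtain ⟨r, hr, hrp⟩ := lin_words α e he.star c hc hc1 W hW hWm z' p (fun i => by rw [hz', hp]) w
    have h0 : (fun i => fa (fun p : G × (J × Bool) => W p.1 * c p.2 * star (W p.1)) (p i) * W (z' i).g) = Z' := by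
      rw [hZ', hz']
    rw [hw, h0] at hrp
    have h2 : Ap l (fa (fun p : G × (J × Bool) => W p.1 * c p.2 * star (W p.1)) r * W 1)
        (fa (fun p : G × (J × Bool) => W p.1 * c p.2 * star (W p.1)) r * 1) := by
      obtain ⟨K, -, hK⟩ := lin_bd (fun p : G × (J × Bool) => W p.1 * c p.2 * star (W p.1)) hCu r
      exact Ap.mul' (Ap.refl _) hW1 ⟨K, hK⟩ (hWb 1)
    have h5 : fa (fun p : G × (J × Bool) => W p.1 * c p.2 * star (W p.1)) r * 1 =
        fa (fun p : G × (J × Bool) => W p.1 * c p.2 * star (W p.1)) r := mul_one _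
    rw [h5] at h2
    have h3 := lin_tr (fun p : G × (J × Bool) => α p.1 (e p.2)) (fun p => W p.1 * c p.2 * star (W p.1)) hsg r
    have h6 : Ap l (ev star Z w) (ev star Z' w) := ap_word hZZ (fun i => ⟨_, hZb i⟩) hZ'b w
    have h4 := ((h6.trans hrp).trans h2).ntr.add h3
    rw [zero_add] at h4
    rw [hr]
    refine h4.congr fun d => ?_
    rw [← hev w d]
    exact sub_add_cancel _ _
  have hall : ∀ᶠ d : D in l, ∀ w ∈ {w : List (ι × Bool) | w.length ≤ N}, (ev Cr.st z' w).g = 1 →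
      ‖ntr (ev star (fun i => Z i d) w) - τ (ev Cr.st z' w).x‖ ≤ ε / 2 := by
    have hfin : {w : List (ι × Bool) | w.length ≤ N}.Finite := List.finite_length_le _ _
    rw [eventually_all_finite hfin]
    intro w _
    by_cases hg : (ev Cr.st z' w).g = 1
    · have h1 := (tendsto_iff_norm_sub_tendsto_zero.1 (hword w hg)).eventually (gt_mem_nhds (half_pos hε))
      exact h1.mono fun d hd _ => hd.le
    · exact Eventually.of_forall fun d h => absurd h hg
  obtain ⟨d, hd'⟩ := hall.exists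
  refine ⟨κ d, inferInstance, inferInstance, inferInstance, fun i => Z i d, fun i => hZb i d, fun w hw hg => ?_⟩
  have hgg : (ev Cr.st z' w).g = (ev Cr.st z w).g := by
    rw [ev_g, ev_g, hz']
  have h1 := hd' w hw (hgg.trans hg)
  have h2 := prt hτ hα hB1 hη.le z z' (fun i => by rw [hz']) hB (fun i => by
    rw [hz']
    exact (hyn i).trans (hB i)) (fun i => by
    rw [hz']
    exact hyη i) w
  have h3 : (w.length : ℝ) * B ^ w.length * (ε / 2 / (N * B ^ N + 1)) ≤ ε / 2 := by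
    have h4 : (w.length : ℝ) * B ^ w.length ≤ N * B ^ N + 1 := by
      have h5 : (w.length : ℝ) ≤ N := by exact_mod_cast hw
      have h6 : B ^ w.length ≤ B ^ N := pow_le_pow_right₀ hB1 hw
      have h7 : (w.length : ℝ) * B ^ w.length ≤ N * B ^ N := mul_le_mul h5 h6 (by positivity) (by positivity)
      linarith
    calc (w.length : ℝ) * B ^ w.length * (ε / 2 / (N * B ^ N + 1)) ≤ (N * B ^ N + 1) * (ε / 2 / (N * B ^ N + 1)) :=
          mul_le_mul_of_nonneg_right h4 hη.le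
      _ = ε / 2 := by
        have h5 : (N : ℝ) * B ^ N + 1 ≠ 0 := by positivity
        field_simp
  have h4 : ntr (ev star (fun i => Z i d) w) - τ (ev Cr.st z w).x =
      (ntr (ev star (fun i => Z i d) w) - τ (ev Cr.st z' w).x) - (τ (ev Cr.st z w).x - τ (ev Cr.st z' w).x) := by ring
  rw [h4]
  refine (norm_sub_le _ _).trans ?_
  linarith

/-- Bernoulli shifts: the crossed product embeds if and only if the group is hyperlinear. -/
theorem bernoulli_iff (hτ : TracialState τ) (hα : ∀ g x, τ (α g x) = τ x) {e : J × Bool → A} (he : Bernoulli α e)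
    (hd : ∀ (y : A) (ε : ℝ), 0 < ε →
      ∃ y' ∈ Algebra.adjoin ℂ (Set.range fun p : G × (J × Bool) => α p.1 (e p.2)), n2 τ (y - y') ≤ ε) :
    Embeddable α τ ↔ Hyperlinear G := by
  have h01 : (1 : A) ≠ 0 := by
    intro h1
    have h2 := hτ.one
    rw [h1, map_zero] at h2
    exact zero_ne_one h2
  rw [embeddable_iff hτ.one h01]
  exact ⟨fun h => h.1, fun h => ⟨h, cov_dense hτ hα he hd h⟩⟩

end QWEP
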