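import Pool.Agent.Lib.MP_47effe_an.B.App
import Pool.Agent.Lib.MP_47effe_an.Two

/-! Moments of families of unitaries which commute up to signs. -/

namespace QWEP

open Filter Topology

variable {D : Type} {κ : D → Type} [∀ d, Fintype (κ d)] [∀ d, DecidableEq (κ d)] [∀ d, Nonempty (κ d)]

private theorem sgn_one_or {P : Type} (q : P → P → ℂ) (hq : ∀ p p', q p p' = 1 ∨ q p p' = -1) (p : P)
    (L : List P) : (L.map (q p)).prod = 1 ∨ (L.map (q p)).prod = -1 := by
  induction L with
  | nil => left; rfl
  | cons x L ih =>
    rw [List.map_cons, List.prod_cons]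
    rcases hq p x with h | h <;> rcases ih with h' | h' <;> rw [h, h'] <;> simp

private theorem sgn_unitary {c : ℂ} (hc : c = 1 ∨ c = -1) {U : ∀ d, Matrix (κ d) (κ d) ℂ}
    (hU : U ∈ unitary (∀ d, Matrix (κ d) (κ d) ℂ)) :
    c • U ∈ unitary (∀ d, Matrix (κ d) (κ d) ℂ) := by
  rcases hc with h | h
  · rw [h, one_smul]
    exact hU
  · rw [h, neg_one_smul]
    rw [Unitary.mem_iff] at hU ⊢
    rw [star_neg, neg_mul_neg, neg_mul_neg]
    exact hU

private theorem sgn_exact {A P : Type} [CStarAlgebra A] (q : P → P → ℂ) (a : P → A)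
    (hc : ∀ p p', a p * a p' = q p p' • (a p' * a p)) (p : P) (L : List P) :
    a p * (L.map a).prod = (L.map (q p)).prod • ((L.map a).prod * a p) := by
  induction L with
  | nil => simp
  | cons x L ih =>
    rw [List.map_cons, List.prod_cons, List.map_cons, List.prod_cons, ← mul_assoc, hc p x,
      smul_mul_assoc, mul_assoc (a x) (a p), ih, mul_smul_comm, smul_smul, mul_assoc]

private theorem sgn_prod_unitary {P : Type} (C : P → ∀ d, Matrix (κ d) (κ d) ℂ)
    (hC : ∀ p, C p ∈ unitary (∀ d, Matrix (κ d) (κ d) ℂ)) (L : List P) :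
    (L.map C).prod ∈ unitary (∀ d, Matrix (κ d) (κ d) ℂ) := by
  induction L with
  | nil => exact one_mem _
  | cons x L ih =>
    rw [List.map_cons, List.prod_cons]
    exact mul_mem (hC x) ih

private theorem sgn_approx {P : Type} {l : Filter D}
    (q : P → P → ℂ) (hq : ∀ p p', q p p' = 1 ∨ q p p' = -1) (C : P → ∀ d, Matrix (κ d) (κ d) ℂ)
    (hC : ∀ p, C p ∈ unitary (∀ d, Matrix (κ d) (κ d) ℂ))
    (hCc : ∀ p p', Ap l (C p * C p') (q p p' • (C p' * C p))) (p : P) (L : List P) :
    Ap l (C p * (L.map C).prod) ((L.map (q p)).prod • ((L.map C).prod * C p)) := by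
  induction L with
  | nil =>
    simp only [List.map_nil, List.prod_nil, mul_one, one_mul, one_smul]
    exact Ap.refl _
  | cons x L ih =>
    have hL := sgn_prod_unitary C hC L
    have h1 : Ap l ((C p * C x) * (L.map C).prod) ((q p x • (C x * C p)) * (L.map C).prod) :=
      Ap.mul (hCc p x) (Ap.refl _) (sgn_unitary (hq p x) (mul_mem (hC x) (hC p))) hL
    have h2 : Ap l (q p x • (C x * (C p * (L.map C).prod)))
        (q p x • (C x * ((L.map (q p)).prod • ((L.map C).prod * C p)))) :=
      Ap.smul _ (Ap.mul (Ap.refl _) ih (hC x) (mul_mem (hC p) hL))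
    have e1 : C p * ((x :: L).map C).prod = (C p * C x) * (L.map C).prod := by
      rw [List.map_cons, List.prod_cons, mul_assoc]
    have e2 : (q p x • (C x * C p)) * (L.map C).prod = q p x • (C x * (C p * (L.map C).prod)) := by
      rw [smul_mul_assoc, mul_assoc]
    have e3 : ((x :: L).map (q p)).prod • (((x :: L).map C).prod * C p) =
        q p x • (C x * ((L.map (q p)).prod • ((L.map C).prod * C p))) := by
      rw [List.map_cons, List.prod_cons, List.map_cons, List.prod_cons, mul_smul_comm, smul_smul,
        mul_assoc]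
    rw [e1, e3]
    rw [e2] at h1
    exact h1.trans h2

private theorem sgn_ntr_smul {k : Type} [Fintype k] (c : ℂ) (M : Matrix k k ℂ) :
    ntr (c • M) = c * ntr M := by
  unfold ntr
  rw [Matrix.trace_smul, smul_eq_mul, mul_div_assoc]

theorem sgn_list {A P : Type} [CStarAlgebra A] {τ : A →ₗ[ℂ] ℂ} (hτ : TracialState τ) {l : Filter D}
    (q : P → P → ℂ) (hq : ∀ p p', q p p' = 1 ∨ q p p' = -1) (bar : P → P) (hb : ∀ p, q (bar p) p = -1)
    (hb' : ∀ p p', p' ≠ p → q (bar p) p' = 1) (a : P → A) (ha : ∀ p, a p * a p = 1)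
    (hc : ∀ p p', a p * a p' = q p p' • (a p' * a p)) (C : P → ∀ d, Matrix (κ d) (κ d) ℂ)
    (hC : ∀ p, C p ∈ unitary (∀ d, Matrix (κ d) (κ d) ℂ)) (hC1 : ∀ p, C p * C p = 1)
    (hCc : ∀ p p', Ap l (C p * C p') (q p p' • (C p' * C p))) (L : List P) :
    Tendsto (fun d => ntr ((L.map C).prod d)) l (𝓝 (τ (L.map a).prod)) := by
  induction hn : L.length using Nat.strong_induction_on generalizing L with
  | _ n ih =>
    cases L with
    | nil =>
      simp only [List.map_nil, List.prod_nil, hτ.one]
      have h1 : ∀ d, ntr ((1 : ∀ d, Matrix (κ d) (κ d) ℂ) d) = 1 := fun d => ntr_one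
      simp only [h1]
      exact tendsto_const_nhds
    | cons p L' =>
      by_cases hp : p ∈ L'
      · obtain ⟨L1, L2, rfl⟩ := List.append_of_mem hp
        obtain ⟨s, hs⟩ : ∃ s, s = (L1.map (q p)).prod := ⟨_, rfl⟩
        have hs1 : s = 1 ∨ s = -1 := by rw [hs]; exact sgn_one_or q hq p L1
        have hlen : (L1 ++ L2).length < n := by
          rw [← hn]
          simp
        have ih' := ih _ hlen (L1 ++ L2) rfl
        have e1 : ((p :: (L1 ++ p :: L2)).map a).prod = s • ((L1 ++ L2).map a).prod := by
          rw [List.map_cons, List.prod_cons, List.map_append, List.prod_append, List.map_cons,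
            List.prod_cons, ← mul_assoc (a p), sgn_exact q a hc p L1, ← hs, smul_mul_assoc,
            mul_assoc, ← mul_assoc (a p) (a p), ha, one_mul, List.map_append, List.prod_append]
        have h2 : Ap l ((C p * (L1.map C).prod) * (C p * (L2.map C).prod))
            ((s • ((L1.map C).prod * C p)) * (C p * (L2.map C).prod)) := by
          refine Ap.mul ?_ (Ap.refl _) ?_ ?_
          · rw [hs]
            exact sgn_approx q hq C hC hCc p L1
          · exact sgn_unitary hs1 (mul_mem (sgn_prod_unitary C hC L1) (hC p))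
          · exact mul_mem (hC p) (sgn_prod_unitary C hC L2)
        have e2 : ((p :: (L1 ++ p :: L2)).map C).prod =
            (C p * (L1.map C).prod) * (C p * (L2.map C).prod) := by
          rw [List.map_cons, List.prod_cons, List.map_append, List.prod_append, List.map_cons,
            List.prod_cons, mul_assoc]
        have e3 : (s • ((L1.map C).prod * C p)) * (C p * (L2.map C).prod) =
            s • ((L1 ++ L2).map C).prod := by
          rw [smul_mul_assoc, mul_assoc, ← mul_assoc (C p) (C p), hC1, one_mul, List.map_append,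
            List.prod_append]
        rw [e3, ← e2] at h2
        have h3 := Ap.ntr h2
        have h4 : Tendsto (fun d => ntr ((s • ((L1 ++ L2).map C).prod) d)) l
            (𝓝 (s * τ ((L1 ++ L2).map a).prod)) := by
          have h5 : ∀ d, ntr ((s • ((L1 ++ L2).map C).prod) d) =
              s * ntr (((L1 ++ L2).map C).prod d) := fun d => by
            rw [Pi.smul_apply, sgn_ntr_smul]
          simp only [h5]
          exact ih'.const_mul s
        have h6 := h3.add h4
        rw [e1, map_smul, smul_eq_mul]
        simpa using h6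
      · obtain ⟨X, hX⟩ : ∃ X, X = ((p :: L').map C).prod := ⟨_, rfl⟩
        have hXu : X ∈ unitary (∀ d, Matrix (κ d) (κ d) ℂ) := by
          rw [hX]
          exact sgn_prod_unitary C hC _
        have hsv : ((p :: L').map (q (bar p))).prod = -1 := by
          rw [List.map_cons, List.prod_cons, hb]
          have h1 : (L'.map (q (bar p))).prod = 1 := by
            apply List.prod_eq_one
            intro x hx
            obtain ⟨y, hy, rfl⟩ := List.mem_map.1 hx
            exact hb' p y fun e => hp (e ▸ hy)
          rw [h1, mul_one]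
        have h1 := sgn_exact q a hc (bar p) (p :: L')
        rw [hsv, neg_one_smul] at h1
        have h2 : τ ((p :: L').map a).prod = 0 := by
          obtain ⟨Y, hY⟩ : ∃ Y, Y = ((p :: L').map a).prod := ⟨_, rfl⟩
          rw [← hY] at h1 ⊢
          have h3 : τ (a (bar p) * Y * a (bar p)) = τ Y := by
            rw [hτ.comm, ← mul_assoc, ha, one_mul]
          rw [h1, neg_mul, mul_assoc, ha, mul_one, map_neg] at h3
          have h4 : τ Y + τ Y = 0 := by
            nth_rewrite 1 [← h3]
            ring
          exact add_self_eq_zero.1 h4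
        rw [h2]
        have h3 := sgn_approx q hq C hC hCc (bar p) (p :: L')
        rw [hsv, ← hX] at h3
        have h4 : Ap l ((C (bar p) * X) * C (bar p)) (((-1 : ℂ) • (X * C (bar p))) * C (bar p)) :=
          Ap.mul h3 (Ap.refl _) (sgn_unitary (Or.inr rfl) (mul_mem hXu (hC _))) (hC _)
        rw [smul_mul_assoc, mul_assoc X, hC1, mul_one] at h4
        have h5 := Ap.ntr h4
        have h6 : ∀ d, ntr (((C (bar p) * X) * C (bar p)) d) - ntr (((-1 : ℂ) • X) d) =
            2 * ntr (X d) := by
          intro d
          have e1 : ntr (((C (bar p) * X) * C (bar p)) d) = ntr (X d) := by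
            rw [Pi.mul_apply, ntr_mul_comm', ← Pi.mul_apply, ← mul_assoc, hC1, one_mul]
          rw [e1, Pi.smul_apply, sgn_ntr_smul]
          ring
        simp only [h6] at h5
        have h7 := h5.const_mul (1 / 2 : ℂ)
        rw [mul_zero] at h7
        refine h7.congr fun d => ?_
        rw [← hX]
        ring

end QWEP
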