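import Pool.Agent.Lib.MP_47effe_an.B.Clt

/-! Two Clifford models tensored: the Bernoulli model. -/

namespace QWEP

/-- the sign of two generators: `-1` for the two different generators of one site -/
def sg {G J : Type} [DecidableEq G] [DecidableEq J] (p q : G × (J × Bool)) : ℂ :=
  if p.1 = q.1 ∧ p.2.1 = q.2.1 ∧ p.2.2 ≠ q.2.2 then -1 else 1

private theorem squ_nh_kron {κ : Type} [Fintype κ] (A B : Matrix κ κ ℂ) :
    nh (Matrix.kronecker A B) = nh A * nh B := by
  unfold nh
  rw [← Real.sqrt_mul (by positivity)]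
  congr 1
  rw [div_mul_div_comm, Fintype.card_prod]
  push_cast
  congr 1
  rw [Finset.sum_mul_sum, Fintype.sum_prod_type]
  refine Finset.sum_congr rfl fun i _ => Finset.sum_congr rfl fun i' _ => ?_
  rw [Finset.sum_mul_sum, Fintype.sum_prod_type]
  refine Finset.sum_congr rfl fun j _ => Finset.sum_congr rfl fun j' _ => ?_
  rw [Matrix.kronecker, Matrix.kroneckerMap_apply, norm_mul, mul_pow]

private theorem squ_nh_unitary {κ : Type} [Fintype κ] [DecidableEq κ] [Nonempty κ] {U : Matrix κ κ ℂ}
    (hU : U ∈ unitary (Matrix κ κ ℂ)) : nh U = 1 := by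
  have h1 : nh U = nh (1 : Matrix κ κ ℂ) := by
    have := nh_mul_left hU (1 : Matrix κ κ ℂ)
    rwa [mul_one] at this
  have h2 : ((nh (1 : Matrix κ κ ℂ) ^ 2 : ℝ) : ℂ) = 1 := by
    rw [nh_sq, star_one, one_mul, ntr_one]
  have h3 : nh (1 : Matrix κ κ ℂ) ^ 2 = 1 := by exact_mod_cast h2
  rw [h1]
  nlinarith [nh_nonneg (1 : Matrix κ κ ℂ)]

private theorem squ_kr_sub {κ : Type} [Fintype κ] [DecidableEq κ] [Nonempty κ] {X X' Y Y' : Matrix κ κ ℂ}
    (hX' : X' ∈ unitary (Matrix κ κ ℂ)) (hY : Y ∈ unitary (Matrix κ κ ℂ)) :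
    nh (Matrix.kronecker X Y - Matrix.kronecker X' Y') ≤ nh (X - X') + nh (Y - Y') := by
  have h : Matrix.kronecker X Y - Matrix.kronecker X' Y' =
      Matrix.kronecker (X - X') Y + Matrix.kronecker X' (Y - Y') := by
    ext i j
    simp only [Matrix.sub_apply, Matrix.add_apply, Matrix.kronecker, Matrix.kroneckerMap_apply]
    ring
  rw [h]
  refine (nh_add_le _ _).trans ?_
  rw [squ_nh_kron, squ_nh_kron, squ_nh_unitary hX', squ_nh_unitary hY, mul_one, one_mul]

private theorem squ_star_kron {κ : Type} [Fintype κ] [DecidableEq κ] (A B : Matrix κ κ ℂ) :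
    star (Matrix.kronecker A B) = Matrix.kronecker (star A) (star B) := by
  ext i j
  simp only [Matrix.star_apply, Matrix.kronecker, Matrix.kroneckerMap_apply, star_mul']

private theorem squ_mul_kron {κ : Type} [Fintype κ] [DecidableEq κ] (A B A' B' : Matrix κ κ ℂ) :
    Matrix.kronecker A B * Matrix.kronecker A' B' = Matrix.kronecker (A * A') (B * B') :=
  (Matrix.mul_kronecker_mul A A' B B').symm

private theorem squ_one_kron {κ : Type} [Fintype κ] [DecidableEq κ] :
    Matrix.kronecker (1 : Matrix κ κ ℂ) (1 : Matrix κ κ ℂ) = 1 := Matrix.one_kronecker_one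

theorem exists_bern {G : Type} [Group G] [DecidableEq G] (hG : Hyperlinear G) (J : Type) [Fintype J] [DecidableEq J]
    (E : Finset G) {δ : ℝ} (hδ : 0 < δ) :
    ∃ (κ : Type) (_ : Fintype κ) (_ : DecidableEq κ) (_ : Nonempty κ) (c : J × Bool → Matrix κ κ ℂ) (V : G → Matrix κ κ ℂ),
      (∀ j, star (c j) = c j) ∧ (∀ j, c j * c j = 1) ∧ (∀ g, V g ∈ unitary (Matrix κ κ ℂ)) ∧
        (∀ g ∈ E, ∀ h ∈ E, nh (V g * V h - V (g * h)) ≤ δ) ∧
          ∀ g ∈ E, ∀ h ∈ E, ∀ i j,
            nh (V g * c i * star (V g) * (V h * c j * star (V h)) -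
              sg (g, i) (h, j) • (V h * c j * star (V h) * (V g * c i * star (V g)))) ≤ δ := by
  obtain ⟨κ, i1, i2, i3, c, V, hcs, hcc, hV, hVV, hac⟩ :=
    exists_model hG (J × Option Bool) E (δ := δ / 2) (by positivity)
  have hcu : ∀ j, c j ∈ unitary (Matrix κ κ ℂ) := by
    intro j
    rw [Unitary.mem_iff, hcs]
    exact ⟨hcc j, hcc j⟩
  have hPu : ∀ g j, V g * c j * star (V g) ∈ unitary (Matrix κ κ ℂ) := fun g j =>
    mul_mem (mul_mem (hV g) (hcu j)) (Unitary.star_mem (hV g))
  refine ⟨κ × κ, inferInstance, inferInstance, inferInstance,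
    fun p => Matrix.kronecker (c (p.1, some p.2)) (c (p.1, none)),
    fun g => Matrix.kronecker (V g) (V g), ?_, ?_, ?_, ?_, ?_⟩
  · intro p
    rw [squ_star_kron, hcs, hcs]
  · intro p
    rw [squ_mul_kron, hcc, hcc, squ_one_kron]
  · intro g
    rw [Unitary.mem_iff, squ_star_kron, squ_mul_kron, squ_mul_kron, Unitary.star_mul_self_of_mem (hV g),
      Unitary.mul_star_self_of_mem (hV g), squ_one_kron]
    exact ⟨rfl, rfl⟩
  · intro g hg h hh
    rw [squ_mul_kron]
    refine (squ_kr_sub (hV (g * h)) (mul_mem (hV g) (hV h))).trans ?_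
    have := hVV g hg h hh
    linarith
  · rintro g hg h hh ⟨i, b⟩ ⟨j, b'⟩
    simp only [squ_star_kron, squ_mul_kron]
    by_cases hs : g = h ∧ i = j
    · obtain ⟨rfl, rfl⟩ := hs
      by_cases hb : b = b'
      · subst hb
        have : sg (g, (i, b)) (g, (i, b)) = 1 := by simp [sg]
        rw [this, one_smul, sub_self, nh_zero]
        exact hδ.le
      · have h1 : sg (g, (i, b)) (g, (i, b')) = -1 := by simp [sg, hb]
        have h2 := hac g hg g hg (i, some b) (i, some b') (by simp [hb])
        rw [h1]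
        have h3 : ∀ X X' Y : Matrix κ κ ℂ, Matrix.kronecker X Y - (-1 : ℂ) • Matrix.kronecker X' Y =
            Matrix.kronecker (X + X') Y := by
          intro X X' Y
          ext i j
          simp only [Matrix.sub_apply, Matrix.add_apply, Matrix.smul_apply, Matrix.kronecker, Matrix.kroneckerMap_apply, smul_eq_mul]
          ring
        rw [h3, squ_nh_kron, squ_nh_unitary (mul_mem (hPu g _) (hPu g _)), mul_one]
        linarith
    · have h1 : sg (g, (i, b)) (h, (j, b')) = 1 := by
        simp only [sg]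
        rw [if_neg]
        rintro ⟨ha, hb, -⟩
        exact hs ⟨ha, hb⟩
      have h2 := hac g hg h hh (i, some b) (j, some b') (by
        intro he
        simp only [Prod.mk.injEq] at he
        exact hs ⟨he.1, he.2.1⟩)
      have h3 := hac g hg h hh (i, none) (j, none) (by
        intro he
        simp only [Prod.mk.injEq] at he
        exact hs ⟨he.1, he.2.1⟩)
      rw [h1, one_smul]
      have h4 : ∀ X Y : Matrix κ κ ℂ, Matrix.kronecker X Y = Matrix.kronecker (-X) (-Y) := by
        intro X Y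
        ext i j
        simp only [Matrix.neg_apply, Matrix.kronecker, Matrix.kroneckerMap_apply]
        ring
      rw [h4 (V h * c (j, some b') * star (V h) * (V g * c (i, some b) * star (V g)))]
      refine (squ_kr_sub ?_ (mul_mem (hPu g _) (hPu h _))).trans ?_
      · have := mul_mem (hPu h (j, some b')) (hPu g (i, some b))
        rw [Unitary.mem_iff] at this ⊢
        rw [star_neg, neg_mul_neg, neg_mul_neg]
        exact this
      · rw [sub_neg_eq_add, sub_neg_eq_add]
        linarith

end QWEP
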