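import Pool.Agent.Lib.MP_47effe_an.Main
import Pool.Agent.Lib.MP_47effe_an.B.Squ
import Pool.Agent.Lib.MP_47effe_an.B.Sgn
import Pool.Agent.Lib.MP_47effe_an.B.Crw

/-!
# Bernoulli shifts of hyperlinear groups
-/

namespace QWEP

open Filter Topology

variable {A G J : Type} [CStarAlgebra A] [Group G] {τ : A →ₗ[ℂ] ℂ} {α : G →* (A ≃⋆ₐ[ℂ] A)}

open Classical in
/-- `e (j, false)`, `e (j, true)` are anticommuting self-adjoint unitaries, which generate a copy of the matrices of size two, and all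
these copies and all their translates by `g ≠ 1` commute. -/
structure Bernoulli (α : G →* (A ≃⋆ₐ[ℂ] A)) (e : J × Bool → A) : Prop where
  star : ∀ s, star (e s) = e s
  sq : ∀ s, e s * e s = 1
  comm : ∀ g s t, α g (e s) * e t = (if g = 1 ∧ s.1 = t.1 ∧ s.2 ≠ t.2 then (-1 : ℂ) else 1) • (e t * α g (e s))

/-- The products of translates of the `e s`. -/
def mon (α : G →* (A ≃⋆ₐ[ℂ] A)) (e : J × Bool → A) : Submonoid A :=
  Submonoid.closure (Set.range fun p : G × (J × Bool) => α p.1 (e p.2))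

/-- Microstates for the elements `x u_g`, `x` in the set `W` of contractions, of the crossed product. -/
def EmbOn (α : G →* (A ≃⋆ₐ[ℂ] A)) (τ : A →ₗ[ℂ] ℂ) (W : Set A) : Prop :=
  ∀ (ι : Type) (_ : Finite ι) (z : ι → Cr α), (∀ i, (z i).x ∈ W) → ∀ (N : ℕ) (ε : ℝ), 0 < ε →
    ∃ (κ : Type) (_ : Fintype κ) (_ : DecidableEq κ) (_ : Nonempty κ) (Z : ι → Matrix κ κ ℂ),
      (∀ i, Bd 1 (Z i)) ∧ ∀ w : List (ι × Bool), w.length ≤ N → ‖ntr (ev star Z w) - ctr α τ (ev Cr.st z w)‖ ≤ ε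

theorem mon_list {e : J × Bool → A} {x : A} (hx : x ∈ mon α e) :
    ∃ L : List (G × (J × Bool)), x = (L.map fun p => α p.1 (e p.2)).prod := by
  induction hx using Submonoid.closure_induction with
  | mem x h =>
    obtain ⟨p, rfl⟩ := h
    exact ⟨[p], by simp⟩
  | one => exact ⟨[], rfl⟩
  | mul x y _ _ ih1 ih2 =>
    obtain ⟨L, rfl⟩ := ih1
    obtain ⟨M, rfl⟩ := ih2
    exact ⟨L ++ M, by rw [List.map_append, List.prod_append]⟩

open Classical in
/-- A net of models. -/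
theorem exists_net (J : Type) (hG : Hyperlinear G) :
    ∃ (D : Type) (l : Filter D) (_ : l.NeBot) (κ : D → Type) (_ : ∀ d, Fintype (κ d)) (_ : ∀ d, DecidableEq (κ d))
      (_ : ∀ d, Nonempty (κ d)) (c : J × Bool → ∀ d, Matrix (κ d) (κ d) ℂ) (W : G → ∀ d, Matrix (κ d) (κ d) ℂ),
      (∀ s, star (c s) = c s) ∧ (∀ s, c s * c s = 1) ∧ (∀ g, W g ∈ unitary (∀ d, Matrix (κ d) (κ d) ℂ)) ∧
        (∀ g h, Ap l (W g * W h) (W (g * h))) ∧
          ∀ p q : G × (J × Bool), Ap l (W p.1 * c p.2 * star (W p.1) * (W q.1 * c q.2 * star (W q.1)))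
            (sg p q • (W q.1 * c q.2 * star (W q.1) * (W p.1 * c p.2 * star (W p.1)))) := by
  have hD : ∀ d : Finset G × Finset J × ℕ, (0 : ℝ) < 1 / ((d.2.2 : ℝ) + 1) := fun d => by positivity
  choose κ i1 i2 i3 c0 V hc0 hc01 hV hVm hVc using fun d : Finset G × Finset J × ℕ =>
    exists_bern hG {j // j ∈ d.2.1} d.1 (hD d)
  have hlim : Tendsto (fun d : Finset G × Finset J × ℕ => 1 / ((d.2.2 : ℝ) + 1)) atTop (𝓝 0) :=
    tendsto_one_div_add_atTop_nhds_zero_nat.comp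
      ((tendsto_atTop_atTop.2 fun n => ⟨(∅, ∅, n), fun d hd => hd.2.2⟩) :
        Tendsto (fun d : Finset G × Finset J × ℕ => d.2.2) atTop atTop)
  have hmem : ∀ (E : Finset G) (F : Finset J), ∀ᶠ d : Finset G × Finset J × ℕ in atTop, E ⊆ d.1 ∧ F ⊆ d.2.1 := by
    intro E F
    exact eventually_atTop.2 ⟨(E, F, 0), fun d hd => ⟨hd.1, hd.2.1⟩⟩
  refine ⟨Finset G × Finset J × ℕ, atTop, inferInstance, κ, i1, i2, i3,
    fun s d => if h : s.1 ∈ d.2.1 then c0 d (⟨s.1, h⟩, s.2) else 1, fun g d => V d g, ?_, ?_, ?_, ?_, ?_⟩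
  · intro s
    funext d
    change star (if h : s.1 ∈ d.2.1 then c0 d (⟨s.1, h⟩, s.2) else 1) = if h : s.1 ∈ d.2.1 then c0 d (⟨s.1, h⟩, s.2) else 1
    split_ifs
    · exact hc0 d _
    · exact star_one _
  · intro s
    funext d
    change (if h : s.1 ∈ d.2.1 then c0 d (⟨s.1, h⟩, s.2) else 1) * (if h : s.1 ∈ d.2.1 then c0 d (⟨s.1, h⟩, s.2) else 1) = 1
    split_ifs
    · exact hc01 d _
    · exact mul_one _
  · intro g
    rw [Unitary.mem_iff]
    constructor
    · funext d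
      exact (Unitary.mem_iff.1 (hV d g)).1
    · funext d
      exact (Unitary.mem_iff.1 (hV d g)).2
  · intro g h
    refine squeeze_zero' (Eventually.of_forall fun d => nh_nonneg _) ?_ hlim
    filter_upwards [hmem {g, h} ∅] with d hd
    exact hVm d g (hd.1 (by simp)) h (hd.1 (by simp))
  · rintro ⟨g, s⟩ ⟨h, t⟩
    refine squeeze_zero' (Eventually.of_forall fun d => nh_nonneg _) ?_ hlim
    filter_upwards [hmem {g, h} {s.1, t.1}] with d hd
    have h1 : s.1 ∈ d.2.1 := hd.2 (by simp)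
    have h2 : t.1 ∈ d.2.1 := hd.2 (by simp)
    have h3 := hVc d g (hd.1 (by simp)) h (hd.1 (by simp)) (⟨s.1, h1⟩, s.2) (⟨t.1, h2⟩, t.2)
    have h6 : sg (g, ((⟨s.1, h1⟩ : {j // j ∈ d.2.1}), s.2)) (h, ((⟨t.1, h2⟩ : {j // j ∈ d.2.1}), t.2)) = sg (g, s) (h, t) := by
      simp only [sg, Subtype.mk.injEq]
    rw [h6] at h3
    have h4 : (if h : s.1 ∈ d.2.1 then c0 d (⟨s.1, h⟩, s.2) else 1) = c0 d (⟨s.1, h1⟩, s.2) := dif_pos h1
    have h5 : (if h : t.1 ∈ d.2.1 then c0 d (⟨t.1, h⟩, t.2) else 1) = c0 d (⟨t.1, h2⟩, t.2) := dif_pos h2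
    change nh (V d g * (if h : s.1 ∈ d.2.1 then c0 d (⟨s.1, h⟩, s.2) else 1) * star (V d g) *
      (V d h * (if h : t.1 ∈ d.2.1 then c0 d (⟨t.1, h⟩, t.2) else 1) * star (V d h)) -
      sg (g, s) (h, t) • (V d h * (if h : t.1 ∈ d.2.1 then c0 d (⟨t.1, h⟩, t.2) else 1) * star (V d h) *
        (V d g * (if h : s.1 ∈ d.2.1 then c0 d (⟨s.1, h⟩, s.2) else 1) * star (V d g)))) ≤ _
    rw [h4, h5]
    exact h3

open Classical in
theorem words_on (hτ : TracialState τ) {e : J × Bool → A} (he : Bernoulli α e) {D : Type} {l : Filter D} {κ : D → Type}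
    [∀ d, Fintype (κ d)] [∀ d, DecidableEq (κ d)] [∀ d, Nonempty (κ d)] (c : J × Bool → ∀ d, Matrix (κ d) (κ d) ℂ)
    (W : G → ∀ d, Matrix (κ d) (κ d) ℂ) (hc : ∀ s, star (c s) = c s) (hc1 : ∀ s, c s * c s = 1)
    (hW : ∀ g, W g ∈ unitary (∀ d, Matrix (κ d) (κ d) ℂ)) (hWm : ∀ g h, Ap l (W g * W h) (W (g * h)))
    (hCc : ∀ p q : G × (J × Bool), Ap l (W p.1 * c p.2 * star (W p.1) * (W q.1 * c q.2 * star (W q.1)))
      (sg p q • (W q.1 * c q.2 * star (W q.1) * (W p.1 * c p.2 * star (W p.1))))) :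
    (∀ p : G × (J × Bool), W p.1 * c p.2 * star (W p.1) ∈ unitary (∀ d, Matrix (κ d) (κ d) ℂ)) ∧
      ∀ M : List (G × (J × Bool)), Tendsto (fun d => ntr (((M.map fun p => W p.1 * c p.2 * star (W p.1)).prod) d)) l
        (𝓝 (τ (M.map fun p => α p.1 (e p.2)).prod)) := by
  have hCu : ∀ p : G × (J × Bool), W p.1 * c p.2 * star (W p.1) ∈ unitary (∀ d, Matrix (κ d) (κ d) ℂ) := by
    intro p
    have h1 : c p.2 ∈ unitary (∀ d, Matrix (κ d) (κ d) ℂ) := by
      rw [Unitary.mem_iff, hc]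
      exact ⟨hc1 _, hc1 _⟩
    exact mul_mem (mul_mem (hW _) h1) (Unitary.star_mem (hW _))
  refine ⟨hCu, fun M => ?_⟩
  refine sgn_list hτ (fun p p' => sg p p') ?_ (fun p => (p.1, (p.2.1, !p.2.2))) ?_ ?_ (fun p => α p.1 (e p.2)) ?_ ?_
    (fun p => W p.1 * c p.2 * star (W p.1)) hCu ?_ hCc M
  · intro p p'
    simp only [sg]
    split_ifs
    · exact Or.inr rfl
    · exact Or.inl rfl
  · rintro ⟨g, j, b⟩
    simp only [sg]
    rw [if_pos]
    cases b <;> simp
  · rintro ⟨g, j, b⟩ ⟨h, k, b'⟩ hne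
    simp only [sg]
    rw [if_neg]
    rintro ⟨h1, h2, h3⟩
    apply hne
    have h4 : b' = b := by
      revert h3
      cases b <;> cases b' <;> simp
    have h1' : g = h := h1
    have h2' : j = k := h2
    rw [h1', h2', h4]
  · intro p
    change α p.1 (e p.2) * α p.1 (e p.2) = 1
    rw [← map_mul (α p.1), he.sq, map_one (α p.1)]
  · rintro ⟨g, s⟩ ⟨h, t⟩
    have h1 := congrArg (α h) (he.comm (h⁻¹ * g) s t)
    have h2 : α h (α (h⁻¹ * g) (e s)) = α g (e s) := by
      rw [← StarAlgEquiv.mul_apply, ← map_mul α, mul_inv_cancel_left]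
    rw [map_mul (α h), h2, map_smul, map_mul (α h), h2] at h1
    change α g (e s) * α h (e t) = sg (g, s) (h, t) • (α h (e t) * α g (e s))
    rw [h1]
    congr 1
    have h3 : h⁻¹ * g = 1 ↔ g = h := by rw [inv_mul_eq_one, eq_comm]
    simp only [sg, h3]
  · intro p
    have h1 := (Unitary.mem_iff.1 (hW p.1)).1
    have h2 := (Unitary.mem_iff.1 (hW p.1)).2
    calc W p.1 * c p.2 * star (W p.1) * (W p.1 * c p.2 * star (W p.1)) =
        W p.1 * (c p.2 * (star (W p.1) * W p.1) * c p.2) * star (W p.1) := by simp only [mul_assoc]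
      _ = 1 := by rw [h1, mul_one, hc1, mul_one, h2]

/-- Covariant microstates for the products. -/
theorem cov_on (hτ : TracialState τ) {e : J × Bool → A} (he : Bernoulli α e) (hG : Hyperlinear G)
    (ι : Type) (hι : Finite ι) (z : ι → Cr α) (hz : ∀ i, (z i).x ∈ mon α e) (N : ℕ) (ε : ℝ) (hε : 0 < ε) :
    ∃ (κ : Type) (_ : Fintype κ) (_ : DecidableEq κ) (_ : Nonempty κ) (Z : ι → Matrix κ κ ℂ),
      (∀ i, Bd 1 (Z i)) ∧ ∀ w : List (ι × Bool), w.length ≤ N → (ev Cr.st z w).g = 1 →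
        ‖ntr (ev star Z w) - τ (ev Cr.st z w).x‖ ≤ ε := by
  classical
  choose L hL using fun i => mon_list (hz i)
  obtain ⟨D, l, hl, κ, _, _, _, c, W, hc, hc1, hW, hWm, hCc⟩ := exists_net J hG
  obtain ⟨hCu, hsg⟩ := words_on hτ he c W hc hc1 hW hWm hCc
  have hLu : ∀ M : List (G × (J × Bool)), (M.map fun p => W p.1 * c p.2 * star (W p.1)).prod ∈
      unitary (∀ d, Matrix (κ d) (κ d) ℂ) := by
    intro M
    induction M with
    | nil => exact one_mem _
    | cons p M ih =>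
      rw [List.map_cons, List.prod_cons]
      exact mul_mem (hCu p) ih
  have hW1 : Ap l (W 1) 1 := by
    have h1 : ∀ d, nh (W 1 d - 1) = nh (W 1 d * W 1 d - W 1 d) := by
      intro d
      have h0 : W 1 d ∈ unitary (Matrix (κ d) (κ d) ℂ) := by
        have h2 := Unitary.mem_iff.1 (hW 1)
        exact Unitary.mem_iff.2 ⟨congrFun h2.1 d, congrFun h2.2 d⟩
      have h3 := nh_mul_left h0 (W 1 d - 1)
      rw [mul_sub, mul_one] at h3
      exact h3.symm
    have h2 := hWm 1 1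
    have h4 : (1 : G) * 1 = 1 := one_mul 1
    rw [h4] at h2
    refine Tendsto.congr (fun d => (h1 d).symm) h2
  obtain ⟨Z, hZ⟩ : ∃ Z : ι → ∀ d, Matrix (κ d) (κ d) ℂ, Z = fun i => ((L i).map fun p => W p.1 * c p.2 * star (W p.1)).prod *
    W (z i).g := ⟨_, rfl⟩
  have hZu : ∀ i, Z i ∈ unitary (∀ d, Matrix (κ d) (κ d) ℂ) := fun i => by
    rw [hZ]
    exact mul_mem (hLu _) (hW _)
  have hev : ∀ (w : List (ι × Bool)) (d : D), ev star Z w d = ev star (fun i => Z i d) w := by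
    intro w d
    induction w with
    | nil => rfl
    | cons p w ih =>
      rw [ev_cons, ev_cons, ← ih, Pi.mul_apply]
      congr 1
      split_ifs <;> rfl
  have hword : ∀ w : List (ι × Bool), (ev Cr.st z w).g = 1 →
      Tendsto (fun d => ntr (ev star (fun i => Z i d) w)) l (𝓝 (τ (ev Cr.st z w).x)) := by
    intro w hw
    obtain ⟨M, hM, hMp⟩ := crw_list α e he.star c hc hc1 W hW hWm z L hL w
    rw [hw, ← hZ] at hMp
    have h2 : Ap l ((M.map fun p => W p.1 * c p.2 * star (W p.1)).prod * W 1)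
        ((M.map fun p => W p.1 * c p.2 * star (W p.1)).prod * 1) :=
      Ap.mul (Ap.refl _) hW1 (hLu M) (hW 1)
    have h5 : (M.map fun p => W p.1 * c p.2 * star (W p.1)).prod * 1 = (M.map fun p => W p.1 * c p.2 * star (W p.1)).prod :=
      mul_one _
    rw [h5] at h2
    have h4 := (hMp.trans h2).ntr.add (hsg M)
    rw [zero_add] at h4
    rw [hM]
    refine h4.congr fun d => ?_
    rw [← hev w d]
    exact sub_add_cancel _ _
  have hall : ∀ᶠ d : D in l, ∀ w ∈ {w : List (ι × Bool) | w.length ≤ N}, (ev Cr.st z w).g = 1 →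
      ‖ntr (ev star (fun i => Z i d) w) - τ (ev Cr.st z w).x‖ ≤ ε := by
    have hfin : {w : List (ι × Bool) | w.length ≤ N}.Finite := List.finite_length_le _ _
    rw [eventually_all_finite hfin]
    intro w _
    by_cases hg : (ev Cr.st z w).g = 1
    · have h1 := (tendsto_iff_norm_sub_tendsto_zero.1 (hword w hg)).eventually (gt_mem_nhds hε)
      exact h1.mono fun d hd _ => hd.le
    · exact Eventually.of_forall fun d h => absurd h hg
  obtain ⟨d, hd⟩ := hall.exists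
  refine ⟨κ d, inferInstance, inferInstance, inferInstance, fun i => Z i d, fun i => ?_, fun w hw hg => hd w hw hg⟩
  refine bd_unitary ?_
  have h1 := Unitary.mem_iff.1 (hZu i)
  exact Unitary.mem_iff.2 ⟨congrFun h1.1 d, congrFun h1.2 d⟩

/-- Bernoulli shifts: the crossed product embeds if and only if the group is hyperlinear. -/
theorem embOn_iff (hτ : TracialState τ) {e : J × Bool → A} (he : Bernoulli α e) :
    EmbOn α τ (mon α e) ↔ Hyperlinear G := by
  classical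
  constructor
  · intro h ι hι z N ε hε
    obtain ⟨κ, j1, j2, j3, Z, h4, h5⟩ := h ι hι (fun i => (⟨1, z i⟩ : Cr α)) (fun i => one_mem _) N ε hε
    refine ⟨κ, j1, j2, j3, Z, h4, fun w hw => ?_⟩
    have h6 : ev Cr.st (fun i => (⟨1, z i⟩ : Cr α)) w = ⟨1, ev (fun g : G => g⁻¹) z w⟩ := by
      refine ev_comap Cr.st (fun g : G => g⁻¹) (fun g => (⟨1, g⟩ : Cr α)) rfl (fun s t => ?_) (fun s => ?_) z w
      · refine Cr.ext ?_ rfl
        change (1 : A) = 1 * α s 1
        rw [map_one (α s), mul_one]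
      · refine Cr.ext ?_ rfl
        change (1 : A) = α s⁻¹ (star 1)
        rw [star_one, map_one (α s⁻¹)]
    have h7 := h5 w hw
    rw [h6] at h7
    change ‖ntr (ev star Z w) - (if ev (fun g : G => g⁻¹) z w = 1 then τ 1 else 0)‖ ≤ ε at h7
    rw [hτ.one] at h7
    exact h7
  · intro hG ι hι z hz N ε hε
    obtain ⟨κ, j1, j2, j3, Z, h4, h5⟩ := cov_on hτ he hG ι hι z hz N (ε / 2) (by positivity)
    obtain ⟨B, hB0, hB⟩ := exists_bound N fun w : List (ι × Bool) => ntr (ev star Z w)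
    obtain ⟨κ', j1', j2', j3', W, h4', h5'⟩ := hG ι hι (fun i => (z i).g) N (ε / (2 * B)) (by positivity)
    refine ⟨κ × κ', inferInstance, inferInstance, inferInstance, fun i => kc (Z i) (W i),
      fun i => bd_mono (kc_bd (h4 i) (h4' i)) (by rw [mul_one]), fun w hw => ?_⟩
    rw [kc_ev, kc_ntr, ctr, ev_g]
    have h6 : ‖ntr (ev star W w) - (if ev (fun g : G => g⁻¹) (fun i => (z i).g) w = 1 then 1 else 0)‖ ≤ ε / (2 * B) := h5' w hw
    have h7 := hB w hw
    by_cases hg : ev (fun g : G => g⁻¹) (fun i => (z i).g) w = 1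
    · rw [if_pos hg] at h6 ⊢
      have h8 := h5 w hw (by rw [ev_g]; exact hg)
      have h9 : ntr (ev star Z w) * star (ntr (ev star W w)) - τ (ev Cr.st z w).x =
          ntr (ev star Z w) * star (ntr (ev star W w) - 1) + (ntr (ev star Z w) - τ (ev Cr.st z w).x) := by
        rw [star_sub, star_one]
        ring
      rw [h9]
      refine (norm_add_le _ _).trans ?_
      rw [norm_mul, norm_star]
      have h10 : ‖ntr (ev star Z w)‖ * ‖ntr (ev star W w) - 1‖ ≤ B * (ε / (2 * B)) :=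
        mul_le_mul h7 h6 (norm_nonneg _) hB0.le
      have h11 : B * (ε / (2 * B)) = ε / 2 := by
        field_simp
      rw [h11] at h10
      linarith
    · rw [if_neg hg] at h6 ⊢
      rw [sub_zero] at h6 ⊢
      rw [norm_mul, norm_star]
      have h10 : ‖ntr (ev star Z w)‖ * ‖ntr (ev star W w)‖ ≤ B * (ε / (2 * B)) :=
        mul_le_mul h7 h6 (norm_nonneg _) hB0.le
      have h11 : B * (ε / (2 * B)) = ε / 2 := by
        field_simp
      rw [h11] at h10
      linarith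

end QWEP
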