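import Pool.Agent.Lib.MP_47effe_an.B.Pol

namespace QWEP

open Matrix
open scoped ComplexOrder

private theorem mca_diag {κ : Type} [Fintype κ] [DecidableEq κ] (X : Matrix κ κ ℂ) (r : κ → ℝ)
    (hX : star X * X = Matrix.diagonal (fun i => (r i : ℂ))) (w : κ → ℂ) :
    ∑ i, ‖(X.mulVec w) i‖ ^ 2 = ∑ i, r i * ‖w i‖ ^ 2 := by
  have h1 : ((∑ i, ‖(X.mulVec w) i‖ ^ 2 : ℝ) : ℂ) = star (X.mulVec w) ⬝ᵥ (X.mulVec w) := by
    push_cast
    unfold dotProduct
    refine Finset.sum_congr rfl fun i _ => ?_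
    exact (Complex.conj_mul' _).symm
  have h2 : star (X.mulVec w) ⬝ᵥ (X.mulVec w) = star w ⬝ᵥ ((star X * X).mulVec w) := by
    rw [← Matrix.mulVec_mulVec, Matrix.dotProduct_mulVec (star w) (star X) (X.mulVec w),
      Matrix.star_mulVec]
    rfl
  have h3 : star w ⬝ᵥ ((star X * X).mulVec w) = ((∑ i, r i * ‖w i‖ ^ 2 : ℝ) : ℂ) := by
    rw [hX]
    push_cast
    unfold dotProduct
    refine Finset.sum_congr rfl fun i _ => ?_
    rw [Matrix.mulVec_diagonal, ← Complex.conj_mul', Pi.star_apply, Complex.star_def]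
    ring
  have h4 := h1.trans (h2.trans h3)
  exact_mod_cast h4

private theorem mca_ntr_diag {κ : Type} [Fintype κ] [DecidableEq κ] (r : κ → ℝ) :
    ntr (Matrix.diagonal (fun i => (r i : ℂ))) = (((∑ i, r i) / Fintype.card κ : ℝ) : ℂ) := by
  unfold ntr
  rw [Matrix.trace_diagonal]
  push_cast
  rfl

private theorem mca_num {t b b' : ℝ} (ht : 0 ≤ t) (hb : 0 ≤ b) (hbb : b < b') (n : ℕ) {d : ℝ}
    (hd : d = if √t ≤ b then 1 else b / √t) :
    (1 - d) ^ 2 * t ≤ (b' - b) ^ 2 + t ^ (n + 1) / b' ^ (2 * n) := by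
  have hb' : 0 < b' := lt_of_le_of_lt hb hbb
  have hq : 0 ≤ t ^ (n + 1) / b' ^ (2 * n) := by positivity
  by_cases h1 : √t ≤ b
  · rw [hd, if_pos h1, sub_self]
    have := sq_nonneg (b' - b)
    nlinarith
  · rw [not_le] at h1
    have hs : 0 < √t := lt_of_le_of_lt hb h1
    have e : (1 - d) ^ 2 * t = (√t - b) ^ 2 := by
      rw [hd, if_neg (not_le.2 h1)]
      have h2 : t = √t ^ 2 := (Real.sq_sqrt ht).symm
      conv_lhs => rw [h2]
      rw [Real.sqrt_sq (Real.sqrt_nonneg t)]
      field_simp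
    rw [e]
    by_cases h3 : √t ≤ b'
    · have h4 : (√t - b) ^ 2 ≤ (b' - b) ^ 2 := pow_le_pow_left₀ (by linarith) (by linarith) 2
      linarith
    · rw [not_le] at h3
      have h4 : (√t - b) ^ 2 ≤ t := by
        have : (√t - b) ^ 2 ≤ √t ^ 2 := pow_le_pow_left₀ (by linarith) (by linarith) 2
        rwa [Real.sq_sqrt ht] at this
      have h5 : b' ^ 2 ≤ t := by
        have : b' ^ 2 ≤ √t ^ 2 := pow_le_pow_left₀ hb'.le h3.le 2
        rwa [Real.sq_sqrt ht] at this
      have h6 : t ≤ t ^ (n + 1) / b' ^ (2 * n) := by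
        rw [le_div_iff₀ (by positivity), pow_mul, pow_succ, mul_comm]
        exact mul_le_mul_of_nonneg_right (pow_le_pow_left₀ (by positivity) h5 n) ht
      have := sq_nonneg (b' - b)
      linarith

theorem exists_cut {κ : Type} [Fintype κ] [DecidableEq κ] [Nonempty κ] (Y : Matrix κ κ ℂ) {b : ℝ} (hb : 0 ≤ b) :
    ∃ F : Matrix κ κ ℂ, Bd b F ∧ ∀ (b' : ℝ), b < b' → ∀ n : ℕ,
      nh (Y - F) ^ 2 ≤ (b' - b) ^ 2 + (ntr ((star Y * Y) ^ (n + 1))).re / b' ^ (2 * n) := by
  have hH : (star Y * Y).IsHermitian := Matrix.isHermitian_conjTranspose_mul_self Y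
  have hps : (star Y * Y).PosSemidef := Matrix.posSemidef_conjTranspose_mul_self Y
  obtain ⟨t, ht⟩ : ∃ t : κ → ℝ, t = hH.eigenvalues := ⟨_, rfl⟩
  have ht0 : ∀ i, 0 ≤ t i := by
    intro i
    rw [ht]
    exact hps.eigenvalues_nonneg i
  let U : unitary (Matrix κ κ ℂ) := hH.eigenvectorUnitary
  have hU1 : star (U : Matrix κ κ ℂ) * U = 1 := Unitary.coe_star_mul_self U
  have hU2 : (U : Matrix κ κ ℂ) * star (U : Matrix κ κ ℂ) = 1 := Unitary.coe_mul_star_self U
  have hUs : star (U : Matrix κ κ ℂ) ∈ unitary (Matrix κ κ ℂ) := (star U).2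
  have hdiag : star (U : Matrix κ κ ℂ) * (star Y * Y) * U =
      Matrix.diagonal (fun i => (t i : ℂ)) := by
    have := hH.conjStarAlgAut_star_eigenvectorUnitary
    rw [Unitary.conjStarAlgAut_star_apply] at this
    rw [ht]
    exact this
  obtain ⟨N, hN⟩ : ∃ N : Matrix κ κ ℂ, N = Y * U := ⟨_, rfl⟩
  have hNN : star N * N = Matrix.diagonal (fun i => (t i : ℂ)) := by
    rw [← hdiag, hN, star_mul]
    simp only [mul_assoc]
  have hYN : Y = N * star (U : Matrix κ κ ℂ) := by rw [hN, mul_assoc, hU2, mul_one]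
  obtain ⟨d, hd⟩ : ∃ d : κ → ℝ, d = fun i => if √(t i) ≤ b then 1 else b / √(t i) := ⟨_, rfl⟩
  obtain ⟨D, hD⟩ : ∃ D : Matrix κ κ ℂ, D = Matrix.diagonal (fun i => (d i : ℂ)) := ⟨_, rfl⟩
  have hDs : star D = D := by
    rw [hD, Matrix.star_eq_conjTranspose, Matrix.diagonal_conjTranspose]
    congr 1
    funext i
    simp
  have hkey : ∀ r : κ → ℝ, star (N * Matrix.diagonal (fun i => (r i : ℂ))) *
      (N * Matrix.diagonal (fun i => (r i : ℂ))) =
      Matrix.diagonal (fun i => ((r i ^ 2 * t i : ℝ) : ℂ)) := by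
    intro r
    have hs : star (Matrix.diagonal (fun i => (r i : ℂ))) = Matrix.diagonal (fun i => (r i : ℂ)) := by
      rw [Matrix.star_eq_conjTranspose, Matrix.diagonal_conjTranspose]
      congr 1
      funext i
      simp
    rw [star_mul, hs, mul_assoc, ← mul_assoc (star N), hNN, Matrix.diagonal_mul_diagonal,
      Matrix.diagonal_mul_diagonal]
    congr 1
    funext i
    push_cast
    ring
  refine ⟨N * D * star (U : Matrix κ κ ℂ), ?_, ?_⟩
  · intro v
    have h1 : (N * D * star (U : Matrix κ κ ℂ)).mulVec v =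
        (N * D).mulVec ((star (U : Matrix κ κ ℂ)).mulVec v) := by
      rw [Matrix.mulVec_mulVec]
    have h2 := hkey d
    rw [← hD] at h2
    rw [h1, mca_diag (N * D) (fun i => d i ^ 2 * t i) h2]
    have h3 := bd_unitary hUs v
    rw [one_pow, one_mul] at h3
    have h4 : ∀ i, d i ^ 2 * t i ≤ b ^ 2 := by
      intro i
      have e : d i = if √(t i) ≤ b then 1 else b / √(t i) := by rw [hd]
      by_cases h5 : √(t i) ≤ b
      · rw [e, if_pos h5, one_pow, one_mul, ← Real.sq_sqrt (ht0 i)]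
        exact pow_le_pow_left₀ (Real.sqrt_nonneg _) h5 2
      · rw [e, if_neg h5]
        have h6 : 0 < √(t i) := lt_of_le_of_lt hb (not_le.1 h5)
        have h7 : (b / √(t i)) ^ 2 * t i = b ^ 2 := by
          have h8 : t i = √(t i) ^ 2 := (Real.sq_sqrt (ht0 i)).symm
          rw [div_pow, ← h8]
          have h9 : t i ≠ 0 := by
            intro h0
            rw [h0, Real.sqrt_zero] at h6
            exact lt_irrefl _ h6
          field_simp
        exact h7.le
    calc ∑ i, d i ^ 2 * t i * ‖((star (U : Matrix κ κ ℂ)).mulVec v) i‖ ^ 2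
        ≤ ∑ i, b ^ 2 * ‖((star (U : Matrix κ κ ℂ)).mulVec v) i‖ ^ 2 :=
          Finset.sum_le_sum fun i _ => mul_le_mul_of_nonneg_right (h4 i) (by positivity)
      _ = b ^ 2 * ∑ i, ‖((star (U : Matrix κ κ ℂ)).mulVec v) i‖ ^ 2 := by rw [Finset.mul_sum]
      _ ≤ b ^ 2 * ∑ i, ‖v i‖ ^ 2 := mul_le_mul_of_nonneg_left h3 (by positivity)
  · intro b' hbb n
    have hc : (0 : ℝ) < Fintype.card κ := by exact_mod_cast Fintype.card_pos
    have hb' : 0 < b' := lt_of_le_of_lt hb hbb
    -- the left side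
    have e1 : Y - N * D * star (U : Matrix κ κ ℂ) =
        (N * Matrix.diagonal (fun i => ((1 - d i : ℝ) : ℂ))) * star (U : Matrix κ κ ℂ) := by
      have e2 : Matrix.diagonal (fun i => ((1 - d i : ℝ) : ℂ)) = 1 - D := by
        rw [hD, ← Matrix.diagonal_one, Matrix.diagonal_sub]
        congr 1
        funext i
        push_cast
        rfl
      rw [e2, mul_sub, mul_one, sub_mul, ← hYN]
    have e3 : nh (Y - N * D * star (U : Matrix κ κ ℂ)) ^ 2 =
        (∑ i, (1 - d i) ^ 2 * t i) / Fintype.card κ := by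
      rw [e1, nh_mul_right hUs]
      have h5 := nh_sq (N * Matrix.diagonal (fun i => ((1 - d i : ℝ) : ℂ)))
      rw [hkey (fun i => 1 - d i), mca_ntr_diag] at h5
      exact_mod_cast h5
    -- the right side
    have e4 : ∀ m : ℕ, (star Y * Y) ^ m = (U : Matrix κ κ ℂ) *
        Matrix.diagonal (fun i => ((t i ^ m : ℝ) : ℂ)) * star (U : Matrix κ κ ℂ) := by
      have e5 : star Y * Y = (U : Matrix κ κ ℂ) * Matrix.diagonal (fun i => (t i : ℂ)) *
          star (U : Matrix κ κ ℂ) := by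
        rw [← hdiag]
        calc star Y * Y = ((U : Matrix κ κ ℂ) * star (U : Matrix κ κ ℂ)) * (star Y * Y) *
              ((U : Matrix κ κ ℂ) * star (U : Matrix κ κ ℂ)) := by rw [hU2, one_mul, mul_one]
          _ = _ := by simp only [mul_assoc]
      intro m
      induction m with
      | zero => simp [hU2]
      | succ m ih =>
        rw [pow_succ, ih]
        conv_lhs => rw [e5]
        calc (U : Matrix κ κ ℂ) * Matrix.diagonal (fun i => ((t i ^ m : ℝ) : ℂ)) *
              star (U : Matrix κ κ ℂ) * ((U : Matrix κ κ ℂ) * Matrix.diagonal (fun i => (t i : ℂ)) *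
              star (U : Matrix κ κ ℂ)) = (U : Matrix κ κ ℂ) *
              Matrix.diagonal (fun i => ((t i ^ m : ℝ) : ℂ)) * (star (U : Matrix κ κ ℂ) * U) *
              Matrix.diagonal (fun i => (t i : ℂ)) * star (U : Matrix κ κ ℂ) := by
                simp only [mul_assoc]
          _ = (U : Matrix κ κ ℂ) * (Matrix.diagonal (fun i => ((t i ^ m : ℝ) : ℂ)) *
              Matrix.diagonal (fun i => (t i : ℂ))) * star (U : Matrix κ κ ℂ) := by
                rw [hU1, mul_one]
                simp only [mul_assoc]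
          _ = _ := by
                rw [Matrix.diagonal_mul_diagonal]
                congr 3
                funext i
                push_cast
                ring
    have e6 : (ntr ((star Y * Y) ^ (n + 1))).re = (∑ i, t i ^ (n + 1)) / Fintype.card κ := by
      rw [e4, ntr_mul_comm', ← mul_assoc, hU1, one_mul, mca_ntr_diag, Complex.ofReal_re]
    rw [e3, e6]
    have e7 : ∑ i, (1 - d i) ^ 2 * t i ≤ ∑ i, ((b' - b) ^ 2 + t i ^ (n + 1) / b' ^ (2 * n)) :=
      Finset.sum_le_sum fun i _ => mca_num (ht0 i) hb hbb n (by rw [hd])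
    rw [Finset.sum_add_distrib, Finset.sum_const, Finset.card_univ, nsmul_eq_mul,
      ← Finset.sum_div] at e7
    rw [div_le_iff₀ hc]
    have e8 : ((b' - b) ^ 2 + (∑ i, t i ^ (n + 1)) / (Fintype.card κ : ℝ) / b' ^ (2 * n)) *
        (Fintype.card κ : ℝ) = (Fintype.card κ : ℝ) * (b' - b) ^ 2 +
        (∑ i, t i ^ (n + 1)) / b' ^ (2 * n) := by
      field_simp
    rw [e8]
    exact e7

end QWEP
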