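import Pool.Agent.Lib.MP_47effe_an.Defs

/-!
# The normalized Hilbert-Schmidt norm
-/

namespace QWEP

/-- The normalized Hilbert-Schmidt norm. -/
noncomputable def nh {κ : Type} [Fintype κ] (M : Matrix κ κ ℂ) : ℝ := √((∑ i, ∑ j, ‖M i j‖ ^ 2) / Fintype.card κ)

variable {κ : Type} [Fintype κ] [DecidableEq κ]

theorem nh_nonneg (M : Matrix κ κ ℂ) : 0 ≤ nh M := Real.sqrt_nonneg _

private theorem rad_nonneg' (M : Matrix κ κ ℂ) : 0 ≤ (∑ i, ∑ j, ‖M i j‖ ^ 2) / (Fintype.card κ : ℝ) :=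
  div_nonneg (Finset.sum_nonneg fun _ _ => Finset.sum_nonneg fun _ _ => by positivity) (Nat.cast_nonneg _)

private theorem nh_sq' (M : Matrix κ κ ℂ) : nh M ^ 2 = (∑ i, ∑ j, ‖M i j‖ ^ 2) / Fintype.card κ :=
  Real.sq_sqrt (rad_nonneg' M)

theorem nh_zero : nh (0 : Matrix κ κ ℂ) = 0 := by
  simp [nh]

theorem nh_sq (M : Matrix κ κ ℂ) : ((nh M ^ 2 : ℝ) : ℂ) = ntr (star M * M) := by
  rw [nh_sq', ntr, Matrix.trace]
  push_cast
  congr 1
  rw [Finset.sum_comm]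
  refine Finset.sum_congr rfl fun j _ => ?_
  rw [Matrix.diag_apply, Matrix.mul_apply]
  refine Finset.sum_congr rfl fun i _ => ?_
  rw [Matrix.star_apply, Complex.star_def, ← Complex.normSq_eq_conj_mul_self, Complex.normSq_eq_norm_sq]
  push_cast
  rfl

theorem nh_star (M : Matrix κ κ ℂ) : nh (star M) = nh M := by
  unfold nh
  congr 2
  rw [Finset.sum_comm]
  refine Finset.sum_congr rfl fun j _ => Finset.sum_congr rfl fun i _ => ?_
  rw [Matrix.star_apply, norm_star]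

theorem nh_smul (c : ℂ) (M : Matrix κ κ ℂ) : nh (c • M) = ‖c‖ * nh M := by
  have h : nh (c • M) ^ 2 = (‖c‖ * nh M) ^ 2 := by
    rw [nh_sq', mul_pow, nh_sq', ← mul_div_assoc, Finset.mul_sum]
    congr 1
    refine Finset.sum_congr rfl fun i _ => ?_
    rw [Finset.mul_sum]
    refine Finset.sum_congr rfl fun j _ => ?_
    rw [Matrix.smul_apply, norm_smul, mul_pow]
  exact (pow_left_inj₀ (nh_nonneg _) (mul_nonneg (norm_nonneg _) (nh_nonneg _)) two_ne_zero).1 h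

theorem nh_neg (M : Matrix κ κ ℂ) : nh (-M) = nh M := by
  unfold nh
  simp only [Matrix.neg_apply, norm_neg]

theorem nh_add_le (M M' : Matrix κ κ ℂ) : nh (M + M') ≤ nh M + nh M' := by
  have key : ∀ A : Matrix κ κ ℂ, nh A = ‖WithLp.toLp 2 (fun p : κ × κ => A p.1 p.2)‖ / √(Fintype.card κ) := by
    intro A
    rw [nh, Real.sqrt_div' _ (Nat.cast_nonneg _), EuclideanSpace.norm_eq, Fintype.sum_prod_type]
  rw [key, key, key, ← add_div]
  refine div_le_div_of_nonneg_right ?_ (Real.sqrt_nonneg _)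
  have h2 := norm_add_le (WithLp.toLp 2 (fun p : κ × κ => M p.1 p.2)) (WithLp.toLp 2 (fun p : κ × κ => M' p.1 p.2))
  rwa [← WithLp.toLp_add] at h2

theorem ntr_mul_comm' (M M' : Matrix κ κ ℂ) : ntr (M * M') = ntr (M' * M) := by
  rw [ntr, ntr, Matrix.trace_mul_comm]

private theorem nh_eq_of {M M' : Matrix κ κ ℂ} (h : ntr (star M * M) = ntr (star M' * M')) : nh M = nh M' := by
  rw [← nh_sq, ← nh_sq] at h
  exact (pow_left_inj₀ (nh_nonneg _) (nh_nonneg _) two_ne_zero).1 (Complex.ofReal_injective h)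

theorem nh_mul_left {U : Matrix κ κ ℂ} (hU : U ∈ unitary (Matrix κ κ ℂ)) (M : Matrix κ κ ℂ) : nh (U * M) = nh M := by
  refine nh_eq_of ?_
  rw [star_mul, mul_assoc, ← mul_assoc (star U) U M, (Unitary.mem_iff.1 hU).1, one_mul]

theorem nh_mul_right {U : Matrix κ κ ℂ} (hU : U ∈ unitary (Matrix κ κ ℂ)) (M : Matrix κ κ ℂ) : nh (M * U) = nh M := by
  refine nh_eq_of ?_
  rw [star_mul, ntr_mul_comm', mul_assoc M U, ← mul_assoc U (star U), (Unitary.mem_iff.1 hU).2, one_mul, ntr_mul_comm']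

theorem ntr_one [Nonempty κ] : ntr (1 : Matrix κ κ ℂ) = 1 := by
  rw [ntr, Matrix.trace_one, div_self (Nat.cast_ne_zero.2 Fintype.card_ne_zero)]

theorem ntr_sub (M M' : Matrix κ κ ℂ) : ntr (M - M') = ntr M - ntr M' := by
  rw [ntr, ntr, ntr, Matrix.trace_sub, sub_div]

theorem norm_ntr_le [Nonempty κ] (M : Matrix κ κ ℂ) : ‖ntr M‖ ≤ nh M := by
  have hc : (0 : ℝ) < Fintype.card κ := Nat.cast_pos.2 Fintype.card_pos
  refine Real.le_sqrt_of_sq_le ?_
  rw [ntr, norm_div, Complex.norm_natCast, div_pow, div_le_div_iff₀ (by positivity) hc]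
  have h1 : ‖M.trace‖ ≤ ∑ i, ‖M i i‖ := by
    rw [Matrix.trace]
    exact norm_sum_le _ _
  have h2 : (∑ i, ‖M i i‖) ^ 2 ≤ Fintype.card κ * ∑ i, ‖M i i‖ ^ 2 := by
    have h := sq_sum_le_card_mul_sum_sq (s := (Finset.univ : Finset κ)) (f := fun i => ‖M i i‖)
    rwa [Finset.card_univ] at h
  have h3 : ∑ i, ‖M i i‖ ^ 2 ≤ ∑ i, ∑ j, ‖M i j‖ ^ 2 :=
    Finset.sum_le_sum fun i _ => Finset.single_le_sum (f := fun j => ‖M i j‖ ^ 2) (fun j _ => by positivity) (Finset.mem_univ i)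
  have h4 : ‖M.trace‖ ^ 2 ≤ Fintype.card κ * ∑ i, ∑ j, ‖M i j‖ ^ 2 :=
    ((pow_le_pow_left₀ (norm_nonneg _) h1 2).trans h2).trans (mul_le_mul_of_nonneg_left h3 hc.le)
  nlinarith [mul_le_mul_of_nonneg_right h4 hc.le]

/-- A unitary matrix has operator norm at most one. -/
theorem bd_unitary {U : Matrix κ κ ℂ} (hU : U ∈ unitary (Matrix κ κ ℂ)) : Bd 1 U := by
  intro v
  rw [one_pow, one_mul]
  have key : ∀ w : κ → ℂ, ((∑ i, ‖w i‖ ^ 2 : ℝ) : ℂ) = dotProduct (star w) w := by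
    intro w
    rw [dotProduct]
    push_cast
    refine Finset.sum_congr rfl fun i _ => ?_
    rw [Pi.star_apply, Complex.star_def, ← Complex.normSq_eq_conj_mul_self, Complex.normSq_eq_norm_sq]
    push_cast
    rfl
  refine le_of_eq (Complex.ofReal_injective ?_)
  rw [key, key, Matrix.star_mulVec, ← Matrix.dotProduct_mulVec, Matrix.mulVec_mulVec, ← Matrix.star_eq_conjTranspose,
    (Unitary.mem_iff.1 hU).1, Matrix.one_mulVec]

end QWEP
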