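import Pool.Agent.Lib.MP_47effe_an.B.Nh

/-! A unitary matrix near a given matrix. -/

namespace QWEP

private lemma nh_le_of_sum {κ : Type} [Fintype κ] {A B : Matrix κ κ ℂ}
    (h : ∑ i, ∑ j, ‖A i j‖ ^ 2 ≤ ∑ i, ∑ j, ‖B i j‖ ^ 2) : nh A ≤ nh B := by
  unfold nh
  exact Real.sqrt_le_sqrt (div_le_div_of_nonneg_right h (by positivity))

private lemma near_of_orth {κ : Type} [Fintype κ] [DecidableEq κ] (N : Matrix κ κ ℂ)
    (hN : ∀ i j, i ≠ j → (star N * N) i j = 0) :
    ∃ V ∈ unitary (Matrix κ κ ℂ), nh (N - V) ≤ nh (star N * N - 1) := by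
  let c : κ → EuclideanSpace ℂ κ := fun i => WithLp.toLp 2 (fun j => N j i)
  have hc : ∀ i i', inner ℂ (c i) (c i') = (star N * N) i i' := by
    intro i i'
    simp only [c, PiLp.inner_apply, Matrix.mul_apply, Matrix.star_apply, RCLike.inner_apply]
    refine Finset.sum_congr rfl fun j _ => ?_
    rw [mul_comm]; rfl
  let s : Set κ := {i | c i ≠ 0}
  let w : κ → EuclideanSpace ℂ κ := fun i => ((‖c i‖⁻¹ : ℝ) : ℂ) • c i
  have hw : Orthonormal ℂ (s.domRestrict w) := by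
    constructor
    · rintro ⟨i, hi⟩
      have hi' : ‖c i‖ ≠ 0 := norm_ne_zero_iff.2 hi
      change ‖w i‖ = 1
      simp only [w, norm_smul, Complex.norm_real, norm_inv, norm_norm]
      exact inv_mul_cancel₀ hi'
    · rintro ⟨i, hi⟩ ⟨j, hj⟩ hij
      have hij' : i ≠ j := fun h => hij (Subtype.ext h)
      change inner ℂ (w i) (w j) = 0
      simp only [w, inner_smul_left, inner_smul_right, hc, hN i j hij', mul_zero]
  obtain ⟨b, hb⟩ := hw.exists_orthonormalBasis_extension_of_card_eq (by simp)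
  let V : Matrix κ κ ℂ := fun j i => b i j
  have hV : star V * V = 1 := by
    ext i i'
    have h1 : (star V * V) i i' = inner ℂ (b i) (b i') := by
      simp only [V, PiLp.inner_apply, Matrix.mul_apply, Matrix.star_apply, RCLike.inner_apply]
      refine Finset.sum_congr rfl fun j _ => ?_
      rw [mul_comm]; rfl
    rw [h1, orthonormal_iff_ite.1 b.orthonormal i i', Matrix.one_apply]
  refine ⟨V, Matrix.mem_unitaryGroup_iff'.2 hV, nh_le_of_sum ?_⟩
  have h1 : ∑ i, ∑ j, ‖(N - V) i j‖ ^ 2 = ∑ i, ‖c i - b i‖ ^ 2 := by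
    rw [Finset.sum_comm]
    refine Finset.sum_congr rfl fun i _ => ?_
    rw [EuclideanSpace.norm_sq_eq]
    rfl
  rw [h1]
  refine Finset.sum_le_sum fun i _ => ?_
  have h2 : ‖(star N * N - 1) i i‖ ^ 2 ≤ ∑ j, ‖(star N * N - 1) i j‖ ^ 2 :=
    Finset.single_le_sum (f := fun j => ‖(star N * N - 1) i j‖ ^ 2) (fun j _ => by positivity)
      (Finset.mem_univ i)
  refine le_trans ?_ h2
  have h3 : (star N * N - 1) i i = (((‖c i‖ ^ 2 - 1 : ℝ)) : ℂ) := by
    rw [Matrix.sub_apply, Matrix.one_apply_eq, ← hc, inner_self_eq_norm_sq_to_K]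
    push_cast
    rfl
  rw [h3, Complex.norm_real, Real.norm_eq_abs, sq_abs]
  by_cases hi : c i = 0
  · have hbi : ‖b i‖ = 1 := b.orthonormal.1 i
    rw [hi, zero_sub, norm_neg, hbi, norm_zero]
    norm_num
  · have hbi : b i = w i := hb i hi
    have hi' : ‖c i‖ ≠ 0 := norm_ne_zero_iff.2 hi
    have h4 : c i - b i = (((1 - ‖c i‖⁻¹ : ℝ)) : ℂ) • c i := by
      rw [hbi]
      simp only [w]
      push_cast
      rw [sub_smul, one_smul]
    have h5 : ‖c i - b i‖ ^ 2 = (‖c i‖ - 1) ^ 2 := by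
      rw [h4, norm_smul, Complex.norm_real, Real.norm_eq_abs, mul_pow, sq_abs]
      field_simp
    rw [h5]
    have h6 : (‖c i‖ ^ 2 - 1) ^ 2 = (‖c i‖ - 1) ^ 2 * (‖c i‖ + 1) ^ 2 := by ring
    rw [h6]
    have h7 : 1 ≤ (‖c i‖ + 1) ^ 2 := by nlinarith [norm_nonneg (c i)]
    nlinarith [sq_nonneg (‖c i‖ - 1)]

theorem exists_unitary_near {κ : Type} [Fintype κ] [DecidableEq κ] (M : Matrix κ κ ℂ) :
    ∃ W ∈ unitary (Matrix κ κ ℂ), nh (M - W) ≤ nh (star M * M - 1) := by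
  have hH : (star M * M).IsHermitian := Matrix.isHermitian_conjTranspose_mul_self M
  let U : unitary (Matrix κ κ ℂ) := hH.eigenvectorUnitary
  have hU1 : star (U : Matrix κ κ ℂ) * U = 1 := Unitary.coe_star_mul_self U
  have hU2 : (U : Matrix κ κ ℂ) * star (U : Matrix κ κ ℂ) = 1 := Unitary.coe_mul_star_self U
  have hUs : star (U : Matrix κ κ ℂ) ∈ unitary (Matrix κ κ ℂ) := (star U).2
  have hD : star (M * (U : Matrix κ κ ℂ)) * (M * (U : Matrix κ κ ℂ)) =
      star (U : Matrix κ κ ℂ) * (star M * M) * U := by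
    rw [star_mul]; simp only [mul_assoc]
  obtain ⟨V, hV, hVn⟩ := near_of_orth (M * (U : Matrix κ κ ℂ)) (by
    intro i j hij
    rw [hD]
    have := hH.conjStarAlgAut_star_eigenvectorUnitary
    rw [Unitary.conjStarAlgAut_star_apply] at this
    have h2 : star (U : Matrix κ κ ℂ) * (star M * M) * U =
        Matrix.diagonal ((RCLike.ofReal : ℝ → ℂ) ∘ hH.eigenvalues) := this
    rw [h2, Matrix.diagonal_apply_ne _ hij])
  refine ⟨V * star (U : Matrix κ κ ℂ), mul_mem hV hUs, ?_⟩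
  have h1 : M - V * star (U : Matrix κ κ ℂ) =
      (M * (U : Matrix κ κ ℂ) - V) * star (U : Matrix κ κ ℂ) := by
    rw [sub_mul, mul_assoc, hU2, mul_one]
  rw [h1, nh_mul_right hUs]
  refine hVn.trans (le_of_eq ?_)
  have h2 : star (M * (U : Matrix κ κ ℂ)) * (M * (U : Matrix κ κ ℂ)) - 1 =
      star (U : Matrix κ κ ℂ) * ((star M * M - 1) * U) := by
    rw [hD, sub_mul, one_mul, mul_sub, hU1, mul_assoc]
  rw [h2, nh_mul_left hUs, nh_mul_right U.2]

end QWEP
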