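import Pool.Agent.Lib.MP_47effe_an.B.Pol

namespace QWEP

private theorem uni_contr {κ : Type} [Fintype κ] [DecidableEq κ] {Z : Matrix κ κ ℂ} (hZ : Bd 1 Z)
    (X : Matrix κ κ ℂ) : nh (Z * X) ≤ nh X := by
  unfold nh
  apply Real.sqrt_le_sqrt
  apply div_le_div_of_nonneg_right _ (Nat.cast_nonneg _)
  rw [Finset.sum_comm (s := Finset.univ) (t := Finset.univ) (f := fun i j => ‖(Z * X) i j‖ ^ 2),
    Finset.sum_comm (s := Finset.univ) (t := Finset.univ) (f := fun i j => ‖X i j‖ ^ 2)]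
  apply Finset.sum_le_sum
  intro j _
  have h := hZ fun l => X l j
  rw [one_pow, one_mul] at h
  exact h

private theorem uni_sq {κ : Type} [Fintype κ] [DecidableEq κ] {M : Matrix κ κ ℂ} {c : ℝ} (hc : 0 ≤ c)
    (h : ‖ntr (star M * M)‖ ≤ c ^ 2) : nh M ≤ c := by
  rw [← nh_sq, Complex.norm_real, Real.norm_of_nonneg (sq_nonneg _)] at h
  exact le_of_sq_le_sq h hc

private theorem uni_z {G : Type} [Group G] (hG : Hyperlinear G) (F : Finset G) {ε : ℝ} (hε : 0 < ε) :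
    ∃ (ν : Type) (_ : Fintype ν) (_ : DecidableEq ν) (_ : Nonempty ν) (Z : F → Matrix ν ν ℂ),
      (∀ i, Bd 1 (Z i)) ∧ (∀ w : List (F × Bool), w.length ≤ 4 →
        ev (fun g : G => g⁻¹) (fun i : F => i.1) w = 1 → ‖ntr (ev star Z w) - 1‖ ≤ ε) ∧
      ∀ i : F, i.1 ≠ 1 → ‖ntr (Z i)‖ ≤ ε := by
  obtain ⟨ν, i1, i2, i3, Z, h1, h2⟩ := hG F inferInstance (fun i : F => i.1) 4 ε hε
  refine ⟨ν, i1, i2, i3, Z, h1, ?_, ?_⟩
  · intro w hw he
    have h := h2 w hw
    rw [he] at h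
    simpa using h
  · intro i hi
    have h := h2 [(i, false)] (by simp)
    simpa [ev, hi] using h

theorem exists_uni {G : Type} [Group G] (hG : Hyperlinear G) (E : Finset G) {δ : ℝ} (hδ : 0 < δ) :
    ∃ (ν : Type) (_ : Fintype ν) (_ : DecidableEq ν) (_ : Nonempty ν) (U : G → Matrix ν ν ℂ),
      (∀ g, U g ∈ unitary (Matrix ν ν ℂ)) ∧ (∀ g ∈ E, ∀ h ∈ E, nh (U g * U h - U (g * h)) ≤ δ) ∧
        ∀ g ∈ E, g ≠ 1 → ‖ntr (U g)‖ ≤ δ := by
  classical
  obtain ⟨F, hF⟩ : ∃ F : Finset G, F = E ∪ (E ×ˢ E).image (fun p : G × G => p.1 * p.2) := ⟨_, rfl⟩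
  have hFE : ∀ g ∈ E, g ∈ F := fun g hg => by
    rw [hF]
    exact Finset.mem_union_left _ hg
  have hFM : ∀ g ∈ E, ∀ h ∈ E, g * h ∈ F := fun g hg h hh => by
    rw [hF]
    exact Finset.mem_union_right _ (Finset.mem_image.2 ⟨(g, h), Finset.mem_product.2 ⟨hg, hh⟩, rfl⟩)
  obtain ⟨ε, hε0, hε1, hε2⟩ : ∃ ε : ℝ, 0 < ε ∧ ε ≤ δ ^ 2 / 100 ∧ ε ≤ δ / 2 :=
    ⟨min (δ ^ 2 / 100) (δ / 2), lt_min (by positivity) (by positivity), min_le_left _ _, min_le_right _ _⟩
  obtain ⟨ν, i1, i2, i3, Z, hZ1, hZ2, hZ3⟩ := uni_z hG F hε0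
  have hZW : ∀ i : F, ∃ W ∈ unitary (Matrix ν ν ℂ), nh (Z i - W) ≤ δ / 5 := by
    intro i
    obtain ⟨W, hW, hn⟩ := exists_unitary_near (Z i)
    refine ⟨W, hW, hn.trans ?_⟩
    apply uni_sq (by positivity)
    have a2 := hZ2 [(i, true), (i, false)] (by simp) (by simp [ev])
    have a4 := hZ2 [(i, true), (i, false), (i, true), (i, false)] (by simp) (by simp [ev])
    have e2 : ev star Z [(i, true), (i, false)] = star (Z i) * Z i := by simp [ev]
    have e4 : ev star Z [(i, true), (i, false), (i, true), (i, false)] =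
        star (Z i) * (Z i * (star (Z i) * Z i)) := by simp [ev]
    rw [e2] at a2
    rw [e4] at a4
    have e : star (star (Z i) * Z i - 1) * (star (Z i) * Z i - 1) =
        (star (Z i) * (Z i * (star (Z i) * Z i)) - star (Z i) * Z i) - (star (Z i) * Z i - 1) := by
      rw [star_sub, star_mul, star_star, star_one]
      noncomm_ring
    rw [e, ntr_sub, ntr_sub, ntr_sub, ntr_one]
    have e' : ntr (star (Z i) * (Z i * (star (Z i) * Z i))) - ntr (star (Z i) * Z i) -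
        (ntr (star (Z i) * Z i) - 1) = (ntr (star (Z i) * (Z i * (star (Z i) * Z i))) - 1) -
        (ntr (star (Z i) * Z i) - 1) - (ntr (star (Z i) * Z i) - 1) := by ring
    rw [e']
    refine (norm_sub_le _ _).trans ?_
    have b := norm_sub_le (ntr (star (Z i) * (Z i * (star (Z i) * Z i))) - 1) (ntr (star (Z i) * Z i) - 1)
    nlinarith [sq_nonneg δ]
  choose W hWu hWn using hZW
  have hWn' : ∀ i, nh (W i - Z i) ≤ δ / 5 := fun i => by
    rw [← neg_sub, nh_neg]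
    exact hWn i
  have hprod : ∀ a b c : F, c.1 = a.1 * b.1 → nh (Z a * Z b - Z c) ≤ δ / 5 := by
    intro a b c hc
    apply uni_sq (by positivity)
    have m1 := hZ2 [(b, true), (a, true), (a, false), (b, false)] (by simp) (by simp [ev])
    have m2 := hZ2 [(b, true), (a, true), (c, false)] (by simp) (by simp [ev, hc])
    have m3 := hZ2 [(c, true), (a, false), (b, false)] (by simp) (by simp [ev, hc])
    have m4 := hZ2 [(c, true), (c, false)] (by simp) (by simp [ev])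
    have e1 : ev star Z [(b, true), (a, true), (a, false), (b, false)] =
      star (Z b) * (star (Z a) * (Z a * Z b)) := by simp [ev]
    have e2 : ev star Z [(b, true), (a, true), (c, false)] = star (Z b) * (star (Z a) * Z c) := by simp [ev]
    have e3 : ev star Z [(c, true), (a, false), (b, false)] = star (Z c) * (Z a * Z b) := by simp [ev]
    have e4 : ev star Z [(c, true), (c, false)] = star (Z c) * Z c := by simp [ev]
    rw [e1] at m1
    rw [e2] at m2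
    rw [e3] at m3
    rw [e4] at m4
    have e : star (Z a * Z b - Z c) * (Z a * Z b - Z c) =
        (star (Z b) * (star (Z a) * (Z a * Z b)) - star (Z b) * (star (Z a) * Z c)) -
        (star (Z c) * (Z a * Z b) - star (Z c) * Z c) := by
      rw [star_sub, star_mul]
      noncomm_ring
    rw [e, ntr_sub, ntr_sub, ntr_sub]
    generalize ntr (star (Z b) * (star (Z a) * (Z a * Z b))) = p1 at *
    generalize ntr (star (Z b) * (star (Z a) * Z c)) = p2 at *
    generalize ntr (star (Z c) * (Z a * Z b)) = p3 at *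
    generalize ntr (star (Z c) * Z c) = p4 at *
    have e' : p1 - p2 - (p3 - p4) = ((p1 - 1) - (p2 - 1)) - ((p3 - 1) - (p4 - 1)) := by ring
    rw [e']
    have b1 := norm_sub_le ((p1 - 1) - (p2 - 1)) ((p3 - 1) - (p4 - 1))
    have b2 := norm_sub_le (p1 - 1) (p2 - 1)
    have b3 := norm_sub_le (p3 - 1) (p4 - 1)
    nlinarith [sq_nonneg δ]
  refine ⟨ν, i1, i2, i3, fun g => if h : g ∈ F then W ⟨g, h⟩ else 1, ?_, ?_, ?_⟩
  · intro g
    dsimp only
    split_ifs with h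
    · exact hWu _
    · exact one_mem _
  · intro g hg h hh
    dsimp only
    rw [dif_pos (hFE g hg), dif_pos (hFE h hh), dif_pos (hFM g hg h hh)]
    have q1 := hprod ⟨g, hFE g hg⟩ ⟨h, hFE h hh⟩ ⟨g * h, hFM g hg h hh⟩ rfl
    have q2 := hWn' ⟨g, hFE g hg⟩
    have q3 := hWn' ⟨h, hFE h hh⟩
    have q4 := hWn ⟨g * h, hFM g hg h hh⟩
    have q5 := hWu ⟨h, hFE h hh⟩
    have q6 := hZ1 ⟨g, hFE g hg⟩
    generalize W ⟨g, hFE g hg⟩ = Wa at *
    generalize W ⟨h, hFE h hh⟩ = Wb at *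
    generalize W ⟨g * h, hFM g hg h hh⟩ = Wc at *
    generalize Z ⟨g, hFE g hg⟩ = Za at *
    generalize Z ⟨h, hFE h hh⟩ = Zb at *
    generalize Z ⟨g * h, hFM g hg h hh⟩ = Zc at *
    have e : Wa * Wb - Wc = ((Wa - Za) * Wb + Za * (Wb - Zb)) + ((Za * Zb - Zc) + (Zc - Wc)) := by
      noncomm_ring
    rw [e]
    have r1 := nh_add_le ((Wa - Za) * Wb + Za * (Wb - Zb)) ((Za * Zb - Zc) + (Zc - Wc))
    have r2 := nh_add_le ((Wa - Za) * Wb) (Za * (Wb - Zb))
    have r3 := nh_add_le (Za * Zb - Zc) (Zc - Wc)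
    have r4 := nh_mul_right q5 (Wa - Za)
    have r5 := uni_contr q6 (Wb - Zb)
    linarith
  · intro g hg hg1
    dsimp only
    rw [dif_pos (hFE g hg)]
    have s1 := hZ3 ⟨g, hFE g hg⟩ hg1
    have s2 := norm_ntr_le (W ⟨g, hFE g hg⟩ - Z ⟨g, hFE g hg⟩)
    have s3 := hWn' ⟨g, hFE g hg⟩
    rw [ntr_sub] at s2
    have s4 := norm_le_norm_add_norm_sub' (ntr (W ⟨g, hFE g hg⟩)) (ntr (Z ⟨g, hFE g hg⟩))
    linarith

end QWEP
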